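import Pool.Statements.S08099
import Pool.Agent.Lib.MP_36bd7d_h28.Red3
import Pool.Agent.Lib.MP_36bd7d_h28.CertsAll
import Pool.Agent.Lib.MP_36bd7d_h28.ChkSound

set_option autoImplicit false
open Pool Pool.MP_36bd7d_co

namespace Pool.Agent.S08099

/-- For every n ≥ 1 and every family F of subsets of an n-element set in which each element lies in more than 2^(n-4) members, some three (not necessarily distinct) members of F have union equal to the whole set. -/
theorem result :
    ∀ n : ℕ, 1 ≤ n → ∀ F : Finset (Finset (Fin n)),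
      (∀ i : Fin n, (2 : ℝ) ^ ((n : ℤ) - 4) < (((F.filter (fun A => i ∈ A)).card : ℕ) : ℝ)) →
      ∃ X ∈ F, ∃ Y ∈ F, ∃ Z ∈ F, X ∪ Y ∪ Z = Finset.univ := by
  intro n hn F hdeg
  rcases Nat.lt_or_ge n 4 with h4 | h4
  · exact Pool.Agent.Lib.MP36.small_n hn (by omega) F hdeg
  by_contra hno
  obtain ⟨g, i, q, h01, hmono, h3, hp, hq, hW, hq1, hq2⟩ :=
    Pool.Agent.Lib.MP36.reduction h4 F hdeg hno
  refine Pool.Agent.Lib.MP36.cases_q g i q h01 hmono hp hq hW hq1 hq2 ?_
  intro qa qb rho k hmem ha hb hk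
  obtain ⟨C, hC, rfl, rfl, rfl, rfl⟩ := Pool.Agent.Lib.MP36.certs_cover qa qb rho k hmem
  exact C.sound hC g i q h01 hmono h3 hp hq hW ha hb hk

end Pool.Agent.S08099
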