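-- Counterexample to Bell's question on closed G_delta subsets of centered compacta.
import Pool.Statements.S13232

set_option autoImplicit false
open Pool Pool.MP_5abde9_gt

namespace Pool.Agent.S13232

open PiNat

/-- The vertex set of the complex: the natural numbers and the points of the Cantor set. -/
abbrev V : Type := ℕ ⊕ (ℕ → Bool)

/-- The point `x` of the cube is good if, for distinct branches `s, t` in its branch part,
the level `firstDiff s t` is not in its number part. -/
def Good (x : V → Bool) : Prop :=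
  ∀ s t : ℕ → Bool, s ≠ t → x (Sum.inr s) = true → x (Sum.inr t) = true →
    x (Sum.inl (firstDiff s t)) = false

/-- The complex of good finite sets. -/
def GoodFin (σ : Finset V) : Prop :=
  ∀ s t : ℕ → Bool, s ≠ t → Sum.inr s ∈ σ → Sum.inr t ∈ σ → Sum.inl (firstDiff s t) ∉ σ

/-- The set attached to a vertex. -/
def P (v : V) : Set (Finset V) := {σ | v ∈ σ ∧ GoodFin σ}

lemma goodFin_singleton (v : V) : GoodFin {v} := by
  intro s t hst hs ht
  exfalso
  rw [Finset.mem_singleton] at hs ht
  apply hst
  have := hs.trans ht.symm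
  exact Sum.inr_injective this

lemma P_injective : Function.Injective P := by
  intro v w h
  have h1 : ({v} : Finset V) ∈ P v := ⟨Finset.mem_singleton_self v, goodFin_singleton v⟩
  rw [h] at h1
  exact (Finset.mem_singleton.1 h1.1).symm

/-- A continuous Boolean function on a compact subset of a Cantor cube depends on finitely many
coordinates. -/
lemma finite_dep {ι : Type*} {A : Set (ι → Bool)} (hA : IsCompact A) (p : A → Bool)
    (hp : Continuous p) :
    ∃ E : Finset ι, ∀ x y : A, (∀ i ∈ E, x.1 i = y.1 i) → p x = p y := by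
  classical
  have : CompactSpace A := isCompact_iff_compactSpace.1 hA
  have h1 : ∀ x : A, ∃ E : Finset ι, ∀ y : A, (∀ i ∈ E, x.1 i = y.1 i) → p x = p y := by
    intro x
    have ho : IsOpen {y : A | p x = p y} := by
      have : {y : A | p x = p y} = p ⁻¹' {p x} := by
        ext y; simp [eq_comm]
      rw [this]
      exact (isOpen_discrete _).preimage hp
    obtain ⟨U, hU, hUe⟩ := isOpen_induced_iff.1 ho
    have hxU : x.1 ∈ U := by
      have : x ∈ Subtype.val ⁻¹' U := by rw [hUe]; exact rfl
      exact this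
    obtain ⟨I, u, hu, hI⟩ := isOpen_pi_iff.1 hU x.1 hxU
    refine ⟨I, fun y hy => ?_⟩
    have : y.1 ∈ U := by
      apply hI
      intro i hi
      rw [← hy i hi]
      exact (hu i hi).2
    have h2 : y ∈ Subtype.val ⁻¹' U := this
    rw [hUe] at h2
    exact h2
  choose E hE using h1
  have hcover : (Set.univ : Set A) ⊆ ⋃ x : A, {y : A | ∀ i ∈ E x, x.1 i = y.1 i} := by
    intro x _
    rw [Set.mem_iUnion]
    exact ⟨x, fun i _ => rfl⟩
  have hopen : ∀ x : A, IsOpen {y : A | ∀ i ∈ E x, x.1 i = y.1 i} := by
    intro x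
    have : {y : A | ∀ i ∈ E x, x.1 i = y.1 i} = ⋂ i ∈ E x, (fun y : A => y.1 i) ⁻¹' {x.1 i} := by
      ext y
      simp [eq_comm]
    rw [this]
    apply isOpen_biInter_finset
    intro i _
    apply (isOpen_discrete _).preimage
    exact (continuous_apply i).comp continuous_subtype_val
  obtain ⟨t, ht⟩ := isCompact_univ.elim_finite_subcover _ hopen hcover
  refine ⟨t.biUnion E, fun x y hxy => ?_⟩
  have hx := ht (Set.mem_univ x)
  rw [Set.mem_iUnion₂] at hx
  obtain ⟨z, hz, hzx⟩ := hx
  have h3 : p z = p x := hE z x hzx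
  have h4 : p z = p y := by
    apply hE z y
    intro i hi
    rw [hzx i hi]
    exact hxy i (Finset.mem_biUnion.2 ⟨z, hz, hi⟩)
  rw [← h3, h4]

/-- The key combinatorial lemma: no downward closed compact subset of a Cantor cube maps
continuously onto the set of good points missing at most one number. -/
lemma key {ι : Type*} {A : Set (ι → Bool)} (hA : IsCompact A)
    (hdown : ∀ x ∈ A, ∀ y : ι → Bool, (∀ i, y i = true → x i = true) → y ∈ A)
    (g : A → V → Bool) (hg : Continuous g) (hgood : ∀ x, Good (g x))
    (hone : ∀ x : A, ∀ m n : ℕ, g x (Sum.inl m) = false → g x (Sum.inl n) = false → m = n)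
    (hsurj : ∀ y : V → Bool, Good y →
      (∀ m n : ℕ, y (Sum.inl m) = false → y (Sum.inl n) = false → m = n) → ∃ x, g x = y) :
    False := by
  classical
  have hD : ∀ n : ℕ, ∃ D : Finset ι, ∀ x y : A, (∀ i ∈ D, x.1 i = y.1 i) →
      g x (Sum.inl n) = g y (Sum.inl n) := fun n =>
    finite_dep hA (fun x => g x (Sum.inl n)) ((continuous_apply _).comp hg)
  have hE : ∀ s : ℕ → Bool, ∃ D : Finset ι, ∀ x y : A, (∀ i ∈ D, x.1 i = y.1 i) →
      g x (Sum.inr s) = g y (Sum.inr s) := fun s =>
    finite_dep hA (fun x => g x (Sum.inr s)) ((continuous_apply _).comp hg)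
  choose D hD using hD
  choose E hE using hE
  set DD : Set ι := ⋃ n, (D n : Set ι) with hDD
  have hDDc : DD.Countable := Set.countable_iUnion fun n => (D n).countable_toSet
  have : Countable DD := hDDc.to_subtype
  -- pigeonhole
  let φ : (ℕ → Bool) → Finset DD := fun s => (E s).subtype (· ∈ DD)
  have hpig : ∃ R : Finset DD, (φ ⁻¹' {R}).Infinite := by
    by_contra hcon
    push Not at hcon
    have h1 : (Set.univ : Set (ℕ → Bool)).Countable := by
      have : (Set.univ : Set (ℕ → Bool)) = ⋃ R : Finset DD, φ ⁻¹' {R} := by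
        ext s; simp
      rw [this]
      exact Set.countable_iUnion fun R => (hcon R).countable
    have h2 : Countable (ℕ → Bool) := Set.countable_univ_iff.1 h1
    obtain ⟨f, hf⟩ := h2.exists_injective_nat
    exact Function.cantor_injective (fun A : Set ℕ => f fun n => decide (n ∈ A)) (by
      intro A B hAB
      have h3 := hf hAB
      ext n
      have h4 := congrFun h3 n
      simpa using h4)
  obtain ⟨R, hR⟩ := hpig
  -- the characteristic function of a subset of R
  let χ : Finset DD → ι → Bool := fun r i => decide (∃ h : i ∈ DD, (⟨i, h⟩ : DD) ∈ r)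
  let vals : Set ℕ := ⋃ r ∈ (R.powerset : Set (Finset DD)),
    {n : ℕ | ∃ h : χ r ∈ A, g ⟨χ r, h⟩ (Sum.inl n) = false}
  have hvals : vals.Finite := by
    apply Set.Finite.biUnion (Finset.finite_toSet _)
    intro r _
    apply Set.Subsingleton.finite
    rintro m ⟨h, hm⟩ n ⟨h', hn⟩
    exact hone _ m n hm hn
  have hmain : ∀ s ∈ φ ⁻¹' {R}, ∀ t ∈ φ ⁻¹' {R}, s ≠ t → firstDiff s t ∈ vals := by
    intro s hs t ht hst
    have hs' : φ s = R := hs
    have ht' : φ t = R := ht
    -- the target point
    let y : V → Bool := Sum.elim (fun n => decide (n ≠ firstDiff s t))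
      (fun u => decide (u = s ∨ u = t))
    have hy : Good y := by
      intro a b hab ha hb
      have ha' : a = s ∨ a = t := by simpa [y] using ha
      have hb' : b = s ∨ b = t := by simpa [y] using hb
      have : firstDiff a b = firstDiff s t := by
        rcases ha' with rfl | rfl <;> rcases hb' with rfl | rfl
        · exact absurd rfl hab
        · rfl
        · exact firstDiff_comm _ _
        · exact absurd rfl hab
      simp [y, this]
    have hy2 : ∀ m n : ℕ, y (Sum.inl m) = false → y (Sum.inl n) = false → m = n := by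
      intro m n hm hn
      have hm' : m = firstDiff s t := by simpa [y] using hm
      have hn' : n = firstDiff s t := by simpa [y] using hn
      rw [hm', hn']
    obtain ⟨x, hx⟩ := hsurj y hy hy2
    let x' : ι → Bool := fun i => x.1 i && decide (i ∈ E s ∪ E t)
    have hx'A : x' ∈ A := hdown x.1 x.2 x' (by
      intro i hi
      simp only [x', Bool.and_eq_true] at hi
      exact hi.1)
    have h1 : g ⟨x', hx'A⟩ (Sum.inr s) = true := by
      rw [hE s ⟨x', hx'A⟩ x, hx]
      · simp [y]
      · intro i hi
        simp [x', hi]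
    have h2 : g ⟨x', hx'A⟩ (Sum.inr t) = true := by
      rw [hE t ⟨x', hx'A⟩ x, hx]
      · simp [y]
      · intro i hi
        simp [x', hi]
    have h3 : g ⟨x', hx'A⟩ (Sum.inl (firstDiff s t)) = false := hgood _ s t hst h1 h2
    -- the restriction to R
    let r : Finset DD := R.filter (fun i => x.1 i.1 = true)
    have hrR : r ∈ (R.powerset : Set (Finset DD)) := by
      rw [Finset.mem_coe, Finset.mem_powerset]
      exact Finset.filter_subset _ _
    have hmemR : ∀ i : ι, ∀ h : i ∈ DD, (i ∈ E s ∪ E t ↔ (⟨i, h⟩ : DD) ∈ R) := by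
      intro i h
      have h4 : (⟨i, h⟩ : DD) ∈ R ↔ i ∈ E s := by
        rw [← hs']; simp [φ]
      have h5 : (⟨i, h⟩ : DD) ∈ R ↔ i ∈ E t := by
        rw [← ht']; simp [φ]
      rw [Finset.mem_union]
      tauto
    have hχA : χ r ∈ A := hdown x.1 x.2 _ (by
      intro i hi
      simp only [χ, decide_eq_true_eq] at hi
      obtain ⟨h, hi⟩ := hi
      exact (Finset.mem_filter.1 hi).2)
    have h6 : g ⟨χ r, hχA⟩ (Sum.inl (firstDiff s t)) = false := by
      rw [← h3]
      apply hD
      intro i hi
      have hiDD : i ∈ DD := Set.mem_iUnion.2 ⟨_, hi⟩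
      have h7 := hmemR i hiDD
      show decide (∃ h : i ∈ DD, (⟨i, h⟩ : DD) ∈ r) = (x.1 i && decide (i ∈ E s ∪ E t))
      rw [Bool.eq_iff_iff, decide_eq_true_eq, Bool.and_eq_true, decide_eq_true_eq, h7]
      constructor
      · rintro ⟨h, hi⟩
        exact ⟨(Finset.mem_filter.1 hi).2, (Finset.mem_filter.1 hi).1⟩
      · rintro ⟨h, hi⟩
        exact ⟨hiDD, Finset.mem_filter.2 ⟨hi, h⟩⟩
    exact Set.mem_biUnion hrR ⟨hχA, h6⟩
  -- finitely many values of firstDiff on an infinite set: contradiction
  obtain ⟨m, hm⟩ := hvals.bddAbove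
  apply hR
  have hinj : Set.InjOn (fun (s : ℕ → Bool) (i : Fin (m + 1)) => s i) (φ ⁻¹' {R}) := by
    intro s hs t ht hst
    by_contra hne
    have h1 : firstDiff s t ≤ m := hm (hmain s hs t ht hne)
    have h2 := apply_firstDiff_ne hne
    apply h2
    exact congrFun hst ⟨firstDiff s t, Nat.lt_succ_of_le h1⟩
  exact Set.Finite.of_finite_image (Set.toFinite _) hinj

/-- The negation of the preceding statement: If a compact Hausdorff space is a continuous image of the space of subfamilies with the finite intersection property of some infinite family of sets, then every nonempty closed G-delta subset of it is also such a continuous image. -/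
theorem result :
    ¬ (∀ (K : Type) [TopologicalSpace K] [CompactSpace K] [T2Space K],
      (∃ (X : Type) (S : Set (Set X)), S.Infinite ∧
        ∃ f : {ξ : S → Bool //
            ∀ F : Finset S, (∀ P ∈ F, ξ P = true) → (⋂ P ∈ F, P.1).Nonempty} → K,
          Continuous f ∧ Function.Surjective f) →
      ∀ C : Set K, IsClosed C → IsGδ C → C.Nonempty →
        ∃ (X : Type) (S : Set (Set X)), S.Infinite ∧
          ∃ g : {ξ : S → Bool //
              ∀ F : Finset S, (∀ P ∈ F, ξ P = true) → (⋂ P ∈ F, P.1).Nonempty} → C,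
            Continuous g ∧ Function.Surjective g) := by
  classical
  intro H
  -- the compactum
  have hcl : IsClosed {x : V → Bool | Good x} := by
    have : {x : V → Bool | Good x} = ⋂ s : ℕ → Bool, ⋂ t : ℕ → Bool,
        {x : V → Bool | s ≠ t → x (Sum.inr s) = true → x (Sum.inr t) = true →
          x (Sum.inl (firstDiff s t)) = false} := by
      ext x; simp [Good]
    rw [this]
    refine isClosed_iInter fun s => isClosed_iInter fun t => ?_
    have h2 : {x : V → Bool | s ≠ t → x (Sum.inr s) = true → x (Sum.inr t) = true →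
          x (Sum.inl (firstDiff s t)) = false} =
        (fun x : V → Bool => (x (Sum.inr s), x (Sum.inr t), x (Sum.inl (firstDiff s t)))) ⁻¹'
          {q | s ≠ t → q.1 = true → q.2.1 = true → q.2.2 = false} := rfl
    rw [h2]
    apply (isClosed_discrete _).preimage
    exact (continuous_apply _).prodMk ((continuous_apply _).prodMk (continuous_apply _))
  let K : Type := {x : V → Bool // Good x}
  have : CompactSpace K := isCompact_iff_compactSpace.1 hcl.isCompact
  let C : Set K := {x | ∀ m n : ℕ, x.1 (Sum.inl m) = false → x.1 (Sum.inl n) = false → m = n}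
  have hCeq : C = ⋂ q : ℕ × ℕ, {x : K | x.1 (Sum.inl q.1) = false →
      x.1 (Sum.inl q.2) = false → q.1 = q.2} := by
    ext x
    simp only [C, Set.mem_ofPred_eq, Set.mem_iInter, Prod.forall]
  have hclopen : ∀ q : ℕ × ℕ, IsClopen {x : K | x.1 (Sum.inl q.1) = false →
      x.1 (Sum.inl q.2) = false → q.1 = q.2} := by
    intro q
    have h2 : {x : K | x.1 (Sum.inl q.1) = false → x.1 (Sum.inl q.2) = false → q.1 = q.2} =
        (fun x : K => (x.1 (Sum.inl q.1), x.1 (Sum.inl q.2))) ⁻¹'
          {b | b.1 = false → b.2 = false → q.1 = q.2} := rfl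
    rw [h2]
    apply (isClopen_discrete _).preimage
    exact ((continuous_apply _).comp continuous_subtype_val).prodMk
      ((continuous_apply _).comp continuous_subtype_val)
  have hCclosed : IsClosed C := by
    rw [hCeq]
    exact isClosed_iInter fun q => (hclopen q).1
  have hCGδ : IsGδ C := by
    rw [hCeq]
    exact IsGδ.iInter fun q => (hclopen q).2.isGδ
  have hCne : C.Nonempty := by
    refine ⟨⟨Sum.elim (fun _ => true) (fun _ => false), ?_⟩, ?_⟩
    · intro s t _ hs _
      simp at hs
    · intro m n hm _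
      simp at hm
  -- the compactum is centered
  have hcent : ∃ (X : Type) (S : Set (Set X)), S.Infinite ∧
        ∃ f : {ξ : S → Bool //
            ∀ F : Finset S, (∀ P ∈ F, ξ P = true) → (⋂ P ∈ F, P.1).Nonempty} → K,
          Continuous f ∧ Function.Surjective f := by
    refine ⟨Finset V, Set.range P, Set.infinite_range_of_injective P_injective, ?_⟩
    have hmem : ∀ v, P v ∈ Set.range P := fun v => ⟨v, rfl⟩
    refine ⟨fun ξ => ⟨fun v => ξ.1 ⟨P v, hmem v⟩, ?_⟩, ?_, ?_⟩
    · intro s t hst hs ht
      by_contra hn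
      rw [Bool.not_eq_false] at hn
      obtain ⟨σ, hσ⟩ := ξ.2 {⟨P (Sum.inr s), hmem _⟩, ⟨P (Sum.inr t), hmem _⟩,
        ⟨P (Sum.inl (firstDiff s t)), hmem _⟩} (by
          intro Q hQ
          simp only [Finset.mem_insert, Finset.mem_singleton] at hQ
          rcases hQ with rfl | rfl | rfl
          · exact hs
          · exact ht
          · exact hn)
      simp only [Set.mem_iInter] at hσ
      have h1 : σ ∈ P (Sum.inr s) := hσ ⟨P (Sum.inr s), hmem _⟩ (by simp)
      have h2 : σ ∈ P (Sum.inr t) := hσ ⟨P (Sum.inr t), hmem _⟩ (by simp)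
      have h3 : σ ∈ P (Sum.inl (firstDiff s t)) := hσ ⟨P (Sum.inl (firstDiff s t)), hmem _⟩
        (by simp)
      exact h1.2 s t hst h1.1 h2.1 h3.1
    · apply Continuous.subtype_mk
      apply continuous_pi
      intro v
      exact (continuous_apply _).comp continuous_subtype_val
    · intro x
      have hinv : ∀ Q : Set.range P, ∃ v, P v = Q.1 := fun Q => Q.2
      choose w hw using hinv
      refine ⟨⟨fun Q => x.1 (w Q), ?_⟩, ?_⟩
      · intro F hF
        refine ⟨F.image w, ?_⟩
        simp only [Set.mem_iInter]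
        intro Q hQ
        rw [← hw Q]
        refine ⟨Finset.mem_image_of_mem w hQ, ?_⟩
        intro s t hst hs ht hn
        obtain ⟨Q1, hQ1, h1⟩ := Finset.mem_image.1 hs
        obtain ⟨Q2, hQ2, h2⟩ := Finset.mem_image.1 ht
        obtain ⟨Q3, hQ3, h3⟩ := Finset.mem_image.1 hn
        have e1 := hF Q1 hQ1
        have e2 := hF Q2 hQ2
        have e3 := hF Q3 hQ3
        simp only [h1, h2, h3] at e1 e2 e3
        have e4 := x.2 s t hst e1 e2
        rw [e3] at e4
        exact Bool.noConfusion e4
      · apply Subtype.ext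
        funext v
        show x.1 (w ⟨P v, hmem v⟩) = x.1 v
        rw [P_injective (hw ⟨P v, hmem v⟩)]
  obtain ⟨X, S, _, g, hgc, hgs⟩ := H K hcent C hCclosed hCGδ hCne
  -- contradiction
  refine key (ι := S) (A := {ξ : S → Bool |
      ∀ F : Finset S, (∀ P ∈ F, ξ P = true) → (⋂ P ∈ F, P.1).Nonempty}) ?_ ?_
      (fun x => (g x).1.1) ?_ ?_ ?_ ?_
  · apply IsClosed.isCompact
    have : {ξ : S → Bool |
      ∀ F : Finset S, (∀ P ∈ F, ξ P = true) → (⋂ P ∈ F, P.1).Nonempty} =
      ⋂ F : Finset S, {ξ : S → Bool | (∀ P ∈ F, ξ P = true) → (⋂ P ∈ F, P.1).Nonempty} := by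
      ext ξ; simp
    rw [this]
    refine isClosed_iInter fun F => ?_
    by_cases hF : (⋂ P ∈ F, P.1).Nonempty
    · have : {ξ : S → Bool | (∀ P ∈ F, ξ P = true) → (⋂ P ∈ F, P.1).Nonempty} = Set.univ := by
        ext ξ
        exact ⟨fun _ => Set.mem_univ _, fun _ _ => hF⟩
      rw [this]; exact isClosed_univ
    · have : {ξ : S → Bool | (∀ P ∈ F, ξ P = true) → (⋂ P ∈ F, P.1).Nonempty} =
          (⋂ P ∈ F, (fun ξ : S → Bool => ξ P) ⁻¹' {true})ᶜ := by
        ext ξ
        simp only [Set.mem_ofPred_eq, Set.mem_compl_iff, Set.mem_iInter, Set.mem_preimage,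
          Set.mem_singleton_iff]
        tauto
      rw [this]
      apply IsOpen.isClosed_compl
      apply isOpen_biInter_finset
      intro Q _
      exact (isOpen_discrete _).preimage (continuous_apply Q)
  · intro x hx y hy F hF
    exact hx F fun Q hQ => hy Q (hF Q hQ)
  · exact continuous_subtype_val.comp (continuous_subtype_val.comp hgc)
  · exact fun x => (g x).1.2
  · exact fun x => (g x).2
  · intro y hy hy2
    obtain ⟨x, hx⟩ := hgs ⟨⟨y, hy⟩, hy2⟩
    refine ⟨x, ?_⟩
    show (g x).1.1 = y
    rw [hx]

end Pool.Agent.S13232
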