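import Pool.Statements.S09679
import Pool.Agent.Lib.MP_7c6760_co.OreMain

set_option autoImplicit false
open Pool Pool.MP_7c6760_co

namespace Pool.Agent.S09679

lemma degree_eq {n : ℕ} (G : SimpleGraph (Fin n)) [DecidableRel G.Adj] (x : Fin n) :
    G.degree x = Pool.Agent.MP_7c6760_co.dg G x := by
  unfold Pool.Agent.MP_7c6760_co.dg Pool.Agent.MP_7c6760_co.nb
  rw [← SimpleGraph.card_neighborFinset_eq_degree]
  congr 1
  ext y
  simp

/-- For all n-vertex graphs G1, G2, if every edge of G1 and every edge of G2 have product of Ore-degrees below 2n, then some vertex permutation maps G1's edges to non-edges of G2, i.e. the graphs pack. -/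
theorem result :
    ∀ (n : ℕ) (G₁ G₂ : SimpleGraph (Fin n)) [DecidableRel G₁.Adj] [DecidableRel G₂.Adj],
      (∀ x y u v : Fin n, G₁.Adj x y → G₂.Adj u v →
        (G₁.degree x + G₁.degree y) * (G₂.degree u + G₂.degree v) < 2 * n) →
      ∃ σ : Equiv.Perm (Fin n), ∀ a b : Fin n, G₁.Adj a b → ¬ G₂.Adj (σ a) (σ b) := by
  intro n G₁ G₂ _ _ h
  by_cases h1 : ∃ x y, G₁.Adj x y
  · by_cases h2 : ∃ x y, G₂.Adj x y
    · obtain ⟨x1, y1, hxy1⟩ := h1
      obtain ⟨x2, y2, hxy2⟩ := h2
      obtain ⟨p, hp, hpm⟩ := Finset.exists_max_image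
        (Finset.univ.filter (fun p : Fin n × Fin n => G₁.Adj p.1 p.2))
        (fun p => G₁.degree p.1 + G₁.degree p.2) ⟨(x1, y1), by simpa using hxy1⟩
      obtain ⟨q, hq, hqm⟩ := Finset.exists_max_image
        (Finset.univ.filter (fun p : Fin n × Fin n => G₂.Adj p.1 p.2))
        (fun p => G₂.degree p.1 + G₂.degree p.2) ⟨(x2, y2), by simpa using hxy2⟩
      have hp' : G₁.Adj p.1 p.2 := by simpa using hp
      have hq' : G₂.Adj q.1 q.2 := by simpa using hq
      have hlt := h p.1 p.2 q.1 q.2 hp' hq'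
      have ha : Pool.Agent.MP_7c6760_co.OreLe G₁ (G₁.degree p.1 + G₁.degree p.2) := by
        intro x y hxy
        rw [← degree_eq, ← degree_eq]
        exact hpm (x, y) (by simpa using hxy)
      have hb : Pool.Agent.MP_7c6760_co.OreLe G₂ (G₂.degree q.1 + G₂.degree q.2) := by
        intro x y hxy
        rw [← degree_eq, ← degree_eq]
        exact hqm (x, y) (by simpa using hxy)
      have hno := Pool.Agent.MP_7c6760_co.ore_pack ha hb (by rw [Fintype.card_fin]; exact hlt)
      unfold Pool.Agent.MP_7c6760_co.NoPack at hno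
      push Not at hno
      obtain ⟨H, ⟨σ, rfl⟩, hdis⟩ := hno
      exact ⟨σ, fun a b hab hab' => hdis a b hab hab'⟩
    · push Not at h2
      exact ⟨1, fun a b _ => h2 _ _⟩
  · push Not at h1
    exact ⟨1, fun a b hab => absurd hab (h1 a b)⟩

end Pool.Agent.S09679
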