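import Pool.Statements.S00365
import Pool.Agent.Lib.MP_ac4d2b_ag.IRR
import Pool.Agent.Lib.MP_ac4d2b_ag.CLS

set_option autoImplicit false
open Pool Pool.MP_ac4d2b_ag

namespace Pool.Agent.S00365

/-- The set of triples of commuting 12x12 complex matrices together with a cyclic vector is irreducible in the Zariski topology; this is equivalent to the Hilbert scheme of 12 points in complex affine 3-space being irreducible. -/
theorem result :
    ∀ U : Set ((Fin 3 × Fin 12 × Fin 12) ⊕ Fin 12 → ℂ),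
      U = {p : (Fin 3 × Fin 12 × Fin 12) ⊕ Fin 12 → ℂ |
        (∀ i j : Fin 3,
          Matrix.of (fun a b => p (Sum.inl (i, a, b))) *
              Matrix.of (fun a b => p (Sum.inl (j, a, b))) =
            Matrix.of (fun a b => p (Sum.inl (j, a, b))) *
              Matrix.of (fun a b => p (Sum.inl (i, a, b)))) ∧
        Submodule.span ℂ (Set.range (fun e : ℕ × ℕ × ℕ =>
          Matrix.mulVec
            (Matrix.of (fun a b => p (Sum.inl ((0 : Fin 3), a, b))) ^ e.1 *
              Matrix.of (fun a b => p (Sum.inl ((1 : Fin 3), a, b))) ^ e.2.1 *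
              Matrix.of (fun a b => p (Sum.inl ((2 : Fin 3), a, b))) ^ e.2.2)
            (fun a => p (Sum.inr a)))) = ⊤} →
      (∃ p, p ∈ U) ∧
      ∀ S T : Set (MvPolynomial ((Fin 3 × Fin 12 × Fin 12) ⊕ Fin 12) ℂ),
        U ⊆ {x | ∀ f ∈ S, MvPolynomial.eval x f = 0} ∪
              {x | ∀ f ∈ T, MvPolynomial.eval x f = 0} →
        U ⊆ {x | ∀ f ∈ S, MvPolynomial.eval x f = 0} ∨
          U ⊆ {x | ∀ f ∈ T, MvPolynomial.eval x f = 0} :=
  Pool.Agent.MPac4d2b.irr_of_main (Pool.Agent.MPac4d2b.main_le 12 le_rfl)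

end Pool.Agent.S00365
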