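import Pool.Statements.S00439
import Pool.Agent.Lib.MP_c95b3b_ag_ZP.Final

set_option autoImplicit false
open Pool Pool.MP_c95b3b_ag

namespace Pool.Agent.S00439

/-- For an irreducible subvariety Y of the complex n-torus: if the points of Y lying in algebraic subgroups H with dim Y + dim H at most n−1 are Zariski dense in Y, then some nonzero character x^a is identically 1 on Y, i.e. Y lies in a proper algebraic subgroup. -/
theorem result :
    ∀ (n : ℕ) (P : Ideal (MvPolynomial (Fin n) ℂ)), P.IsPrime →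
      (∏ i : Fin n, (MvPolynomial.X i : MvPolynomial (Fin n) ℂ)) ∉ P →
      (∀ f : MvPolynomial (Fin n) ℂ,
        (∀ x : Fin n → ℂ, (∀ i, x i ≠ 0) → (∀ g ∈ P, MvPolynomial.eval x g = 0) →
          (∃ Λ : Submodule ℤ (Fin n → ℤ),
            ringKrullDim (MvPolynomial (Fin n) ℂ ⧸ P)
                + ((n - Module.finrank ℤ Λ : ℕ) : WithBot ℕ∞) + 1 ≤ (n : WithBot ℕ∞) ∧
            ∀ a ∈ Λ, ∏ i : Fin n, x i ^ a i = 1) →
          MvPolynomial.eval x f = 0) →
        ∀ x : Fin n → ℂ, (∀ i, x i ≠ 0) → (∀ g ∈ P, MvPolynomial.eval x g = 0) →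
          MvPolynomial.eval x f = 0) →
      ∃ a : Fin n → ℤ, a ≠ 0 ∧
        ∀ x : Fin n → ℂ, (∀ i, x i ≠ 0) → (∀ g ∈ P, MvPolynomial.eval x g = 0) →
          ∏ i : Fin n, x i ^ a i = 1 :=
  Pool.Agent.ZP.full

end Pool.Agent.S00439
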