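import Pool.Statements.S01001
import Pool.Agent.Lib.MP_281388_al.Main

set_option autoImplicit false
open Pool Pool.MP_281388_al

namespace Pool.Agent.S01001

/-- There is N such that every finite group of order at least N whose Sylow 2-subgroups are trivial or non-cyclic has complete mappings f realising all four combinations of signs of f and of its orthomorphism x ↦ x·f(x). -/
theorem result :
    ∃ N : ℕ, ∀ (G : Type) [Group G] [Fintype G] [DecidableEq G],
      N ≤ Fintype.card G →
      (∀ P : Sylow 2 G, (P : Subgroup G) = ⊥ ∨ ¬ IsCyclic (P : Subgroup G)) →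
      ∀ a b : ℤˣ, ∃ f : Equiv.Perm G,
        ∃ hf : Function.Bijective (fun x : G => x * f x),
          Equiv.Perm.sign f = a ∧
          Equiv.Perm.sign (Equiv.ofBijective (fun x : G => x * f x) hf) = b := by
  obtain ⟨N, hN⟩ := Pool.Agent.Lib.MP_281388_al.count_bound
  refine ⟨N, ?_⟩
  intro G _ _ _ hG hsyl a b
  exact Pool.Agent.Lib.MP_281388_al.four_of_count (hN G hG hsyl) a b

end Pool.Agent.S01001
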