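import Pool.Statements.S01130
import Pool.Agent.Lib.MP_334071_al.Main

set_option autoImplicit false
open Pool Pool.MP_334071_al

namespace Pool.Agent.S01130

/-- The negation of the preceding statement: For all sufficiently large odd n and every rank m, each subgroup of the free Burnside group B(m,n) generated by two elements is isomorphic to the free product of two cyclic groups modulo all n-th powers. -/
theorem result :
    ¬ (∃ N : ℕ, ∀ n : ℕ, Odd n → N ≤ n → ∀ m : ℕ,
      ∀ x y : FreeGroup (Fin m) ⧸
          Subgroup.normalClosure (Set.range (fun g : FreeGroup (Fin m) => g ^ n)),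
        ∃ a b : ℕ,
          Nonempty
            (↥(Subgroup.closure
                ({x, y} : Set (FreeGroup (Fin m) ⧸
                  Subgroup.normalClosure (Set.range (fun g : FreeGroup (Fin m) => g ^ n)))))
              ≃* (FreeGroup (Fin 2) ⧸
                  Subgroup.normalClosure
                    (({FreeGroup.of (0 : Fin 2) ^ a, FreeGroup.of (1 : Fin 2) ^ b} :
                        Set (FreeGroup (Fin 2))) ∪
                      Set.range (fun g : FreeGroup (Fin 2) => g ^ n))))) := by
  rintro ⟨N, hN⟩
  have hodd : Odd (3 * (3 * (2 * N) + 1)) := ⟨9 * N + 1, by ring⟩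
  obtain ⟨x, y, hxy⟩ := Pool.Agent.MP334071.no_iso hodd rfl rfl
  obtain ⟨a, b, ⟨e⟩⟩ := hN (3 * (3 * (2 * N) + 1)) hodd (by omega) 2 x y
  exact (hxy a b).false e

end Pool.Agent.S01130
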