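import Pool.Statements.S02254
import Pool.Agent.Lib.MP_8fcf71_al.Limsup

set_option autoImplicit false
open scoped Pointwise
open Pool Pool.MP_8fcf71_al

namespace Pool.Agent.S02254

/-- The negation of the preceding statement: For every group G (Type 0) with a finite presentation and every finite generating set S, limsup_n ∣conj classes meeting ball_S(n)∣^{1/n} = limsup_n ∣ball_S(n)∣^{1/n} in ℝ. -/
theorem result :
    ¬ (∀ (G : Type) [Group G],
      (∃ (k : ℕ) (R : Set (FreeGroup (Fin k))), R.Finite ∧
        ∃ φ : FreeGroup (Fin k) →* G, Function.Surjective φ ∧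
          φ.ker = Subgroup.normalClosure R) →
      ∀ S : Set G, S.Finite → Subgroup.closure S = ⊤ →
        Filter.limsup
            (fun n : ℕ =>
              ((ConjClasses.mk '' (({1} ∪ S ∪ S⁻¹ : Set G) ^ n)).ncard : ℝ) ^ ((1 : ℝ) / n))
            Filter.atTop =
          Filter.limsup
            (fun n : ℕ =>
              ((({1} ∪ S ∪ S⁻¹ : Set G) ^ n).ncard : ℝ) ^ ((1 : ℝ) / n))
            Filter.atTop) := by
  intro H
  have key := H MP_8fcf71_al.Ex
    ⟨4, MP_8fcf71_al.relSet, MP_8fcf71_al.relSet_finite,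
      QuotientGroup.mk' (Subgroup.normalClosure MP_8fcf71_al.relSet),
      QuotientGroup.mk'_surjective _, QuotientGroup.ker_mk' _⟩
    (MP_8fcf71_al.genS (MP_8fcf71_al.gen 0) (MP_8fcf71_al.gen 1) (MP_8fcf71_al.gen 2)
      (MP_8fcf71_al.gen 3))
    (MP_8fcf71_al.genS_finite _ _ _ _) MP_8fcf71_al.closure_genS
  have hup := MP_8fcf71_al.upper
  have hlo := MP_8fcf71_al.lower
  rw [key] at hup
  linarith

end Pool.Agent.S02254
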