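import Pool.Statements.S02580
import Pool.Agent.Lib.MP_a4afae_al.Mean
import Pool.Agent.Lib.MP_a4afae_al.Growth

set_option autoImplicit false
open Pool Pool.MP_a4afae_al

namespace Pool.Agent.S02580

open Pool.Agent.MPa4afae in
theorem growth_bound (n : ℕ) :
    (1 / 2 : ℝ) * (17 / 16 : ℝ) ^ n ≤ (Module.finrank (ZMod 2)
      (MonoidAlgebra (ZMod 2) GG ⧸ (aug (ZMod 2) GG ^ (n + 1))) : ℝ) := by
  have h1 : D (n / 8) ≤ n := (D_le _).trans (Nat.mul_div_le n 8)
  have h2 : ((2 ^ (n / 8) : ℕ) : ℝ) ≤ (Module.finrank (ZMod 2)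
      (MonoidAlgebra (ZMod 2) GG ⧸ (aug (ZMod 2) GG ^ (n + 1))) : ℝ) := by
    exact_mod_cast finrank_ge (n / 8) n h1
  refine le_trans ?_ h2
  have h3 : (17 / 16 : ℝ) ^ n ≤ (17 / 16 : ℝ) ^ (8 * (n / 8 + 1)) :=
    pow_le_pow_right₀ (by norm_num) (by omega)
  have h4 : (17 / 16 : ℝ) ^ (8 * (n / 8 + 1)) ≤ 2 ^ (n / 8 + 1) := by
    rw [pow_mul]
    exact pow_le_pow_left₀ (by positivity) (by norm_num) _
  push_cast
  rw [pow_succ] at h4
  linarith

open Pool.Agent.MPa4afae in
theorem mean_exists : ∃ μ : Set GG → ℝ, (∀ S, 0 ≤ μ S) ∧ μ Set.univ = 1 ∧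
        (∀ A B : Set GG, Disjoint A B → μ (A ∪ B) = μ A + μ B) ∧
        ∀ (g : GG) (S : Set GG), μ ((fun x => g * x) ⁻¹' S) = μ S := by
  refine exists_mean tG uG ?_ (fun n => (UN n).subgroupOf _) ?_ ?_
  · have h := Subgroup.closure_closure_coe_preimage (k := ({tU, uU} : Set Eˣ))
    rw [← h]
    congr 1
    ext x
    simp only [Set.mem_insert_iff, Set.mem_singleton_iff, Set.mem_preimage]
    constructor
    · rintro (rfl | rfl)
      · exact Or.inl rfl
      · exact Or.inr rfl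
    · rintro (h | h)
      · exact Or.inl (Subtype.ext h)
      · exact Or.inr (Subtype.ext h)
  · intro n
    exact Finite.of_injective
      (fun x : (UN n).subgroupOf (Subgroup.closure ({tU, uU} : Set Eˣ)) =>
        (⟨((x : GG) : Eˣ), Subgroup.mem_subgroupOf.1 x.2⟩ : UN n)) (by
        intro x y hxy
        have h2 : ((x : GG) : Eˣ) = ((y : GG) : Eˣ) := Subtype.mk.inj hxy
        exact Subtype.ext (Subtype.ext h2))
  · intro n j hj
    rw [Subgroup.mem_subgroupOf]
    exact conj_mem n j hj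

/-- The negation of the preceding statement: For a finitely generated group G and prime p, if dim of F_p[G] modulo the (n+1)-th power of its augmentation ideal is at least C·c^n for some c>1, C>0, then G has no finitely additive left-invariant probability mean on its subsets. -/
theorem result :
    ¬ (∀ (G : Type) [Group G], Group.FG G → ∀ p : ℕ, p.Prime →
      (∃ c : ℝ, 1 < c ∧ ∃ C : ℝ, 0 < C ∧ ∀ n : ℕ,
        C * c ^ n ≤ (Module.finrank (ZMod p)
          (MonoidAlgebra (ZMod p) G ⧸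
            ((Submodule.span (ZMod p)
                (Set.range (fun g : G => MonoidAlgebra.of (ZMod p) G g - 1))) ^ (n + 1) :
              Submodule (ZMod p) (MonoidAlgebra (ZMod p) G))) : ℝ)) →
      ¬ ∃ μ : Set G → ℝ, (∀ S, 0 ≤ μ S) ∧ μ Set.univ = 1 ∧
        (∀ A B : Set G, Disjoint A B → μ (A ∪ B) = μ A + μ B) ∧
        ∀ (g : G) (S : Set G), μ ((fun x => g * x) ⁻¹' S) = μ S) := by
  intro h
  refine h Pool.Agent.MPa4afae.GG Pool.Agent.MPa4afae.GG_fg 2 Nat.prime_two
    ⟨17 / 16, by norm_num, 1 / 2, by norm_num, fun n => ?_⟩ mean_exists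
  exact growth_bound n

end Pool.Agent.S02580
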