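import Pool.Statements.S03041
import Pool.Agent.Lib.MP_c9c98b_al.PartA
import Pool.Agent.Lib.MP_c9c98b_al.PartB
import Pool.Agent.Lib.MP_c9c98b_al.PartC
import Pool.Agent.Lib.MP_c9c98b_al.PartD
import Pool.Agent.Lib.MP_c9c98b_al.PartE

/-!
Positive answer to Q1 of MP_c9c98b_al.

The group `G` is the restricted direct product of the generalised quaternion groups of order
`2 ^ (n + 2)`, for all `n`.

* Every central extension of a generalised quaternion group has commutator subgroup meeting the
  kernel trivially (`PartA`; vanishing of the Schur multiplier). Hence in a central extension `E`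
  of `G` with kernel `A` the subgroup `A ∩ γ₃(E)` is trivial (`PartB`), so `E` embeds in
  `G × E / γ₃(E)` and is residually nilpotent (`PartC`).
* The generalised quaternion group of order `4 * N` is a central quotient of the group `C₂ₙ ⋊ C₄`
  (order `8 * N`, action by inversion), which is itself a central quotient, with kernel of order two
  lying deep in the lower central series, of `C₄ₙ ⋊ C₄` (`PartE`). In the restricted direct product
  of the latter groups one amalgamates all these deep central involutions; the common involution lies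
  in every term of the lower central series and is not trivial (`PartD`).
-/

set_option autoImplicit false
open Pool Pool.MP_c9c98b_al

namespace Pool.Agent.S03041

/-- There is a group G all of whose central extensions are residually nilpotent, yet some central extension of some central extension of G is not residually nilpotent. -/
theorem result :
    ∃ (G : Type) (hG : Group G),
      (∀ (E : Type) (hE : Group E) (f : E →* G), Function.Surjective f →
        f.ker ≤ Subgroup.center E →
        ∀ g : E, g ≠ 1 →
          ∃ (H : Type) (hH : Group H) (φ : E →* H), Group.IsNilpotent H ∧ φ g ≠ 1) ∧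
      ∃ (E₁ : Type) (h₁ : Group E₁) (f₁ : E₁ →* G)
        (E₂ : Type) (h₂ : Group E₂) (f₂ : E₂ →* E₁),
        Function.Surjective f₁ ∧ f₁.ker ≤ Subgroup.center E₁ ∧
        Function.Surjective f₂ ∧ f₂.ker ≤ Subgroup.center E₂ ∧
        ∃ g : E₂, g ≠ 1 ∧
          ∀ (H : Type) (hH : Group H) (φ : E₂ →* H), Group.IsNilpotent H → φ g = 1 := by
  refine ⟨Pool.Agent.MP_c9c98b_al.FS Pool.Agent.MP_c9c98b_al.Qf, inferInstance, ?_, ?_⟩
  · intro E hE f hf hk g hg
    exact Pool.Agent.MP_c9c98b_al.resNilp f hf hk g hg
  · exact Pool.Agent.MP_c9c98b_al.amalgam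
      (P := fun n => Pool.Agent.MP_c9c98b_al.PP (2 ^ n))
      (Q := Pool.Agent.MP_c9c98b_al.Qf)
      (fun n => Pool.Agent.MP_c9c98b_al.qP (2 ^ n))
      (fun n => Pool.Agent.MP_c9c98b_al.qP_surj (2 ^ n))
      (fun n => Pool.Agent.MP_c9c98b_al.zP (2 ^ n))
      (fun n g => Pool.Agent.MP_c9c98b_al.zP_central (2 ^ n) g)
      (fun n => Pool.Agent.MP_c9c98b_al.zP_sq (2 ^ n))
      (fun n => Pool.Agent.MP_c9c98b_al.zP_ne_one (2 ^ n) (by positivity))
      (fun n => Pool.Agent.MP_c9c98b_al.qP_zP (2 ^ n))
      (fun n l g hl => Pool.Agent.MP_c9c98b_al.ker_comm (2 ^ n) l g hl)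
      (fun n => Pool.Agent.MP_c9c98b_al.zP_deep n)

end Pool.Agent.S03041
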