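import Pool.Statements.S03396
import Pool.Agent.Lib.MP_e763ea_al.Example

set_option autoImplicit false
open scoped Pointwise
open Pool Pool.MP_e763ea_al

namespace Pool.Agent.S03396

/-- The negation of the preceding statement: For any two finite semigroups, if there is a bijection between their families of nonempty subsets that preserves the subset product AB = {ab}, then the two semigroups are isomorphic. -/
theorem result :
    ¬ (∀ (S₁ S₂ : Type) [Semigroup S₁] [Semigroup S₂] [Finite S₁] [Finite S₂],
      (∃ f : {A : Set S₁ // A.Nonempty} ≃ {B : Set S₂ // B.Nonempty},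
        ∀ A B : {A : Set S₁ // A.Nonempty},
          (f ⟨A.1 * B.1, A.2.mul B.2⟩).1 = (f A).1 * (f B).1) →
      Nonempty (S₁ ≃* S₂)) := by
  intro h
  exact Pool.Agent.MPe763ea.not_iso
    (h (Pool.Agent.MPe763ea.Sg (Pool.Agent.MPe763ea.Tab Pool.Agent.MPe763ea.al))
      (Pool.Agent.MPe763ea.Sg (Pool.Agent.MPe763ea.Tab Pool.Agent.MPe763ea.be))
      Pool.Agent.MPe763ea.iso)

end Pool.Agent.S03396
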