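import Pool.Statements.S03478
import Pool.Agent.Lib.MP_ed1a61_al_Z.Main
import Pool.Agent.Lib.MP_ed1a61_al_Q.Glue

set_option autoImplicit false
open Pool Pool.MP_ed1a61_al

namespace Pool.Agent.S03478

/-- The negation of the preceding statement: For every group generated by a finite set S whose word metric satisfies the Gromov four-point condition for some δ, and every g in the commutator subgroup, cl(g^n)/n converges to a rational number, where cl is commutator length. -/
theorem result :
    ¬ (∀ (G : Type) [Group G] (S : Finset G) (d : G → G → ℕ) (cl : G → ℕ),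
      Subgroup.closure (S : Set G) = ⊤ →
      (∀ x y : G, d x y = sInf {n : ℕ | ∃ l : List G, l.length = n ∧
          (∀ s ∈ l, s ∈ S ∨ s⁻¹ ∈ S) ∧ l.prod = x⁻¹ * y}) →
      (∃ δ : ℕ, ∀ x y z w : G,
          d x z + d y w ≤ max (d x y + d z w) (d x w + d y z) + 2 * δ) →
      (∀ g : G, cl g = sInf {n : ℕ | ∃ l : List G, l.length = n ∧
          (∀ c ∈ l, c ∈ commutatorSet G) ∧ l.prod = g}) →
      ∀ g ∈ commutator G, ∃ q : ℚ,
        Filter.Tendsto (fun n : ℕ => (cl (g ^ n) : ℝ) / (n : ℝ)) Filter.atTop (nhds (q : ℝ))) := by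
  exact SclIrr.Z.main SclIrr.Q.glue.1 SclIrr.Q.glue.2.1 SclIrr.Q.glue.2.2

end Pool.Agent.S03478
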