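import Pool.Statements.S03552
import Pool.Agent.Lib.MP_f50e59_al.Final

set_option autoImplicit false
open Pool Pool.MP_f50e59_al

namespace Pool.Agent.S03552

/-- The negation of the preceding statement: In the free solvable group of rank r≥2 and derived length d≥2, a subgroup is a retract iff it is algebraically closed (finite systems with constants from H solvable in the group are solvable in H) iff it is verbally closed. -/
theorem result :
    ¬ (∀ (r d : ℕ), 2 ≤ r → 2 ≤ d →
    ∀ H : Subgroup (FreeGroup (Fin r) ⧸ derivedSeries (FreeGroup (Fin r)) d),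
      ((∃ f : (FreeGroup (Fin r) ⧸ derivedSeries (FreeGroup (Fin r)) d) →*
              (FreeGroup (Fin r) ⧸ derivedSeries (FreeGroup (Fin r)) d),
            (∀ g, f g ∈ H) ∧ ∀ h ∈ H, f h = h) ↔
        (∀ (n : ℕ) (S : Finset (FreeGroup (Fin n ⊕ H))),
          (∃ x : Fin n → (FreeGroup (Fin r) ⧸ derivedSeries (FreeGroup (Fin r)) d),
            ∀ s ∈ S, FreeGroup.lift (Sum.elim x
              (fun h : H => (h : FreeGroup (Fin r) ⧸ derivedSeries (FreeGroup (Fin r)) d))) s = 1) →
          ∃ x : Fin n → (FreeGroup (Fin r) ⧸ derivedSeries (FreeGroup (Fin r)) d),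
            (∀ i, x i ∈ H) ∧
            ∀ s ∈ S, FreeGroup.lift (Sum.elim x
              (fun h : H => (h : FreeGroup (Fin r) ⧸ derivedSeries (FreeGroup (Fin r)) d))) s = 1)) ∧
      ((∀ (n : ℕ) (S : Finset (FreeGroup (Fin n ⊕ H))),
          (∃ x : Fin n → (FreeGroup (Fin r) ⧸ derivedSeries (FreeGroup (Fin r)) d),
            ∀ s ∈ S, FreeGroup.lift (Sum.elim x
              (fun h : H => (h : FreeGroup (Fin r) ⧸ derivedSeries (FreeGroup (Fin r)) d))) s = 1) →
          ∃ x : Fin n → (FreeGroup (Fin r) ⧸ derivedSeries (FreeGroup (Fin r)) d),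
            (∀ i, x i ∈ H) ∧
            ∀ s ∈ S, FreeGroup.lift (Sum.elim x
              (fun h : H => (h : FreeGroup (Fin r) ⧸ derivedSeries (FreeGroup (Fin r)) d))) s = 1) ↔
        (∀ (n : ℕ) (w : FreeGroup (Fin n))
            (h : FreeGroup (Fin r) ⧸ derivedSeries (FreeGroup (Fin r)) d), h ∈ H →
          (∃ x : Fin n → (FreeGroup (Fin r) ⧸ derivedSeries (FreeGroup (Fin r)) d),
            FreeGroup.lift x w = h) →
          ∃ x : Fin n → (FreeGroup (Fin r) ⧸ derivedSeries (FreeGroup (Fin r)) d),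
            (∀ i, x i ∈ H) ∧ FreeGroup.lift x w = h))) := by
  intro hall
  obtain ⟨h1, h2⟩ := hall 7 2 (by norm_num) le_rfl Pool.Agent.VC.KK
  obtain ⟨f, hf, hf2⟩ := h1.mpr (h2.mpr Pool.Agent.VC.verbally_closed)
  exact Pool.Agent.VC.no_retract f hf hf2

end Pool.Agent.S03552
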