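import Pool.Statements.S03671
import Pool.Agent.Lib.MP_018119_an_FB.Final

set_option autoImplicit false
open Pool Pool.MP_018119_an

namespace Pool.Agent.S03671

/-- Every Jordan arc or Jordan curve C in the plane that is conformally non-removable (some non-affine homeomorphism of ℂ is holomorphic off C) contains a nonempty compact perfect totally disconnected set that is also conformally non-removable. -/
theorem result :
    ∀ C : Set ℂ,
      ((∃ γ : ℝ → ℂ, ContinuousOn γ (Set.Icc 0 1) ∧ Set.InjOn γ (Set.Icc 0 1) ∧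
          C = γ '' Set.Icc 0 1) ∨
        (∃ γ : Circle → ℂ, Continuous γ ∧ Function.Injective γ ∧ C = Set.range γ)) →
      (∃ f : ℂ ≃ₜ ℂ, DifferentiableOn ℂ (⇑f) Cᶜ ∧ ¬ ∃ a b : ℂ, ∀ z, f z = a * z + b) →
      ∃ K : Set ℂ, K ⊆ C ∧ IsCompact K ∧ Perfect K ∧ IsTotallyDisconnected K ∧ K.Nonempty ∧
        ∃ f : ℂ ≃ₜ ℂ, DifferentiableOn ℂ (⇑f) Kᶜ ∧ ¬ ∃ a b : ℂ, ∀ z, f z = a * z + b :=
  Pool.Agent.FB018.s03671_of_free Pool.Agent.FB018.freeInt

end Pool.Agent.S03671
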