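import Pool.Statements.S04050
import Pool.Agent.Lib.MP_21f624_an.Arc

set_option autoImplicit false
open Pool Pool.MP_21f624_an

namespace Pool.Agent.S04050

open Pool.Agent.MP_21f624_an

theorem differentiable_eval (p : MvPolynomial (Fin 4) ℂ) :
    Differentiable ℂ (fun x : ℂ × ℂ => MvPolynomial.eval ![x.1, x.2, 0, 0] p) := by
  induction p using MvPolynomial.induction_on with
  | C a => simp
  | add p q hp hq =>
    simp only [map_add]
    exact hp.add hq
  | mul_X p j hp =>
    have hj : Differentiable ℂ (fun x : ℂ × ℂ => (![x.1, x.2, 0, 0] : Fin 4 → ℂ) j) := by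
      fin_cases j
      · exact differentiable_fst
      · exact differentiable_snd
      · exact differentiable_const 0
      · exact differentiable_const 0
    simp only [map_mul, MvPolynomial.eval_X]
    exact hp.mul hj

/-- The negation of the preceding statement: For n≥2, if γ is a Jordan arc in ℂ^n whose every coordinate projection has planar measure zero, then every continuous function on γ can be uniformly approximated on γ by polynomials in n complex variables. -/
theorem result :
    ¬ (∀ n : ℕ, 2 ≤ n →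
      ∀ g : ℝ → (Fin n → ℂ),
        ContinuousOn g (Set.Icc (0:ℝ) 1) →
        Set.InjOn g (Set.Icc (0:ℝ) 1) →
        (∀ j : Fin n,
          (MeasureTheory.volume : MeasureTheory.Measure ℂ)
            ((fun z : Fin n → ℂ => z j) '' (g '' Set.Icc (0:ℝ) 1)) = 0) →
        ∀ f : (Fin n → ℂ) → ℂ,
          ContinuousOn f (g '' Set.Icc (0:ℝ) 1) →
          ∀ ε : ℝ, 0 < ε →
            ∃ p : MvPolynomial (Fin n) ℂ,
              ∀ z ∈ g '' Set.Icc (0:ℝ) 1, ‖f z - MvPolynomial.eval z p‖ < ε) := by
  intro H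
  obtain ⟨g, hgc, hgi, hvol, hgK⟩ := exists_arc
  -- the continuous function, equal to `1 / z 0` on `K`
  let f : (Fin 4 → ℂ) → ℂ := fun z =>
    (starRingEnd ℂ) (z 0) / ((max (‖z 0‖ ^ 2) (1 / 4) : ℝ) : ℂ)
  have hf : Continuous f := by
    have h0 : Continuous fun z : Fin 4 → ℂ => z 0 := continuous_apply 0
    refine (Complex.continuous_conj.comp h0).div ?_ ?_
    · exact Complex.continuous_ofReal.comp ((h0.norm.pow 2).max continuous_const)
    · intro z h
      have h1 : (max (‖z 0‖ ^ 2) (1 / 4) : ℝ) = 0 := by exact_mod_cast h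
      have h2 : (1 / 4 : ℝ) ≤ max (‖z 0‖ ^ 2) (1 / 4) := le_max_right _ _
      linarith
  obtain ⟨p, hp⟩ := H 4 (by norm_num) g hgc hgi hvol f hf.continuousOn (1 / 3) (by norm_num)
  -- the polynomial `1 - z P` is small on `K` but is `1` at the origin
  let q : ℂ × ℂ → ℂ := fun x => 1 - x.1 * MvPolynomial.eval ![x.1, x.2, 0, 0] p
  have hq : Differentiable ℂ q :=
    (differentiable_const 1).sub (differentiable_fst.mul (differentiable_eval p))
  have hqK : ∀ x ∈ K, ‖q x‖ ≤ 1 / 2 := by
    intro x hx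
    have h1 := hp _ (hgK x hx)
    obtain ⟨hn1, hn2⟩ := norm_fst_K hx
    have hne : x.1 ≠ 0 := by
      intro h
      rw [h, norm_zero] at hn1
      linarith
    have hfx : x.1 * f ![x.1, x.2, 0, 0] = 1 := by
      have h2 : (1 / 4 : ℝ) ≤ ‖x.1‖ ^ 2 := by nlinarith
      have h3 : ((max (‖x.1‖ ^ 2) (1 / 4) : ℝ) : ℂ) = x.1 * (starRingEnd ℂ) x.1 := by
        rw [max_eq_left h2, Complex.mul_conj, Complex.normSq_eq_norm_sq]
      simp only [f, Matrix.cons_val_zero]
      rw [h3]
      have h4 : (starRingEnd ℂ) x.1 ≠ 0 := by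
        intro h
        exact hne ((map_eq_zero _).1 h)
      field_simp
    have hqx : q x = x.1 * (f ![x.1, x.2, 0, 0] - MvPolynomial.eval ![x.1, x.2, 0, 0] p) := by
      simp only [q]
      rw [mul_sub, hfx]
    rw [hqx, norm_mul]
    calc ‖x.1‖ * ‖f ![x.1, x.2, 0, 0] - MvPolynomial.eval ![x.1, x.2, 0, 0] p‖
        ≤ (3 / 2) * (1 / 3) := mul_le_mul hn2 h1.le (norm_nonneg _) (by norm_num)
      _ = 1 / 2 := by norm_num
  have h := hull_K q hq (1 / 2) hqK
  simp only [q, zero_mul, sub_zero, norm_one] at h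
  norm_num at h

end Pool.Agent.S04050
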