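import Pool.Statements.S04563

/-!
Proof that every locally surjunctive monoid is surjunctive.

Idea: let tau be an injective cellular automaton over M with memory set S. By compactness there is
a finite set F of M such that the values of tau x on F determine x 1. Let N be the submonoid
generated by S and F. The cellular automaton tau' over N with the same local rule is injective
(any two configurations over N extend to configurations over M, and the equivariance of tau'
under right translations gives the other coordinates), hence it is surjective because N is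
finitely generated. Its inverse commutes with right translations by N, and this allows one to
solve tau x = z over M by solving it on each orbit N m separately.
-/

set_option autoImplicit false
open Pool Pool.MP_498e64_an

namespace Pool.Agent.S04563

/-- Compactness: for an injective cellular automaton over a monoid there is a finite set `F` such
that the values on `F` of the image determine the value at `1` of the configuration. -/
theorem exists_finset_determines {M : Type} [Monoid M] {A : Type} [Fintype A] (S : Finset M)
    (μ : (↥S → A) → A)
    (hinj : Function.Injective (fun (x : M → A) (m : M) => μ (fun s => x (s.1 * m)))) :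
    ∃ F : Finset M, ∀ x y : M → A,
      (∀ f ∈ F, μ (fun s => x (s.1 * f)) = μ (fun s => y (s.1 * f))) → x 1 = y 1 := by
  classical
  by_contra hcon
  push Not at hcon
  let _ : TopologicalSpace A := ⊥
  have _ : DiscreteTopology A := ⟨rfl⟩
  let K : Finset M → Set ((M → A) × (M → A)) := fun F =>
    {p | (∀ f ∈ F, μ (fun s => p.1 (s.1 * f)) = μ (fun s => p.2 (s.1 * f))) ∧ p.1 1 ≠ p.2 1}
  have hcont1 : ∀ f : M, Continuous (fun x : M → A => μ (fun s => x (s.1 * f))) := by
    intro f
    have h1 : Continuous μ := continuous_of_discreteTopology
    exact h1.comp (continuous_pi fun s => continuous_apply _)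
  have hclosed : ∀ F, IsClosed (K F) := by
    intro F
    have h2 : K F = (⋂ f ∈ F, {p : (M → A) × (M → A) |
        μ (fun s => p.1 (s.1 * f)) = μ (fun s => p.2 (s.1 * f))}) ∩
        {p : (M → A) × (M → A) | p.1 1 ≠ p.2 1} := by
      ext p
      simp [K]
    rw [h2]
    apply IsClosed.inter
    · apply isClosed_biInter
      intro f _
      exact isClosed_eq ((hcont1 f).comp continuous_fst) ((hcont1 f).comp continuous_snd)
    · have h3 : Continuous (fun p : (M → A) × (M → A) => ((p.1 1, p.2 1) : A × A)) :=
        ((continuous_apply 1).comp continuous_fst).prodMk ((continuous_apply 1).comp continuous_snd)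
      exact (isClosed_discrete {q : A × A | q.1 ≠ q.2}).preimage h3
  have hne : ∀ F, (K F).Nonempty := by
    intro F
    obtain ⟨x, y, hxy, h1⟩ := hcon F
    exact ⟨(x, y), hxy, h1⟩
  have hdir : Directed (· ⊇ ·) K := by
    intro F G
    refine ⟨F ∪ G, ?_, ?_⟩
    · intro p hp
      exact ⟨fun f hf => hp.1 f (Finset.mem_union_left _ hf), hp.2⟩
    · intro p hp
      exact ⟨fun f hf => hp.1 f (Finset.mem_union_right _ hf), hp.2⟩
  obtain ⟨p, hp⟩ := IsCompact.nonempty_iInter_of_directed_nonempty_isCompact_isClosed K hdir hne
    (fun F => (hclosed F).isCompact) hclosed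
  rw [Set.mem_iInter] at hp
  have h4 : p.1 = p.2 := by
    apply hinj
    funext m
    exact (hp {m}).1 m (Finset.mem_singleton_self m)
  exact (hp ∅).2 (by rw [h4])

/-- For every monoid M: if every finitely generated submonoid has all injective finite-alphabet cellular automata surjective, then every injective finite-alphabet cellular automaton over M itself is surjective. -/
theorem result :
    ∀ (M : Type) [Monoid M],
      (∀ N : Submonoid M, N.FG →
        ∀ (A : Type) [Fintype A] (S : Finset N) (μ : (↥S → A) → A),
          Function.Injective (fun (x : N → A) (m : N) => μ (fun s => x (s.1 * m))) →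
          Function.Surjective (fun (x : N → A) (m : N) => μ (fun s => x (s.1 * m)))) →
      ∀ (A : Type) [Fintype A] (S : Finset M) (μ : (↥S → A) → A),
        Function.Injective (fun (x : M → A) (m : M) => μ (fun s => x (s.1 * m))) →
        Function.Surjective (fun (x : M → A) (m : M) => μ (fun s => x (s.1 * m))) := by
  intro M _ hM A _ S μ hinj z0
  classical
  obtain ⟨F, hF⟩ := exists_finset_determines S μ hinj
  -- the finitely generated submonoid
  let N : Submonoid M := Submonoid.closure ((S ∪ F : Finset M) : Set M)
  have hNfg : N.FG := ⟨S ∪ F, rfl⟩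
  have hSN : ∀ s ∈ S, s ∈ N := fun s hs =>
    Submonoid.subset_closure (by simp [hs])
  have hFN : ∀ f ∈ F, f ∈ N := fun f hf =>
    Submonoid.subset_closure (by simp [hf])
  -- the memory set inside `N`
  let ι : S → N := fun s => ⟨s.1, hSN s.1 s.2⟩
  let S' : Finset N := Finset.univ.image ι
  have hι : ∀ s : S, ι s ∈ S' := fun s => Finset.mem_image_of_mem _ (Finset.mem_univ s)
  let μ' : (↥S' → A) → A := fun g => μ (fun s => g ⟨ι s, hι s⟩)
  let τ' : (N → A) → (N → A) := fun x m => μ' (fun s => x (s.1 * m))
  have hτ' : ∀ (x : N → A) (m : N), τ' x m = μ (fun s => x (ι s * m)) := fun x m => rfl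
  -- translation equivariance
  have hequiv : ∀ (x : N → A) (n m : N), τ' (fun k => x (k * n)) m = τ' x (m * n) := by
    intro x n m
    show μ (fun s => x (ι s * m * n)) = μ (fun s => x (ι s * (m * n)))
    simp only [mul_assoc]
  -- value at 1 is determined
  have hone : ∀ x y : N → A, τ' x = τ' y → x 1 = y 1 := by
    intro x y hxy
    let ext : (N → A) → (M → A) := fun u m => if h : m ∈ N then u ⟨m, h⟩ else u 1
    have hext : ∀ (u : N → A) (m : M) (h : m ∈ N), ext u m = u ⟨m, h⟩ := by
      intro u m h
      simp [ext, h]
    have h1 : ∀ f ∈ F, μ (fun s => ext x (s.1 * f)) = μ (fun s => ext y (s.1 * f)) := by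
      intro f hf
      have h2 : ∀ u : N → A, μ (fun s => ext u (s.1 * f)) = τ' u ⟨f, hFN f hf⟩ := by
        intro u
        rw [hτ']
        congr 1
        funext s
        exact hext u _ (N.mul_mem (hSN s.1 s.2) (hFN f hf))
      rw [h2, h2, hxy]
    have h3 := hF (ext x) (ext y) h1
    rw [hext x 1 N.one_mem, hext y 1 N.one_mem] at h3
    exact h3
  have hinj' : Function.Injective τ' := by
    intro x y hxy
    funext n
    have h1 : τ' (fun k => x (k * n)) = τ' (fun k => y (k * n)) := by
      funext m
      rw [hequiv, hequiv, hxy]
    have h2 := hone (fun k => x (k * n)) (fun k => y (k * n)) h1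
    simpa using h2
  have hsurj' : Function.Surjective τ' := hM N hNfg A S' μ' hinj'
  -- solve on each orbit
  let σ : (N → A) → (N → A) := Function.surjInv hsurj'
  have hσ : ∀ z, τ' (σ z) = z := Function.surjInv_eq hsurj'
  let orb : M → (N → A) := fun m n => z0 (n.1 * m)
  have hshift : ∀ (n : N) (m : M), σ (orb (n.1 * m)) = fun k => σ (orb m) (k * n) := by
    intro n m
    apply hinj'
    rw [hσ]
    funext k
    rw [hequiv, hσ]
    simp [orb, mul_assoc]
  refine ⟨fun m => σ (orb m) 1, ?_⟩
  funext m
  have h1 : ∀ s : S, σ (orb (s.1 * m)) 1 = σ (orb m) (ι s * 1) := by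
    intro s
    have := congrFun (hshift (ι s) m) 1
    simpa [ι] using this
  show μ (fun s => σ (orb (s.1 * m)) 1) = z0 m
  have h2 : μ (fun s => σ (orb (s.1 * m)) 1) = τ' (σ (orb m)) 1 := by
    rw [hτ']
    congr 1
    funext s
    exact h1 s
  rw [h2, hσ]
  simp [orb]

end Pool.Agent.S04563
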