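import Pool.Statements.S04683
import Mathlib
import Pool.Agent.Lib.MP_535d13_an.Uniq
import Pool.Agent.Lib.MP_535d13_an.Borel
import Pool.Agent.Lib.MP_535d13_an.Mass

set_option autoImplicit false
open Filter Topology
open scoped ENNReal
open Pool Pool.MP_535d13_an

namespace Pool.Agent.S04683

open MeasureTheory Pool.Agent.MP_535d13_an

/-- translation of the coefficients -/
lemma uniq_translate (t : ℝ) (nk : ℕ → ℕ) (hnk : Tendsto nk atTop atTop) (hpos : ∀ k, 0 < nk k)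
    (K : Set ℝ) (hK : ∀ x : ℝ, (∃ k, Real.sin (2 * Real.pi * (nk k : ℝ) * (x - t)) < 0) → x ∉ K)
    (c : ℤ → ℂ)
    (h : ∀ x : ℝ, (∀ m : ℤ, x + (m:ℝ) ∉ K) →
            Tendsto (fun N : ℕ => ∑ n ∈ Finset.Icc (-(N:ℤ)) (N:ℤ),
              c n * Complex.exp (2 * (Real.pi:ℂ) * Complex.I * (n:ℂ) * (x:ℂ))) atTop (𝓝 0)) :
    ∀ n : ℤ, c n = 0 := by
  have key := uniqueness (fun n => c n * ex n t) nk hnk hpos (by
    rintro x ⟨k, hk⟩
    have h1 := h (x + t) (by
      intro m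
      apply hK
      refine ⟨k, ?_⟩
      have e : 2 * Real.pi * (nk k : ℝ) * (x + t + m - t)
          = 2 * Real.pi * (nk k : ℝ) * x + (((nk k : ℤ) * m : ℤ) : ℝ) * (2 * Real.pi) := by
        push_cast; ring
      rw [e, Real.sin_add_int_mul_two_pi]
      exact hk)
    refine h1.congr (fun N => ?_)
    rw [← sum_Icc_eq]
    refine Finset.sum_congr rfl (fun n _ => ?_)
    have h2 := ex_add n x t
    have h3 : Complex.exp (2 * (Real.pi:ℂ) * Complex.I * (n:ℂ) * ((x + t : ℝ) : ℂ)) = ex n (x + t) :=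
      rfl
    rw [h3, h2]
    ring)
  intro n
  have h1 := key n
  rcases mul_eq_zero.mp h1 with h2 | h2
  · exact h2
  · have := norm_ex n t
    rw [h2, norm_zero] at this
    exact absurd this zero_ne_one

/-- For every gauge φ (increasing, φ(0)=0, positive, continuous at 0) with r/φ(r)→0, there is a closed set of uniqueness K⊆[0,1] on the circle whose set of absolutely normal points has positive φ-Hausdorff measure. -/
theorem result :
    ∀ φ : ℝ → ℝ, MonotoneOn φ (Set.Ici 0) → φ 0 = 0 → (∀ r : ℝ, 0 < r → 0 < φ r) →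
      Tendsto φ (𝓝[>] (0:ℝ)) (𝓝 0) →
      Tendsto (fun r : ℝ => r / φ r) (𝓝[>] (0:ℝ)) (𝓝 0) →
      ∃ K : Set ℝ, IsClosed K ∧ K ⊆ Set.Icc (0:ℝ) 1 ∧
        (∀ c : ℤ → ℂ,
          (∀ x : ℝ, (∀ m : ℤ, x + (m:ℝ) ∉ K) →
            Tendsto (fun N : ℕ => ∑ n ∈ Finset.Icc (-(N:ℤ)) (N:ℤ),
              c n * Complex.exp (2 * (Real.pi:ℂ) * Complex.I * (n:ℂ) * (x:ℂ))) atTop (𝓝 0)) →
          ∀ n : ℤ, c n = 0) ∧
        0 < MeasureTheory.Measure.mkMetric (fun r : ℝ≥0∞ => ENNReal.ofReal (φ r.toReal))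
          (K ∩ {x : ℝ | ∀ b : ℕ, 2 ≤ b → ∀ k : ℕ, ∀ w : Fin k → ℤ,
            (∀ j : Fin k, 0 ≤ w j ∧ w j < (b:ℤ)) →
            Tendsto (fun N : ℕ =>
              ((((Finset.range N).filter (fun i : ℕ =>
                ∀ j : Fin k, ⌊x * (b:ℝ) ^ (i + j.val + 1)⌋ % (b:ℤ) = w j)).card : ℝ) / (N:ℝ)))
              atTop (𝓝 (1 / (b:ℝ) ^ k))}) := by
  intro φ _hmono _h0 hpos _hcont hlim
  obtain ⟨L, hL0, hL, hdvd, hL2, hφ⟩ := exists_scales φ hpos hlim
  -- the null set of non-normal numbers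
  have hnull := normal_ae
  rw [ae_iff] at hnull
  set A : Set ℝ := {x : ℝ | ∀ b : ℕ, 2 ≤ b → ∀ k : ℕ, ∀ w : Fin k → ℤ,
            (∀ j : Fin k, 0 ≤ w j ∧ w j < (b:ℤ)) →
            Tendsto (fun N : ℕ =>
              ((((Finset.range N).filter (fun i : ℕ =>
                ∀ j : Fin k, ⌊x * (b:ℝ) ^ (i + j.val + 1)⌋ % (b:ℤ) = w j)).card : ℝ) / (N:ℝ)))
              atTop (𝓝 (1 / (b:ℝ) ^ k))} with hA
  obtain ⟨Nn, hNn1, hNn2, hNn3⟩ := exists_measurable_superset_of_null hnull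
  have hAN : ∀ x, x ∉ Nn → x ∈ A := by
    intro x hx
    by_contra hxA
    exact hx (hNn1 hxA)
  -- Fubini
  have hTm := TT_measurable L
  have hae1 : ∀ᵐ s ∂mu0, ∀ᵐ t : ℝ, TT L s + t ∉ Nn := by
    apply Eventually.of_forall
    intro s
    have h1 : ∀ᵐ y : ℝ, y ∉ Nn := measure_eq_zero_iff_ae_notMem.mp hNn3
    exact (measurePreserving_add_left volume (TT L s)).quasiMeasurePreserving.ae h1
  have hmeas : MeasurableSet {p : ℝ × ℝ | TT L p.1 + p.2 ∉ Nn} := by
    have : Measurable (fun p : ℝ × ℝ => TT L p.1 + p.2) :=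
      (hTm.comp measurable_fst).add measurable_snd
    exact (this hNn2).compl
  have : SFinite mu0 := by unfold mu0; infer_instance
  have hae2 : ∀ᵐ t : ℝ, ∀ᵐ s ∂mu0, TT L s + t ∉ Nn :=
    (Measure.ae_ae_comm hmeas).mp hae1
  obtain ⟨t, ht, hts⟩ : ∃ t ∈ Set.Icc (0 : ℝ) (1 / 2), ∀ᵐ s ∂mu0, TT L s + t ∉ Nn := by
    have h1 : ∀ᵐ t ∂(volume.restrict (Set.Icc (0 : ℝ) (1 / 2))), t ∈ Set.Icc (0 : ℝ) (1 / 2) ∧
        ∀ᵐ s ∂mu0, TT L s + t ∉ Nn :=
      (ae_restrict_mem measurableSet_Icc).and (ae_restrict_of_ae hae2)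
    have : (ae (volume.restrict (Set.Icc (0 : ℝ) (1 / 2)))).NeBot := by
      rw [ae_neBot]
      intro h
      have := congrArg (fun μ => μ (Set.Icc (0 : ℝ) (1 / 2))) h
      simp at this
    obtain ⟨t, h2, h3⟩ := h1.exists
    exact ⟨t, h2, h3⟩
  -- the set
  set nk : ℕ → ℕ := fun k => 2 ^ k * L k with hnk
  have hnkpos : ∀ k, 0 < nk k := fun k => by
    have := hL k
    simp only [hnk]
    positivity
  have hnklim : Tendsto nk atTop atTop := by
    apply tendsto_atTop_mono (f := fun k => k) (fun k => ?_) tendsto_id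
    simp only [hnk]
    have h1 : k < 2 ^ k := Nat.lt_two_pow_self
    have h2 := hL k
    nlinarith
  set K : Set ℝ := Set.Icc (0 : ℝ) 1 ∩
    ⋂ k, {x : ℝ | 0 ≤ Real.sin (2 * Real.pi * (nk k : ℝ) * (x - t))} with hK
  have hKclosed : IsClosed K := by
    apply isClosed_Icc.inter
    apply isClosed_iInter
    intro k
    apply isClosed_le continuous_const
    fun_prop
  refine ⟨K, hKclosed, Set.inter_subset_left, ?_, ?_⟩
  · intro c hc
    apply uniq_translate t nk hnklim hnkpos K _ c hc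
    rintro x ⟨k, hk⟩ hxK
    have h1 := Set.mem_iInter.mp hxK.2 k
    simp only [Set.mem_ofPred_eq] at h1
    linarith
  · -- positivity of the measure
    have hle := muT_le_mkMetric φ L hL0 hL hL2 hφ t
    have hsub : K ∩ Nnᶜ ⊆ K ∩ A := fun x hx => ⟨hx.1, hAN x hx.2⟩
    have hTt : Measurable (fun s => TT L s + t) := hTm.add_const t
    have hE : MeasurableSet (K ∩ Nnᶜ) := hKclosed.measurableSet.inter hNn2.compl
    have h1 : muT L t (K ∩ Nnᶜ) = 1 := by
      unfold muT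
      rw [Measure.map_apply hTt hE]
      have h2 : ∀ᵐ s ∂mu0, s ∈ (fun s => TT L s + t) ⁻¹' (K ∩ Nnᶜ) := by
        have h3 : ∀ᵐ s ∂mu0, s ∈ Set.Ico (0 : ℝ) 1 := ae_restrict_mem measurableSet_Ico
        filter_upwards [h3, hts] with s hs hs2
        have hb := TT_bounds L hL hL0 hs.1 hs.2
        refine ⟨⟨⟨by linarith [hb.1, ht.1], by linarith [hb.2, ht.2]⟩, ?_⟩, hs2⟩
        rw [Set.mem_iInter]
        intro k
        simp only [Set.mem_ofPred_eq]
        rw [add_sub_cancel_right]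
        exact TT_sin L hL hdvd hs.1 hs.2.le k
      have h5 : mu0 ((fun s => TT L s + t) ⁻¹' (K ∩ Nnᶜ)) = mu0 Set.univ :=
        measure_congr (eventuallyEq_univ.mpr h2)
      rw [h5]
      simp [mu0]
    have h4 : muT L t (K ∩ Nnᶜ) ≤ Measure.mkMetric (fun r : ℝ≥0∞ => ENNReal.ofReal (φ r.toReal))
        (K ∩ A) := (measure_mono hsub).trans (hle _)
    rw [h1] at h4
    exact lt_of_lt_of_le one_pos h4

end Pool.Agent.S04683
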