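import Pool.Statements.S04718
import Mathlib
import Pool.Agent.Lib.MP_565a2b_an.UniquePredual
import Pool.Agent.Lib.MP_565a2b_an.Space
import Pool.Agent.Lib.MP_565a2b_an.Lower
import Pool.Agent.Lib.MP_565a2b_an.Upper

set_option autoImplicit false
open Pool Pool.MP_565a2b_an

namespace Pool.Agent.S04718

open Filter Topology Pool.Agent.MP_565a2b_an
open scoped ZeroAtInfty ComplexConjugate

/-- coordinate functionals as continuous functionals -/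
noncomputable def CC (n : ℕ) : XX →L[ℝ] ℝ :=
  (cc n).mkContinuous 1 (fun x => by
    rw [one_mul, Real.norm_eq_abs]
    exact (cc_le_sN n x).trans (sN_le_norm x))

lemma CC_apply (n : ℕ) (x : XX) : CC n x = cc n x := rfl

lemma norm_xs (n : ℕ) : ‖xs n‖ ≤ 1 := by
  refine norm_le' (fun k => ?_)
  by_cases h : k = n
  · subst h
    unfold pN
    rw [cc_xs_self, one_smul, sub_self]
    have : sN (0 : XX) = 0 := by
      have := sN_smul 0 (0 : XX)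
      simpa using this
    rw [this]
    simp
  · have h1 := sN_sub_smul_xs k (xs n)
    have h2 := abs_cc_xs k n h
    have h3 := sN_xs n
    unfold pN
    linarith

lemma exposed (n : ℕ) (z : XX) : |CC n z| + (1 / 102) * ‖z - CC n z • xs n‖ ≤ ‖z‖ := by
  rw [CC_apply]
  refine le_trans ?_ (pN_le_norm n z)
  have := norm_le_sN (z - cc n z • xs n)
  unfold pN
  linarith

lemma dense_xs (f : XX →L[ℝ] ℝ) (h : ∀ n, f (xs n) = 0) : f = 0 := by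
  have h1 : ∀ n, (1 - uu n) * aa f n + f (em (vv n)) = 0 := by
    intro n
    have := h n
    rw [xs, map_add, map_smul, smul_eq_mul] at this
    exact this
  have haa : Tendsto (fun n => |aa f n|) atTop (𝓝 0) := (summable_aa f).tendsto_atTop_zero
  have hb : ∀ n, |f (em (vv n))| ≤ (3 / 2) * |aa f n| := by
    intro n
    have e : f (em (vv n)) = -((1 - uu n) * aa f n) := by have := h1 n; linarith
    rw [e, abs_neg, abs_mul]
    have h2 := abs_uu n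
    have h3 : |1 - uu n| ≤ 3 / 2 := by
      have := abs_sub 1 (uu n)
      rw [abs_one] at this
      linarith
    exact mul_le_mul_of_nonneg_right h3 (abs_nonneg _)
  have hlim : Tendsto (fun n => (3 / 2) * |aa f n|) atTop (𝓝 0) := by
    have := haa.const_mul (3 / 2 : ℝ)
    simpa using this
  have hE : f (em (1 / 2)) = 0 := by
    have h2 : Tendsto (fun k : ℕ => 2 * k) atTop atTop :=
      tendsto_atTop_mono (fun k => by simp only [id]; omega) tendsto_id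
    have h3 := ge_of_tendsto' (hlim.comp h2) (b := |f (em (1 / 2))|) (fun k => by
      have := hb (2 * k)
      rw [vv, if_pos (even_two_mul k)] at this
      exact this)
    exact abs_nonpos_iff.mp h3
  have hO : f (em (Complex.I / 2)) = 0 := by
    have h2 : Tendsto (fun k : ℕ => 2 * k + 1) atTop atTop :=
      tendsto_atTop_mono (fun k => by simp only [id]; omega) tendsto_id
    have h3 := ge_of_tendsto' (hlim.comp h2) (b := |f (em (Complex.I / 2))|) (fun k => by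
      have := hb (2 * k + 1)
      rw [vv, if_neg (by simp)] at this
      exact this)
    exact abs_nonpos_iff.mp h3
  have hem : ∀ v : ℂ, f (em v) = 0 := by
    intro v
    have e : v = (2 * v.re) • (1 / 2 : ℂ) + (2 * v.im) • (Complex.I / 2) := by
      apply Complex.ext <;> simp <;> ring
    rw [e, map_add, map_smul, map_smul, map_add, map_smul, map_smul, hE, hO]
    simp
  have ha0 : ∀ n, aa f n = 0 := by
    intro n
    have h2 := h1 n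
    rw [hem, add_zero] at h2
    have h3 := abs_uu n
    have h4 := (abs_le.mp h3).2
    rcases mul_eq_zero.mp h2 with h5 | h5
    · linarith
    · exact h5
  ext x
  have h2 := (hasSum_cc f x).tsum_eq
  simp only [ha0, zero_mul, tsum_zero] at h2
  have h3 : GG f x.2 = 0 := by
    unfold GG
    simp [ha0, hem]
  rw [h3] at h2
  show f x = 0
  linarith

lemma norm_normalize (S : (XX →L[ℝ] ℝ) →L[ℝ] XX →L[ℝ] ℝ) (h : 0 < ‖S‖) :
    ‖(‖S‖)⁻¹ • S‖ = 1 := by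
  have hle : ∀ (c : ℝ) (R : (XX →L[ℝ] ℝ) →L[ℝ] XX →L[ℝ] ℝ), ‖c • R‖ ≤ |c| * ‖R‖ := by
    intro c R
    refine ContinuousLinearMap.opNorm_le_bound _ (by positivity) (fun f => ?_)
    rw [smul_apply, norm_smul, Real.norm_eq_abs, mul_assoc]
    exact mul_le_mul_of_nonneg_left (R.le_opNorm f) (abs_nonneg _)
  apply le_antisymm
  · refine (hle _ _).trans ?_
    rw [abs_of_pos (inv_pos.mpr h), inv_mul_cancel₀ h.ne']
  · have h1 := hle (‖S‖) ((‖S‖)⁻¹ • S)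
    rw [smul_smul, mul_inv_cancel₀ h.ne', one_smul, abs_of_pos h] at h1
    by_contra hcon
    push Not at hcon
    nlinarith

lemma numIndex_ne :
    sInf {s : ℝ | ∃ T : (XX →L[ℝ] ℝ) →L[ℝ] (XX →L[ℝ] ℝ), ‖T‖ = 1 ∧
          s = sSup {r : ℝ | ∃ (x : XX →L[ℝ] ℝ) (f : (XX →L[ℝ] ℝ) →L[ℝ] ℝ),
            ‖x‖ = 1 ∧ ‖f‖ = 1 ∧ f x = 1 ∧ r = ‖f (T x)‖}}
        < sInf {s : ℝ | ∃ T : XX →L[ℝ] XX, ‖T‖ = 1 ∧
          s = sSup {r : ℝ | ∃ (x : XX) (f : XX →L[ℝ] ℝ),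
            ‖x‖ = 1 ∧ ‖f‖ = 1 ∧ f x = 1 ∧ r = ‖f (T x)‖}} := by
  have hup : sInf {s : ℝ | ∃ T : (XX →L[ℝ] ℝ) →L[ℝ] (XX →L[ℝ] ℝ), ‖T‖ = 1 ∧
          s = sSup {r : ℝ | ∃ (x : XX →L[ℝ] ℝ) (f : (XX →L[ℝ] ℝ) →L[ℝ] ℝ),
            ‖x‖ = 1 ∧ ‖f‖ = 1 ∧ f x = 1 ∧ r = ‖f (T x)‖}} ≤ 21 / 100 := by
    have hS := norm_SS
    have hpos : 0 < ‖SS‖ := by
      by_contra h
      push Not at h
      linarith
    have hbdd : BddBelow {s : ℝ | ∃ T : (XX →L[ℝ] ℝ) →L[ℝ] (XX →L[ℝ] ℝ), ‖T‖ = 1 ∧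
          s = sSup {r : ℝ | ∃ (x : XX →L[ℝ] ℝ) (f : (XX →L[ℝ] ℝ) →L[ℝ] ℝ),
            ‖x‖ = 1 ∧ ‖f‖ = 1 ∧ f x = 1 ∧ r = ‖f (T x)‖}} := by
      refine ⟨0, ?_⟩
      rintro s ⟨T, _, rfl⟩
      apply Real.sSup_nonneg
      rintro r ⟨x, f, _, _, _, rfl⟩
      exact norm_nonneg _
    have hmem : sSup {r : ℝ | ∃ (x : XX →L[ℝ] ℝ) (f : (XX →L[ℝ] ℝ) →L[ℝ] ℝ),
            ‖x‖ = 1 ∧ ‖f‖ = 1 ∧ f x = 1 ∧ r = ‖f (((‖SS‖)⁻¹ • SS) x)‖} ∈
        {s : ℝ | ∃ T : (XX →L[ℝ] ℝ) →L[ℝ] (XX →L[ℝ] ℝ), ‖T‖ = 1 ∧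
          s = sSup {r : ℝ | ∃ (x : XX →L[ℝ] ℝ) (f : (XX →L[ℝ] ℝ) →L[ℝ] ℝ),
            ‖x‖ = 1 ∧ ‖f‖ = 1 ∧ f x = 1 ∧ r = ‖f (T x)‖}} := by
      exact ⟨(‖SS‖)⁻¹ • SS, norm_normalize SS hpos, rfl⟩
    refine (csInf_le hbdd hmem).trans ?_
    · apply Real.sSup_le _ (by norm_num)
      rintro r ⟨x, f, hx, hf, hfx, rfl⟩
      have h1 := upper x f hx hf hfx
      have h2 : f (((‖SS‖)⁻¹ • SS) x) = (‖SS‖)⁻¹ * f (SS x) := by
        rw [smul_apply, map_smul, smul_eq_mul]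
      rw [h2, Real.norm_eq_abs, abs_mul, abs_inv, abs_of_pos hpos, inv_mul_eq_div,
        div_le_iff₀ hpos]
      nlinarith
  have hlow : 9 / 10 ≤ sInf {s : ℝ | ∃ T : XX →L[ℝ] XX, ‖T‖ = 1 ∧
          s = sSup {r : ℝ | ∃ (x : XX) (f : XX →L[ℝ] ℝ),
            ‖x‖ = 1 ∧ ‖f‖ = 1 ∧ f x = 1 ∧ r = ‖f (T x)‖}} := by
    have : Nontrivial XX := by
      refine ⟨⟨ee 0, 0, fun h => ?_⟩⟩
      have h1 := cc_ee 0 0
      rw [h, map_zero] at h1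
      simp at h1
    refine le_csInf ⟨_, ContinuousLinearMap.id ℝ XX, ContinuousLinearMap.norm_id, rfl⟩ ?_
    rintro s ⟨T, hT, rfl⟩
    obtain ⟨x, f, hx, hf, hfx, hval⟩ := lower T hT
    refine hval.trans (le_csSup ⟨1, ?_⟩ ⟨x, f, hx, hf, hfx, rfl⟩)
    rintro r ⟨x, f, hx, hf, hfx, rfl⟩
    calc ‖f (T x)‖ ≤ ‖f‖ * ‖T x‖ := f.le_opNorm _
      _ ≤ ‖f‖ * (‖T‖ * ‖x‖) := by gcongr; exact T.le_opNorm _
      _ = 1 := by rw [hf, hT, hx]; norm_num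
  linarith

/-- The negation of the preceding statement: Over ℝ and over ℂ: if a Banach space X is, up to isometry, the only Banach space whose dual is isometric to X*, then the numerical index of X* equals the numerical index of X. -/
theorem result :
    ¬ ((∀ (X : Type) [NormedAddCommGroup X] [NormedSpace ℝ X] [CompleteSpace X],
      (∀ (Z : Type) [NormedAddCommGroup Z] [NormedSpace ℝ Z] [CompleteSpace Z],
        Nonempty ((Z →L[ℝ] ℝ) ≃ₗᵢ[ℝ] (X →L[ℝ] ℝ)) → Nonempty (Z ≃ₗᵢ[ℝ] X)) →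
      sInf {s : ℝ | ∃ T : (X →L[ℝ] ℝ) →L[ℝ] (X →L[ℝ] ℝ), ‖T‖ = 1 ∧
          s = sSup {r : ℝ | ∃ (x : X →L[ℝ] ℝ) (f : (X →L[ℝ] ℝ) →L[ℝ] ℝ),
            ‖x‖ = 1 ∧ ‖f‖ = 1 ∧ f x = 1 ∧ r = ‖f (T x)‖}}
        = sInf {s : ℝ | ∃ T : X →L[ℝ] X, ‖T‖ = 1 ∧
          s = sSup {r : ℝ | ∃ (x : X) (f : X →L[ℝ] ℝ),
            ‖x‖ = 1 ∧ ‖f‖ = 1 ∧ f x = 1 ∧ r = ‖f (T x)‖}}) ∧
    (∀ (X : Type) [NormedAddCommGroup X] [NormedSpace ℂ X] [CompleteSpace X],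
      (∀ (Z : Type) [NormedAddCommGroup Z] [NormedSpace ℂ Z] [CompleteSpace Z],
        Nonempty ((Z →L[ℂ] ℂ) ≃ₗᵢ[ℂ] (X →L[ℂ] ℂ)) → Nonempty (Z ≃ₗᵢ[ℂ] X)) →
      sInf {s : ℝ | ∃ T : (X →L[ℂ] ℂ) →L[ℂ] (X →L[ℂ] ℂ), ‖T‖ = 1 ∧
          s = sSup {r : ℝ | ∃ (x : X →L[ℂ] ℂ) (f : (X →L[ℂ] ℂ) →L[ℂ] ℂ),
            ‖x‖ = 1 ∧ ‖f‖ = 1 ∧ f x = 1 ∧ r = ‖f (T x)‖}}
        = sInf {s : ℝ | ∃ T : X →L[ℂ] X, ‖T‖ = 1 ∧
          s = sSup {r : ℝ | ∃ (x : X) (f : X →L[ℂ] ℂ),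
            ‖x‖ = 1 ∧ ‖f‖ = 1 ∧ f x = 1 ∧ r = ‖f (T x)‖}})) := by
  rintro ⟨h, -⟩
  have h1 := h XX (fun Z _ _ _ ⟨U⟩ => unique_predual xs CC (1 / 102) (by norm_num)
    (fun n => by rw [CC_apply, cc_xs_self]) norm_xs exposed dense_xs Z U)
  exact absurd h1 (ne_of_lt numIndex_ne)

end Pool.Agent.S04718
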