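import Pool.Statements.S05584
-- import your own Pool.Agent.* helpers here
import Pool.Agent.Lib.MP_9f272e_an.Meas

set_option autoImplicit false
open Pool Pool.MP_9f272e_an

namespace Pool.Agent.S05584

/-- The negation of the preceding statement: For n ≥ 2 and every bounded holomorphic f on the unit ball of ℂⁿ, the set of sphere points where the radial limit of f fails to exist has measure zero for every representing measure of the origin for the ball algebra. -/
theorem result :
    ¬ (∀ n : ℕ, 2 ≤ n →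
    ∀ f : EuclideanSpace ℂ (Fin n) → ℂ,
      DifferentiableOn ℂ f (Metric.ball (0 : EuclideanSpace ℂ (Fin n)) 1) →
      (∃ C : ℝ, ∀ z ∈ Metric.ball (0 : EuclideanSpace ℂ (Fin n)) 1, ‖f z‖ ≤ C) →
    ∀ μ : MeasureTheory.Measure (EuclideanSpace ℂ (Fin n)),
      MeasureTheory.IsFiniteMeasure μ →
      μ (Metric.sphere (0 : EuclideanSpace ℂ (Fin n)) 1)ᶜ = 0 →
      (∀ g : EuclideanSpace ℂ (Fin n) → ℂ,
        ContinuousOn g (Metric.closedBall (0 : EuclideanSpace ℂ (Fin n)) 1) →
        DifferentiableOn ℂ g (Metric.ball (0 : EuclideanSpace ℂ (Fin n)) 1) →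
        ∫ z, g z ∂μ = g 0) →
      μ {ζ | ζ ∈ Metric.sphere (0 : EuclideanSpace ℂ (Fin n)) 1 ∧
          ¬ ∃ L : ℂ, Filter.Tendsto (fun r : ℝ => f ((r : ℂ) • ζ))
              (nhdsWithin 1 (Set.Iio 1)) (nhds L)} = 0) := by
  intro h
  refine Pool.Agent.RudinExc.mu_pos ?_ (h 2 le_rfl Pool.Agent.RudinExc.ff ?_ ?_
    Pool.Agent.RudinExc.mu Pool.Agent.RudinExc.mu_finite Pool.Agent.RudinExc.mu_sphere ?_)
  · intro t
    refine ⟨?_, Pool.Agent.RudinExc.no_limit t⟩
    rw [mem_sphere_zero_iff_norm, Pool.Agent.RudinExc.gam_norm]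
  · intro z hz
    rw [mem_ball_zero_iff] at hz
    exact (Pool.Agent.RudinExc.ff_differentiable hz).differentiableWithinAt
  · refine ⟨_, fun z hz => Pool.Agent.RudinExc.ff_bounded ?_⟩
    rw [mem_ball_zero_iff] at hz
    exact hz.le
  · intro g hc hd
    exact Pool.Agent.RudinExc.mu_rep hc hd

end Pool.Agent.S05584
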