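import Pool.Statements.S06257
import Pool.Agent.Lib.MP_d2d690_an.Final

set_option autoImplicit false
open Pool Pool.MP_d2d690_an

namespace Pool.Agent.S06257

/-- For any finite-alphabet colouring η of ℤ² with at most nk distinct n×k patterns for some n,k≥1, any two real lines through 0 that are nonexpansive for the translation action on the orbit closure of η coincide. -/
theorem result :
  ∀ (m : ℕ) (η : ℤ × ℤ → Fin m),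
    (∃ n k : ℕ, 0 < n ∧ 0 < k ∧
      (Set.range (fun u : ℤ × ℤ =>
        fun s : ↥(Finset.Ico (0:ℤ) (n:ℤ) ×ˢ Finset.Ico (0:ℤ) (k:ℤ)) =>
          η ((s : ℤ × ℤ) + u))).ncard ≤ n * k) →
    ∀ d₁ d₂ : ℝ × ℝ, d₁ ≠ 0 → d₂ ≠ 0 →
      (¬ ∃ t : ℝ, 0 < t ∧ ∀ x y : ℤ × ℤ → Fin m,
          (∀ S : Finset (ℤ × ℤ), ∃ u : ℤ × ℤ, ∀ s ∈ S, x s = η (s + u)) →
          (∀ S : Finset (ℤ × ℤ), ∃ u : ℤ × ℤ, ∀ s ∈ S, y s = η (s + u)) →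
          (∀ p : ℤ × ℤ, |d₁.2 * (p.1 : ℝ) - d₁.1 * (p.2 : ℝ)| ≤ t → x p = y p) →
          x = y) →
      (¬ ∃ t : ℝ, 0 < t ∧ ∀ x y : ℤ × ℤ → Fin m,
          (∀ S : Finset (ℤ × ℤ), ∃ u : ℤ × ℤ, ∀ s ∈ S, x s = η (s + u)) →
          (∀ S : Finset (ℤ × ℤ), ∃ u : ℤ × ℤ, ∀ s ∈ S, y s = η (s + u)) →
          (∀ p : ℤ × ℤ, |d₂.2 * (p.1 : ℝ) - d₂.1 * (p.2 : ℝ)| ≤ t → x p = y p) →
          x = y) →
      d₁.1 * d₂.2 = d₁.2 * d₂.1 := by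
  exact Pool.Agent.MP_d2d690_an.final

end Pool.Agent.S06257
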