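import Pool.Statements.S06481
import Pool.Agent.Lib.MP_e3ae05_an.NoAdj

set_option autoImplicit false
open Filter Topology
open Pool Pool.MP_e3ae05_an

namespace Pool.Agent.S06481

/-- For each integer r and ε>0, for all small ω>0: if A₁>0 is the lowest positive height where phase-lock area L_r is a single point, then every point of L_r with A≥A₁ lies within ε of the ray B=0, A≥1. -/
theorem result :
    ∀ r : ℤ, ∀ ε : ℝ, 0 < ε → ∃ δ : ℝ, 0 < δ ∧
      ∀ ω : ℝ, 0 < ω → ω < δ →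
      ∀ B₁ A₁ : ℝ, 0 < A₁ →
        ((∃ φ : ℝ → ℝ, (∀ t : ℝ, HasDerivAt φ (-Real.sin (φ t) + B₁ + A₁ * Real.cos (ω * t)) t) ∧
            Tendsto (fun t : ℝ => φ t / t) atTop (𝓝 ((r : ℝ) * ω))) ∧
          ∀ B'' : ℝ, (∃ φ : ℝ → ℝ, (∀ t : ℝ, HasDerivAt φ (-Real.sin (φ t) + B'' + A₁ * Real.cos (ω * t)) t) ∧
            Tendsto (fun t : ℝ => φ t / t) atTop (𝓝 ((r : ℝ) * ω))) → B'' = B₁) →
        (∀ B' A' : ℝ, 0 < A' → A' < A₁ →
          ¬ ((∃ φ : ℝ → ℝ, (∀ t : ℝ, HasDerivAt φ (-Real.sin (φ t) + B' + A' * Real.cos (ω * t)) t) ∧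
              Tendsto (fun t : ℝ => φ t / t) atTop (𝓝 ((r : ℝ) * ω))) ∧
            ∀ B'' : ℝ, (∃ φ : ℝ → ℝ, (∀ t : ℝ, HasDerivAt φ (-Real.sin (φ t) + B'' + A' * Real.cos (ω * t)) t) ∧
              Tendsto (fun t : ℝ => φ t / t) atTop (𝓝 ((r : ℝ) * ω))) → B'' = B')) →
        ∀ B A : ℝ, A₁ ≤ A →
          (∃ φ : ℝ → ℝ, (∀ t : ℝ, HasDerivAt φ (-Real.sin (φ t) + B + A * Real.cos (ω * t)) t) ∧
            Tendsto (fun t : ℝ => φ t / t) atTop (𝓝 ((r : ℝ) * ω))) →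
          ∃ a : ℝ, 1 ≤ a ∧ B ^ 2 + (A - a) ^ 2 < ε ^ 2 := by
  intro r ε hε
  -- a smaller threshold
  set e : ℝ := min ε 1 / 2 with he
  have hmin : 0 < min ε 1 := lt_min hε one_pos
  have he0 : 0 < e := by positivity
  have he1 : e ≤ 1 := by
    have := min_le_right ε 1
    linarith
  have heε : e < ε := by
    have := min_le_left ε 1
    linarith
  have hpi := Real.pi_pos
  set N : ℤ := |r| + 1 with hN
  have hN0 : (0 : ℝ) < (N : ℝ) + 1 := by
    have h1 : (0 : ℤ) ≤ |r| := abs_nonneg r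
    have h2 : (0 : ℤ) < N + 1 := by rw [hN]; omega
    exact_mod_cast h2
  have hse : 0 < Real.sqrt e := Real.sqrt_pos.mpr he0
  refine ⟨Real.sqrt e * e ^ 2 / (6 * Real.pi * (N + 1)), by positivity, ?_⟩
  intro ω hω hωδ B₁ A₁ hA₁ hsing _ B A hAA hL
  have hsmall : ω * (6 * Real.pi * (N + 1)) ≤ Real.sqrt e * e ^ 2 := by
    rw [lt_div_iff₀ (by positivity)] at hωδ
    exact hωδ.le
  -- translate to the notation of the helper files
  have key : ∀ (s : ℤ) (b a : ℝ), (∃ φ : ℝ → ℝ,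
      (∀ t : ℝ, HasDerivAt φ (-Real.sin (φ t) + b + a * Real.cos (ω * t)) t) ∧
      Tendsto (fun t : ℝ => φ t / t) atTop (𝓝 ((s : ℝ) * ω))) ↔
      Pool.Agent.MPe3ae05.InL s b a ω := by
    intro s b a
    unfold Pool.Agent.MPe3ae05.InL
    simp only [Pool.Agent.MPe3ae05.sol_ff_iff]
  have hL1 : Pool.Agent.MPe3ae05.InL r B₁ A₁ ω := (key _ _ _).mp hsing.1
  have hs1 : ∀ B'', Pool.Agent.MPe3ae05.InL r B'' A₁ ω → B'' = B₁ :=
    fun B'' h => hsing.2 B'' ((key _ _ _).mpr h)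
  have hheight := Pool.Agent.MPe3ae05.adj_height hω hA₁ hL1 hs1
  have hA1 : 1 ≤ A := by
    have := abs_nonneg B₁
    linarith
  have hLL : Pool.Agent.MPe3ae05.InL r B A ω := (key _ _ _).mp hL
  have hrN : r < N := by
    have := le_abs_self r
    omega
  have hrN' : -r < N := by
    have := neg_le_abs r
    omega
  have hB : |B| < e := by
    rw [abs_lt]
    constructor
    · by_contra hcon
      have hB' : e ≤ -B := by linarith [not_lt.mp hcon]
      exact Pool.Agent.MPe3ae05.not_inL he0 he1 hA1 hω hB' hrN' hsmall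
        (Pool.Agent.MPe3ae05.inL_reflect hω hLL)
    · by_contra hcon
      exact Pool.Agent.MPe3ae05.not_inL he0 he1 hA1 hω (not_lt.mp hcon) hrN hsmall hLL
  refine ⟨A, hA1, ?_⟩
  have hBε : |B| < ε := hB.trans heε
  rw [sub_self]
  have := sq_lt_sq' (by linarith [abs_lt.mp hBε]) (abs_lt.mp hBε).2
  linarith

end Pool.Agent.S06481
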