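import Pool.Statements.S06562
import Pool.Agent.Lib.MP_eb6598_an.Final

set_option autoImplicit false
open scoped ENNReal NNReal Topology
open Filter
open Pool Pool.MP_eb6598_an

namespace Pool.Agent.S06562

/-- The negation of the preceding statement: If φ has positive real part and Re φ(0) is of Matsaev class, then every element of the overlapping space is an 𝓛-limit of (1+T)uⱼ for square-summable uⱼ Cauchy in 𝓛(φ), i.e. the wave-limit W is onto 𝓛. -/
theorem result :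
    ¬ (∀ (E : Type) [NormedAddCommGroup E] [InnerProductSpace ℂ E] [CompleteSpace E]
      (φ b : ℕ → (E →L[ℂ] E)),
      (∀ z : ℂ, ‖z‖ < 1 → ∃ Φ : E →L[ℂ] E,
          HasSum (fun n : ℕ => z ^ n • φ n) Φ ∧ ∀ x : E, 0 ≤ (inner ℂ (Φ x) x).re) →
      (∀ n : ℕ, b n + ∑ k ∈ Finset.range (n + 1), φ k * b (n - k)
          = (if n = 0 then (1 : E →L[ℂ] E) else 0) - φ n) →
      ∀ A : E →L[ℂ] E,
      (∀ x y : E, (inner ℂ (A x) y : ℂ)
          = (1 / 2 : ℂ) * ((inner ℂ ((φ 0) x) y : ℂ) + (inner ℂ x ((φ 0) y) : ℂ))) →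
      (IsCompactOperator (A : E → E) ∧
        ∑' n : ℕ, (⨅ (F : E →L[ℂ] E)
            (_ : Module.rank ℂ (LinearMap.range (F : E →ₗ[ℂ] E)) ≤ (n : Cardinal)),
            ENNReal.ofReal ‖A - F‖) / ((n : ℝ≥0∞) + 1) < ⊤) →
      ∀ M Ms R : lp (fun _ : ℕ => E) 2 →L[ℂ] lp (fun _ : ℕ => E) 2,
      (∀ (f : lp (fun _ : ℕ => E) 2) (n : ℕ),
          (M f) n = ∑ k ∈ Finset.range (n + 1), (b k) (f (n - k))) →
      (∀ f g : lp (fun _ : ℕ => E) 2, (inner ℂ (M f) g : ℂ) = (inner ℂ f (Ms g) : ℂ)) →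
      (∀ f g : lp (fun _ : ℕ => E) 2, (inner ℂ (R f) g : ℂ) = (inner ℂ f (R g) : ℂ)) →
      (∀ f : lp (fun _ : ℕ => E) 2, 0 ≤ (inner ℂ (R f) f : ℂ).re) →
      (∀ f : lp (fun _ : ℕ => E) 2, R (R f) = f - M (Ms f)) →
      ∀ g : ℕ → E,
        (∑' n, ENNReal.ofReal (‖g n‖ ^ 2)) +
          (⨅ (x : lp (fun _ : ℕ => E) 2)
            (_ : ∀ n : ℕ, (R x) n = ∑ k ∈ Finset.range (n + 1), (b k) (g (n - k))),
            ENNReal.ofReal (‖x‖ ^ 2)) < ⊤ →
        ∃ u : ℕ → lp (fun _ : ℕ => E) 2,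
          (∀ j : ℕ,
            (⨅ (x : lp (fun _ : ℕ => E) 2)
              (_ : ∀ n : ℕ, (R x) n
                  = (u j) n + ∑ k ∈ Finset.range (n + 1), (b k) ((u j) (n - k))),
              ENNReal.ofReal (‖x‖ ^ 2)) < ⊤) ∧
          (∀ ε : ℝ≥0∞, 0 < ε → ∃ N : ℕ, ∀ i ≥ N, ∀ j ≥ N,
            (⨅ (x : lp (fun _ : ℕ => E) 2)
              (_ : ∀ n : ℕ, (R x) n
                  = ((u i) n - (u j) n) +
                    ∑ k ∈ Finset.range (n + 1), (b k) ((u i) (n - k) - (u j) (n - k))),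
              ENNReal.ofReal (‖x‖ ^ 2)) < ε) ∧
          Tendsto
            (fun j : ℕ =>
              (∑' n, ENNReal.ofReal (‖(u j + Ms (u j)) n - g n‖ ^ 2)) +
              (⨅ (x : lp (fun _ : ℕ => E) 2)
                (_ : ∀ n : ℕ, (R x) n
                    = ∑ k ∈ Finset.range (n + 1),
                        (b k) ((u j + Ms (u j)) (n - k) - g (n - k))),
                ENNReal.ofReal (‖x‖ ^ 2)))
            atTop (𝓝 0)) := by
  exact Pool.Agent.MPeb6598.not_stmt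

end Pool.Agent.S06562
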