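import Pool.Statements.S08467
import Pool.Agent.Lib.MP_45c2e2_co.Base

set_option autoImplicit false
open Pool Pool.MP_45c2e2_co

namespace Pool.Agent.S08467

/-- There is a dimension d > 100 such that for all large N, some subset of the grid {1..N}^d with at least N^(d-100) points has no 5 distinct points on a common 2-plane. -/
theorem result :
    ∃ d : ℕ, 100 < d ∧ ∃ N₀ : ℕ, ∀ N : ℕ, N₀ ≤ N →
      ∃ A : Finset (Fin d → ℝ),
        (∀ x ∈ A, ∀ i : Fin d, ∃ k : ℕ, 1 ≤ k ∧ k ≤ N ∧ x i = (k : ℝ)) ∧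
        (∀ S : Finset (Fin d → ℝ), S ⊆ A → S.card = 5 →
          ¬ Coplanar ℝ (S : Set (Fin d → ℝ))) ∧
        N ^ (d - 100) ≤ A.card := by
  refine ⟨197, by norm_num, 2 ^ 98, fun N hN => ?_⟩
  have h1 : 1 ≤ N := le_trans (Nat.one_le_pow _ _ (by norm_num)) hN
  obtain ⟨c, ⟨A, a1, -, a3, a4⟩, hc⟩ := Pool.Agent.MP_45c2e2_co.good_all 197 N h1
  refine ⟨A, a1, a3, ?_⟩
  have e : 197 / 4 + (197 + 1) / 4 = 98 := by norm_num
  rw [e] at hc
  have h2 : (N : ℝ) ^ 97 ≤ ((N : ℝ) / 2) ^ 98 := by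
    rw [div_pow, le_div_iff₀ (by positivity), pow_succ (N : ℝ) 97]
    refine mul_le_mul_of_nonneg_left ?_ (by positivity)
    exact_mod_cast hN
  have h3 : (N : ℝ) ^ 97 ≤ c := h2.trans hc
  have h4 : N ^ 97 ≤ c := by exact_mod_cast h3
  exact h4.trans a4

end Pool.Agent.S08467
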