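import Pool.Statements.S08808
import Pool.Agent.Lib.MP_554eee_co.Unique

set_option autoImplicit false
open Pool Pool.MP_554eee_co

namespace Pool.Agent.S08808

open Pool.Agent.MP554eee

theorem same_val {w : ℕ → Fin 11} {a b l : ℕ} :
    Same (fun t => (w t).val) a b l ↔ Same w a b l := by
  constructor
  · intro h t ht
    exact Fin.ext (h t ht)
  · intro h t ht
    exact congrArg Fin.val (h t ht)

theorem inst_val {w : ℕ → Fin 11} {i q m0 m1 m2 m3 v n x d y : ℕ} :
    Inst (fun t => (w t).val) i q m0 m1 m2 m3 v n x d y ↔ Inst w i q m0 m1 m2 m3 v n x d y := by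
  constructor
  · rintro ⟨h1, h2, h3, h4, h5, h6, h7, h8, h9, h10, b1, b2, b3, b4, b5, b6, b7, b8, b9, c0, c1, c2,
      c3, e1, e2, f1⟩
    exact ⟨h1, h2, h3, h4, h5, h6, h7, h8, h9, h10, same_val.mp b1, same_val.mp b2, same_val.mp b3,
      same_val.mp b4, same_val.mp b5, same_val.mp b6, same_val.mp b7, same_val.mp b8,
      same_val.mp b9, same_val.mp c0, same_val.mp c1, same_val.mp c2, same_val.mp c3,
      same_val.mp e1, same_val.mp e2, same_val.mp f1⟩
  · rintro ⟨h1, h2, h3, h4, h5, h6, h7, h8, h9, h10, b1, b2, b3, b4, b5, b6, b7, b8, b9, c0, c1, c2,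
      c3, e1, e2, f1⟩
    exact ⟨h1, h2, h3, h4, h5, h6, h7, h8, h9, h10, same_val.mpr b1, same_val.mpr b2,
      same_val.mpr b3, same_val.mpr b4, same_val.mpr b5, same_val.mpr b6, same_val.mpr b7,
      same_val.mpr b8, same_val.mpr b9, same_val.mpr c0, same_val.mpr c1, same_val.mpr c2,
      same_val.mpr c3, same_val.mpr e1, same_val.mpr e2, same_val.mpr f1⟩

theorem uc_lt_eleven : ∀ t < 172, uc t < 11 := by decide +kernel

theorem fw_lt_eleven (t : ℕ) : fw t < 11 := by
  by_cases h : t < 172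
  · rw [fw_lt h]; exact uc_lt_eleven t h
  · have := fw_ge_le (t := t) (by omega)
    omega

/-- The isolated word, over the alphabet with eleven letters. -/
def word (t : ℕ) : Fin 11 := ⟨fw t, fw_lt_eleven t⟩

theorem avoids_iff (w : ℕ → Fin 11) :
    (∀ (h : Fin 10 → List (Fin 11)), (∀ x, h x ≠ []) →
      ∀ i n : ℕ, List.ofFn (fun j : Fin n => w (i + (j : ℕ))) ≠ pat.flatMap h) ↔
    ∀ i q m0 m1 m2 m3 v n x d y : ℕ, ¬ Inst (fun t => (w t).val) i q m0 m1 m2 m3 v n x d y := by
  constructor
  · intro h i q m0 m1 m2 m3 v n x d y H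
    obtain ⟨h', hne, i', n', he⟩ := (encounters_iff w).mpr
      ⟨i, q, m0, m1, m2, m3, v, n, x, d, y, inst_val.mp H⟩
    exact h h' hne i' n' he
  · intro h h' hne i' n' he
    obtain ⟨i, q, m0, m1, m2, m3, v, n, x, d, y, H⟩ := (encounters_iff w).mp ⟨h', hne, i', n', he⟩
    exact h i q m0 m1 m2 m3 v n x d y (inst_val.mpr H)

/-- The negation of the preceding statement: For every pattern p and finite alphabet Σ: if some infinite word over Σ avoids p (no factor is a nonerasing morphic image of p), then the set of all infinite words over Σ avoiding p is perfect in the product topology. -/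
theorem result :
    ¬ (∀ (m k : ℕ) (p : List (Fin m)),
      (∃ w : ℕ → Fin k, ∀ (h : Fin m → List (Fin k)), (∀ x, h x ≠ []) →
          ∀ i n : ℕ, List.ofFn (fun j : Fin n => w (i + (j : ℕ))) ≠ p.flatMap h) →
      Perfect {w : ℕ → Fin k | ∀ (h : Fin m → List (Fin k)), (∀ x, h x ≠ []) →
          ∀ i n : ℕ, List.ofFn (fun j : Fin n => w (i + (j : ℕ))) ≠ p.flatMap h}) := by
  intro hall
  have hword : ∀ (h : Fin 10 → List (Fin 11)), (∀ x, h x ≠ []) →
      ∀ i n : ℕ, List.ofFn (fun j : Fin n => word (i + (j : ℕ))) ≠ pat.flatMap h := by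
    rw [avoids_iff]
    intro i q m0 m1 m2 m3 v n x d y H
    exact fw_avoids (i := i) (q := q) (m0 := m0) (m1 := m1) (m2 := m2) (m3 := m3) (v := v)
      (n := n) (x := x) (d := d) (y := y) H
  have hperf := hall 10 11 pat ⟨word, hword⟩
  have hacc := hperf.acc word hword
  rw [accPt_iff_nhds] at hacc
  have hopen : IsOpen {y : ℕ → Fin 11 | ∀ t ∈ Finset.range 175, y t = word t} := by
    have : {y : ℕ → Fin 11 | ∀ t ∈ Finset.range 175, y t = word t} =
        ⋂ t ∈ Finset.range 175, {y : ℕ → Fin 11 | y t = word t} := by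
      ext y
      simp only [Set.mem_iInter]
      exact Iff.rfl
    rw [this]
    apply isOpen_biInter_finset
    intro t _
    have hp : {y : ℕ → Fin 11 | y t = word t} =
        (fun y : ℕ → Fin 11 => y t) ⁻¹' ({word t} : Set (Fin 11)) := rfl
    rw [hp]
    exact IsOpen.preimage (continuous_apply t) (isOpen_discrete _)
  obtain ⟨y, ⟨hyU, hyS⟩, hne⟩ := hacc _ (hopen.mem_nhds (fun t _ => rfl))
  apply hne
  have hyS' := (avoids_iff y).mp hyS
  funext t
  apply Fin.ext
  have := fw_unique (fun t => (y t).val) (fun t => (y t).isLt)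
    (fun t ht => congrArg Fin.val (hyU t (Finset.mem_range.mpr ht))) hyS' t
  exact this

end Pool.Agent.S08808
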