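-- The sausage conjecture of L. Fejes Toth in all dimensions d >= 5: proof of the frozen statement.
import Pool.Statements.S08933
import Pool.Agent.Lib.MP_5a9905_co_NC.Main

set_option autoImplicit false
open MeasureTheory
open Pool Pool.MP_5a9905_co

namespace Pool.Agent.S08933

/-- For every d ≥ 5 and k, any k unit balls in ℝ^d with centres pairwise at distance ≥ 2 have a convex hull of volume at least that of k unit balls with collinear centres spaced 2 apart. -/
theorem result :
    ∀ d : ℕ, 5 ≤ d → ∀ k : ℕ, ∀ x : Fin k → EuclideanSpace ℝ (Fin d),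
      (∀ i j : Fin k, i ≠ j → 2 ≤ dist (x i) (x j)) →
      ∀ e : EuclideanSpace ℝ (Fin d), ‖e‖ = 1 →
        volume (convexHull ℝ (⋃ i : Fin k, Metric.closedBall ((2 * ((i : ℕ) : ℝ)) • e) (1 : ℝ)))
          ≤ volume (convexHull ℝ (⋃ i : Fin k, Metric.closedBall (x i) (1 : ℝ))) :=
  fun d hd k x hx e he => Pool.Agent.SausN.sausage_conjecture d hd k x hx e he

end Pool.Agent.S08933
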