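import Pool.Statements.S09874
import Pool.Agent.Lib.MP_85fffe_co.Expo

set_option autoImplicit false
open Pool Pool.MP_85fffe_co

namespace Pool.Agent.S09874

/-- The negation of the preceding statement: There is a constant C such that for every finite set X of n reals, any family of maximally repeated patterns of X, no two of which are translates of each other, has at most C·n members. -/
theorem result :
    ¬ (∃ C : ℕ, ∀ X : Finset ℝ, ∀ S : Finset (Finset ℝ),
      (∀ A ∈ S,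
        A.Nonempty ∧ A ⊆ X ∧
        (∃ t : ℝ, t ≠ 0 ∧ A.image (· + t) ⊆ X) ∧
        (∀ B : Finset ℝ, A ⊂ B →
          ¬ (∀ t : ℝ, A.image (· + t) ⊆ X → B.image (· + t) ⊆ X))) →
      (∀ A ∈ S, ∀ B ∈ S, ∀ t : ℝ, B = A.image (· + t) → A = B) →
      S.card ≤ C * X.card) := by
  rintro ⟨C, hC⟩
  obtain ⟨n, hn, hlt⟩ := Pool.Agent.MP85fffe.exists_large C
  have key := hC (Pool.Agent.MP85fffe.XR n) (Pool.Agent.MP85fffe.fam n) ?_ ?_
  · rw [Pool.Agent.MP85fffe.card_XR, Pool.Agent.MP85fffe.card_fam] at key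
    omega
  · intro A hA
    obtain ⟨U, hU, rfl⟩ := Pool.Agent.MP85fffe.mem_fam.1 hA
    exact ⟨⟨0, Pool.Agent.MP85fffe.zero_mem_patR hn hU⟩, Pool.Agent.MP85fffe.patR_subset hU,
      Pool.Agent.MP85fffe.patR_repeated hn hU, Pool.Agent.MP85fffe.patR_maximal hU⟩
  · intro A hA B hB t h
    obtain ⟨U, hU, rfl⟩ := Pool.Agent.MP85fffe.mem_fam.1 hA
    obtain ⟨V, hV, rfl⟩ := Pool.Agent.MP85fffe.mem_fam.1 hB
    exact Pool.Agent.MP85fffe.patR_translate_eq hn hU hV h

end Pool.Agent.S09874
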