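import Pool.Statements.S10045
import Pool.Agent.Lib.MP_8cf036_co_h80.Final
import Pool.Agent.Lib.MP_8cf036_co_h19.Lower
import Pool.Agent.Lib.MP_8cf036_co_h19.Upper

set_option autoImplicit false
open Pool Pool.MP_8cf036_co

namespace Pool.Agent.S10045

/-- For every k ≥ 3 there is s₀ such that for all s ≥ s₀ the Ramsey number of the k-uniform tight path with s edges versus the k-uniform clique K_t lies between c·t^(k-1) and C·t^(k-1) for all large t. -/
theorem result :
    ∀ k : ℕ, 3 ≤ k → ∃ s₀ : ℕ, ∀ s : ℕ, s₀ ≤ s →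
      ∃ c C : ℝ, 0 < c ∧ 0 < C ∧ ∃ T : ℕ, ∀ t : ℕ, T ≤ t →
        (∀ n : ℕ, C * (t : ℝ) ^ (k - 1) ≤ (n : ℝ) →
          ∀ H : Set (Finset (Fin n)),
            (∃ v : Fin (s + k - 1) → Fin n, Function.Injective v ∧
              ∀ i : Fin s,
                (Finset.univ.filter (fun j : Fin (s + k - 1) =>
                    i.val ≤ j.val ∧ j.val < i.val + k)).image v ∈ H) ∨
            (∃ S : Finset (Fin n), S.card = t ∧
              ∀ e : Finset (Fin n), e ⊆ S → e.card = k → e ∉ H)) ∧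
        (∀ n : ℕ, (n : ℝ) ≤ c * (t : ℝ) ^ (k - 1) →
          ¬ (∀ H : Set (Finset (Fin n)),
            (∃ v : Fin (s + k - 1) → Fin n, Function.Injective v ∧
              ∀ i : Fin s,
                (Finset.univ.filter (fun j : Fin (s + k - 1) =>
                    i.val ≤ j.val ∧ j.val < i.val + k)).image v ∈ H) ∨
            (∃ S : Finset (Fin n), S.card = t ∧
              ∀ e : Finset (Fin n), e ⊆ S → e.card = k → e ∉ H))) := by
  intro k hk
  refine ⟨k + 1, fun s hs => ?_⟩
  obtain ⟨A, hA, hcon⟩ := Pool.Agent.Lib.MP_8cf036_co_h80.construction_all k hk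
  have hk2 : 2 ≤ k := by omega
  obtain ⟨c, hc, T, hT⟩ := Pool.Agent.Lib.MP_8cf036_co_h19.lower hk2 hA hcon hs
  refine ⟨c, ((s * 2 ^ k : ℕ) : ℝ), hc, ?_, max T 1, ?_⟩
  · have : 0 < s * 2 ^ k := Nat.mul_pos (by omega) (by positivity)
    exact_mod_cast this
  · intro t ht
    refine ⟨fun n hn H => Pool.Agent.Lib.MP_8cf036_co_h19.upper hk2 (by omega) t n
      ((le_max_right T 1).trans ht) hn H, ?_⟩
    exact fun n hn => hT t ((le_max_left T 1).trans ht) n hn

end Pool.Agent.S10045
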