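import Pool.Statements.S10300
import Pool.Agent.Lib.MP_97f6bf_co.Tree
import Pool.Agent.Lib.MP_97f6bf_co.Cycles

set_option autoImplicit false
open Pool Pool.MP_97f6bf_co

namespace Pool.Agent.S10300

open Pool.Agent.MP97f6bf

/-- The negation of the preceding statement: For finite matroids N1, N2 and k ≥ 1 there is n such that every finite matroid with N1- and N2-minors, no proper minor having both, and no U(k,2k)-minor, has a subcubic tree decomposition of width at most n. -/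
theorem result :
    ¬ (∀ (β₁ β₂ : Type) (N₁ : Matroid β₁) (N₂ : Matroid β₂), N₁.Finite → N₂.Finite →
    ∀ k : ℕ, 0 < k → ∃ n : ℕ, ∀ (α : Type) (M : Matroid α), M.Finite →
      (∃ N : Matroid α, N.IsMinor M ∧ ∃ e : ↥N.E ≃ ↥N₁.E, ∀ I : Set ↥N.E,
          N.Indep (Subtype.val '' I) ↔ N₁.Indep (Subtype.val '' (e '' I))) →
      (∃ N : Matroid α, N.IsMinor M ∧ ∃ e : ↥N.E ≃ ↥N₂.E, ∀ I : Set ↥N.E,
          N.Indep (Subtype.val '' I) ↔ N₂.Indep (Subtype.val '' (e '' I))) →
      (∀ M' : Matroid α, M'.IsMinor M → M' ≠ M →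
        ¬ ((∃ N : Matroid α, N.IsMinor M' ∧ ∃ e : ↥N.E ≃ ↥N₁.E, ∀ I : Set ↥N.E,
              N.Indep (Subtype.val '' I) ↔ N₁.Indep (Subtype.val '' (e '' I))) ∧
           (∃ N : Matroid α, N.IsMinor M' ∧ ∃ e : ↥N.E ≃ ↥N₂.E, ∀ I : Set ↥N.E,
              N.Indep (Subtype.val '' I) ↔ N₂.Indep (Subtype.val '' (e '' I))))) →
      ¬ (∃ N : Matroid α, N.IsMinor M ∧ N.E.ncard = 2 * k ∧
          ∀ I ⊆ N.E, N.Indep I ↔ I.ncard ≤ k) →
      ∃ (V : Type) (_ : Finite V) (T : SimpleGraph V),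
        T.IsAcyclic ∧ T.Preconnected ∧ (∀ v, (T.neighborSet v).ncard ≤ 3) ∧
        ∃ f : ↥M.E ≃ {v : V // (T.neighborSet v).ncard ≤ 1},
          ∀ u v : V, T.Adj u v →
            M.eRk {x | ∃ h : x ∈ M.E, (T.deleteEdges {s(u, v)}).Reachable u (f ⟨x, h⟩).1}
              + M.eRk (M.E \ {x | ∃ h : x ∈ M.E,
                  (T.deleteEdges {s(u, v)}).Reachable u (f ⟨x, h⟩).1})
              ≤ M.eRank + (n : ℕ∞)) := by
  classical
  intro h
  obtain ⟨n₀, hn⟩ := h (Fin 5 × Bool) (Fin 5 × Bool) (MM (D5 false)) (MM (D5 true))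
    inferInstance inferInstance 4 (by norm_num)
  set k := 3 * (n₀ + 28) + 5 with hk
  set H := grid k with hH
  -- a minor with both small matroids and with smallest ground set
  have hex : ∃ m : ℕ, ∃ M' : Matroid (VV (k + 1) × Bool), M'.IsMinor (MM H.G.data) ∧
      (∀ b, Big.HasMinor b M') ∧ M'.E.ncard = m :=
    ⟨_, MM H.G.data, Matroid.IsMinor.refl, fun b => H.G.hasMinor b, rfl⟩
  obtain ⟨M', hM', hboth, hcard⟩ := Nat.find_spec hex
  have hmin := fun m (hm : m < Nat.find hex) => Nat.find_min hex hm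
  have hfin : ∀ S : Set (VV (k + 1) × Bool), S.Finite := fun S => Set.toFinite S
  have hM : ∀ B, (MM H.G.data).IsBase B → IsTr H.G.data.σ B :=
    fun B hB => ((MM_isBase _ B).1 hB).1
  obtain ⟨U, hU, T, hA, hC, h3, f, hw⟩ := hn (VV (k + 1) × Bool) M' ⟨hfin _⟩
    (hboth false) (hboth true)
    (by
      rintro M'' hM'' hne ⟨h1, h2⟩
      have hsub : M''.E ⊂ M'.E := by
        refine hM''.subset.ssubset_of_ne ?_
        intro hE
        exact hne (hM''.eq_of_ground_subset hE.symm.subset).symm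
      have hlt : M''.E.ncard < Nat.find hex := by
        rw [← hcard]
        exact Set.ncard_lt_ncard hsub (hfin _)
      refine hmin _ hlt ⟨M'', hM''.trans hM', ?_, rfl⟩
      intro b
      cases b
      · exact h1
      · exact h2)
    (by
      rintro ⟨N, hN, hc, hI⟩
      exact no_uniform hM (hN.trans hM') hc hI)
  exact H.tree_contra n₀ hk hM' (H.G.outer_subset hM' hboth) hU T hA hC h3 f hw

end Pool.Agent.S10300
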