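import Pool.Statements.S10471
import Pool.Agent.Lib.MP_a0a351_co.TopE2

set_option autoImplicit false
open Pool Pool.MP_a0a351_co

namespace Pool.Agent.S10471

/-- Any (d+1)(r-1)+1+k points in general position in R^d, with k at most d, can be split into r parts whose convex hulls share k+1 affinely independent points, i.e. intersect in dimension at least k. -/
theorem result :
    ∀ (d r k n : ℕ), 1 ≤ r → k ≤ d → n = (d + 1) * (r - 1) + 1 + k →
      ∀ p : Fin n → EuclideanSpace ℝ (Fin d),
        (∀ s : Finset (Fin n), s.card ≤ d + 1 →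
          AffineIndependent ℝ (fun i : s => p (i : Fin n))) →
        ∃ f : Fin n → Fin r, ∃ q : Fin (k + 1) → EuclideanSpace ℝ (Fin d),
          AffineIndependent ℝ q ∧
          ∀ j : Fin (k + 1), ∀ i : Fin r,
            q j ∈ convexHull ℝ (p '' {m : Fin n | f m = i}) := by
  intro d r k n hr hk hn p hp
  exact Pool.Agent.MPa0a351.Top.reay_full d r k (by simp) hr hk p
    (Pool.Agent.MPa0a351.gpv_of_genPos p hp) (by simpa using hn)

end Pool.Agent.S10471
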