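import Pool.Statements.S10541
import Pool.Agent.Lib.MP_a3e05c_co.IRR.Main
import Pool.Agent.Lib.MP_a3e05c_co.KL.BridgeB

set_option autoImplicit false
open Pool Pool.MP_a3e05c_co

namespace Pool.Agent.S10541

/-- For every finite simple graph with all degrees even, the number of Eulerian orientations is at most the product over vertices v of RT(d_v+1)^(1/(d_v+1)), where RT(m) counts Eulerian orientations of the complete graph on m vertices. -/
theorem result :
    ∀ (V : Type) [Fintype V] [DecidableEq V] (G : SimpleGraph V) [DecidableRel G.Adj],
      (∀ v : V, Even (G.degree v)) →
      (((Finset.univ : Finset (V → V → Bool)).filter (fun o =>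
          (∀ u w : V, o u w = true → G.Adj u w) ∧
          (∀ u w : V, G.Adj u w → (o u w = true ↔ o w u = false)) ∧
          (∀ x : V, (Finset.univ.filter (fun w => o x w = true)).card =
                    (Finset.univ.filter (fun w => o w x = true)).card))).card : ℝ)
        ≤ ∏ v : V,
            ((((Finset.univ : Finset (Fin (G.degree v + 1) → Fin (G.degree v + 1) → Bool)).filter
                (fun o =>
                  (∀ u w : Fin (G.degree v + 1), o u w = true →
                      (⊤ : SimpleGraph (Fin (G.degree v + 1))).Adj u w) ∧
                  (∀ u w : Fin (G.degree v + 1),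
                      (⊤ : SimpleGraph (Fin (G.degree v + 1))).Adj u w →
                        (o u w = true ↔ o w u = false)) ∧
                  (∀ x : Fin (G.degree v + 1),
                      (Finset.univ.filter (fun w => o x w = true)).card =
                      (Finset.univ.filter (fun w => o w x = true)).card))).card : ℝ)
              ^ ((1 : ℝ) / ((G.degree v : ℝ) + 1))) := by
  intro V _ _ G _ hev
  have h := _root_.MP_a3e05c_co.KL.bound_of_PA G hev fun E _ _ hd hs hdeg =>
    _root_.MP_a3e05c_co.KL.PA_univ_le hs fun v => by
      rw [hdeg v]
      exact hev v
  unfold _root_.MP_a3e05c_co.KL.EOc at h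
  convert h

end Pool.Agent.S10541
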