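import Pool.Statements.S11508
import Pool.Agent.Lib.MP_cdddd3_co.Values
import Pool.Agent.Lib.MP_cdddd3_co.Roots

set_option autoImplicit false
open Pool Pool.MP_cdddd3_co

namespace Pool.Agent.S11508

open Pool.Agent.MPcdddd3 in
theorem descPoch (N : ℕ) : (descPochhammer ℝ 16).eval (N : ℝ) / ((Nat.factorial 16 : ℕ) : ℝ)
    = (N.choose 16 : ℝ) := by
  rw [descPochhammer_eval_eq_descFactorial, Nat.descFactorial_eq_factorial_mul_choose]
  push_cast
  field_simp

open Pool.Agent.MPcdddd3 in
theorem cond_J (τ : ℝ) (hτ : 0 < τ) :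
      (J τ : MvPolynomial (Fin 16) ℝ).IsSymmetric ∧
      (∀ m ∈ (J τ : MvPolynomial (Fin 16) ℝ).support, ∑ i, m i = 16 ∧
        ∀ S : Finset (Fin 16), ∑ i ∈ S, m i ≤ ∑ i ∈ Finset.range S.card,
          (fun i : ℕ => if i < 2 then 8 else 0) i) ∧
      MvPolynomial.coeff (Finsupp.equivFunOnFinite.symm
          (fun i : Fin 16 => (fun i : ℕ => if i < 2 then 8 else 0) (i : ℕ))) (J τ) =
        ∏ i ∈ Finset.range 16, ∏ j ∈ Finset.range ((fun i : ℕ => if i < 2 then 8 else 0) i),
          (τ * ((((Finset.range 16).filter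
            (fun k => j < (fun i : ℕ => if i < 2 then 8 else 0) k)).card : ℝ) - (i : ℝ))
            + ((((fun i : ℕ => if i < 2 then 8 else 0) i : ℕ) : ℝ) - (j : ℝ) - 1)) ∧
      ∃ q : Fin 16 → Fin 16 → MvPolynomial (Fin 16) ℝ, ∃ e : ℝ,
        (∀ i j : Fin 16, i < j →
          (MvPolynomial.X i - MvPolynomial.X j) * q i j =
            MvPolynomial.X i ^ 2 * MvPolynomial.pderiv i (J τ)
              - MvPolynomial.X j ^ 2 * MvPolynomial.pderiv j (J τ)) ∧
        ∑ i : Fin 16, MvPolynomial.X i ^ 2 * MvPolynomial.pderiv i (MvPolynomial.pderiv i (J τ))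
          + MvPolynomial.C (2 * τ) * ∑ i : Fin 16, ∑ j : Fin 16, (if i < j then q i j else 0)
          = MvPolynomial.C e * J τ := by
  refine ⟨J_symm τ, ?_, ?_, ?_⟩
  · intro m hm
    obtain ⟨h1, h2⟩ := J_support τ m (MvPolynomial.mem_support_iff.mp hm)
    refine ⟨h1, fun S => ?_⟩
    rcases Nat.lt_or_ge S.card 2 with h | h
    · interval_cases hS : S.card
      · rw [Finset.card_eq_zero] at hS
        simp [hS]
      · rw [Finset.card_eq_one] at hS
        obtain ⟨i, rfl⟩ := hS
        simpa using h2 i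
    · calc ∑ i ∈ S, m i ≤ ∑ i, m i :=
            Finset.sum_le_sum_of_subset (Finset.subset_univ S)
        _ = 16 := h1
        _ = ∑ i ∈ Finset.range 2, (fun i : ℕ => if i < 2 then 8 else 0) i := by decide
        _ ≤ _ := Finset.sum_le_sum_of_subset (Finset.range_mono h)
  · rw [coeff_J, if_pos (by decide)]
    have hW : (∏ i : Fin 16, W τ ((Finsupp.equivFunOnFinite.symm
          (fun i : Fin 16 => (fun i : ℕ => if i < 2 then 8 else 0) (i : ℕ)) : Fin 16 →₀ ℕ) i))
        = W τ 8 * W τ 8 := by
      simp only [Finsupp.equivFunOnFinite_symm_apply_apply]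
      rw [Fin.prod_univ_eq_prod_range (fun i : ℕ => W τ (if i < 2 then 8 else 0)) 16]
      simp [Finset.prod_range_succ, W_zero]
    rw [hW, J_top]
    have h1 : ∀ j ∈ Finset.range 8, ((Finset.range 16).filter
            (fun k => j < (fun i : ℕ => if i < 2 then 8 else 0) k)).card = 2 := by decide
    have h2 : ∀ i ∈ Finset.range 16,
        ∏ j ∈ Finset.range ((fun i : ℕ => if i < 2 then 8 else 0) i),
          (τ * ((((Finset.range 16).filter
            (fun k => j < (fun i : ℕ => if i < 2 then 8 else 0) k)).card : ℝ) - (i : ℝ))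
            + ((((fun i : ℕ => if i < 2 then 8 else 0) i : ℕ) : ℝ) - (j : ℝ) - 1))
        = if i < 2 then ∏ j ∈ Finset.range 8, (τ * (2 - (i : ℝ)) + (8 - (j : ℝ) - 1)) else 1 := by
      intro i _
      by_cases hi : i < 2
      · rw [if_pos hi]
        have e8 : ((fun i : ℕ => if i < 2 then 8 else 0) i : ℕ) = 8 := by simp [hi]
        rw [e8]
        refine Finset.prod_congr rfl fun j hj => ?_
        rw [h1 j hj]
        norm_num
      · rw [if_neg hi]
        have e0 : ((fun i : ℕ => if i < 2 then 8 else 0) i : ℕ) = 0 := by simp [hi]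
        rw [e0]
        simp
    rw [Finset.prod_congr rfl h2]
    simp only [Finset.prod_range_succ, Finset.prod_range_zero, one_mul, Nat.reduceLT, if_true,
      if_false, mul_one, Nat.cast_zero, Nat.cast_one, Nat.cast_ofNat]
    norm_num
    ring
  · obtain ⟨q, h1, h2⟩ := isD_J (n := 16) τ hτ
    exact ⟨q, _, h1, h2⟩


/-- The negation of the preceding statement: For all partitions λ, μ of d, the Schur coefficient of the integral Jack polynomial J_λ (α=1/τ) at s_μ has nonnegative integer coefficients in both binomial bases, and both coefficient polynomials A, B have only real roots (zero polynomial allowed). -/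
theorem result :
    ¬ (∀ d : ℕ, 1 ≤ d → ∀ lam mu : ℕ → ℕ, Antitone lam → Antitone mu →
    (∀ i, d ≤ i → lam i = 0) → (∀ i, d ≤ i → mu i = 0) →
    ∑ i ∈ Finset.range d, lam i = d → ∑ i ∈ Finset.range d, mu i = d →
    ∀ J : ℝ → MvPolynomial (Fin d) ℝ,
    (∀ τ : ℝ, 0 < τ →
      (J τ).IsSymmetric ∧
      (∀ m ∈ (J τ).support, ∑ i, m i = d ∧
        ∀ S : Finset (Fin d), ∑ i ∈ S, m i ≤ ∑ i ∈ Finset.range S.card, lam i) ∧
      MvPolynomial.coeff (Finsupp.equivFunOnFinite.symm (fun i : Fin d => lam (i : ℕ))) (J τ) =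
        ∏ i ∈ Finset.range d, ∏ j ∈ Finset.range (lam i),
          (τ * ((((Finset.range d).filter (fun k => j < lam k)).card : ℝ) - (i : ℝ))
            + ((lam i : ℝ) - (j : ℝ) - 1)) ∧
      ∃ q : Fin d → Fin d → MvPolynomial (Fin d) ℝ, ∃ e : ℝ,
        (∀ i j : Fin d, i < j →
          (MvPolynomial.X i - MvPolynomial.X j) * q i j =
            MvPolynomial.X i ^ 2 * MvPolynomial.pderiv i (J τ)
              - MvPolynomial.X j ^ 2 * MvPolynomial.pderiv j (J τ)) ∧
        ∑ i : Fin d, MvPolynomial.X i ^ 2 * MvPolynomial.pderiv i (MvPolynomial.pderiv i (J τ))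
          + MvPolynomial.C (2 * τ) * ∑ i : Fin d, ∑ j : Fin d, (if i < j then q i j else 0)
          = MvPolynomial.C e * J τ) →
    ∃ a b : ℕ → ℕ,
      (∀ τ : ℝ, 0 < τ →
        MvPolynomial.coeff
            (Finsupp.equivFunOnFinite.symm (fun i : Fin d => mu (i : ℕ) + (d - 1 - (i : ℕ))))
            (J τ * ∏ i : Fin d, ∏ j : Fin d,
              (if i < j then MvPolynomial.X i - MvPolynomial.X j
                else (1 : MvPolynomial (Fin d) ℝ)))
          = ∑ j ∈ Finset.range d,
              (a j : ℝ) * ((descPochhammer ℝ d).eval (τ + (j : ℝ)) / (d.factorial : ℝ))) ∧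
      (∀ τ : ℝ, 0 < τ →
        MvPolynomial.coeff
            (Finsupp.equivFunOnFinite.symm (fun i : Fin d => mu (i : ℕ) + (d - 1 - (i : ℕ))))
            (J τ * ∏ i : Fin d, ∏ j : Fin d,
              (if i < j then MvPolynomial.X i - MvPolynomial.X j
                else (1 : MvPolynomial (Fin d) ℝ)))
          = ∑ j ∈ Finset.Icc 1 d, (b (d - j) : ℝ) * (descPochhammer ℝ j).eval τ) ∧
      ((∃ j < d, a j ≠ 0) →
        ∀ z : ℂ, ∑ j ∈ Finset.range d, (a j : ℂ) * z ^ j = 0 → z.im = 0) ∧
      ((∃ j ∈ Finset.Icc 1 d, b (d - j) ≠ 0) →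
        ∀ z : ℂ, ∑ j ∈ Finset.Icc 1 d, (b (d - j) : ℂ) * z ^ j = 0 → z.im = 0)) := by
  intro H
  obtain ⟨a, b, ha, -, hA, -⟩ := H 16 (by norm_num) (fun i => if i < 2 then 8 else 0)
    (fun i => if i < 8 then 2 else 0)
    (by intro i j hij; beta_reduce; split_ifs <;> omega)
    (by intro i j hij; beta_reduce; split_ifs <;> omega)
    (by intro i hi; beta_reduce; rw [if_neg (by omega)])
    (by intro i hi; beta_reduce; rw [if_neg (by omega)])
    (by decide) (by decide) Pool.Agent.MPcdddd3.J cond_J
  clear H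
  have hee : (fun i : Fin 16 => (fun i : ℕ => if i < 8 then 2 else 0) (i : ℕ) + (16 - 1 - (i : ℕ)))
      = Pool.Agent.MPcdddd3.ee := by
    decide
  have key : ∀ T : ℕ, 0 < T → Pool.Agent.MPcdddd3.val (T : ℝ)
      = ∑ j ∈ Finset.range 16, (a j : ℝ) * ((T + j).choose 16 : ℝ) := by
    intro T hT
    have h := ha (T : ℝ) (by exact_mod_cast hT)
    rw [hee, Pool.Agent.MPcdddd3.schur_coeff] at h
    unfold Pool.Agent.MPcdddd3.val
    rw [h]
    refine Finset.sum_congr rfl fun j _ => ?_
    rw [← descPoch (T + j)]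
    push_cast
    rfl
  clear ha
  have k1 := key 1 (by norm_num)
  have a15 : (a 15 : ℝ) = 0 := by
    simp only [Finset.sum_range_succ, Finset.sum_range_zero, Nat.cast_ofNat, Nat.cast_one] at k1
    rw [Pool.Agent.MPcdddd3.val1] at k1
    norm_num [Nat.choose] at k1
    linarith
  have k2 := key 2 (by norm_num)
  have a14 : (a 14 : ℝ) = 0 := by
    simp only [Finset.sum_range_succ, Finset.sum_range_zero, Nat.cast_ofNat, Nat.cast_one] at k2
    rw [Pool.Agent.MPcdddd3.val2] at k2
    norm_num [Nat.choose, a15] at k2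
    linarith
  have k3 := key 3 (by norm_num)
  have a13 : (a 13 : ℝ) = 0 := by
    simp only [Finset.sum_range_succ, Finset.sum_range_zero, Nat.cast_ofNat, Nat.cast_one] at k3
    rw [Pool.Agent.MPcdddd3.val3] at k3
    norm_num [Nat.choose, a15, a14] at k3
    linarith
  have k4 := key 4 (by norm_num)
  have a12 : (a 12 : ℝ) = 804722688000 := by
    simp only [Finset.sum_range_succ, Finset.sum_range_zero, Nat.cast_ofNat, Nat.cast_one] at k4
    rw [Pool.Agent.MPcdddd3.val4] at k4
    norm_num [Nat.choose, a15, a14, a13] at k4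
    linarith
  have k5 := key 5 (by norm_num)
  have a11 : (a 11 : ℝ) = 68516388864000 := by
    simp only [Finset.sum_range_succ, Finset.sum_range_zero, Nat.cast_ofNat, Nat.cast_one] at k5
    rw [Pool.Agent.MPcdddd3.val5] at k5
    norm_num [Nat.choose, a15, a14, a13, a12] at k5
    linarith
  have k6 := key 6 (by norm_num)
  have a10 : (a 10 : ℝ) = 1568059637760000 := by
    simp only [Finset.sum_range_succ, Finset.sum_range_zero, Nat.cast_ofNat, Nat.cast_one] at k6
    rw [Pool.Agent.MPcdddd3.val6] at k6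
    norm_num [Nat.choose, a15, a14, a13, a12, a11] at k6
    linarith
  have k7 := key 7 (by norm_num)
  have a9 : (a 9 : ℝ) = 15222991343616000 := by
    simp only [Finset.sum_range_succ, Finset.sum_range_zero, Nat.cast_ofNat, Nat.cast_one] at k7
    rw [Pool.Agent.MPcdddd3.val7] at k7
    norm_num [Nat.choose, a15, a14, a13, a12, a11, a10] at k7
    linarith
  have k8 := key 8 (by norm_num)
  have a8 : (a 8 : ℝ) = 68260823569612800 := by
    simp only [Finset.sum_range_succ, Finset.sum_range_zero, Nat.cast_ofNat, Nat.cast_one] at k8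
    rw [Pool.Agent.MPcdddd3.val8] at k8
    norm_num [Nat.choose, a15, a14, a13, a12, a11, a10, a9] at k8
    linarith
  have k9 := key 9 (by norm_num)
  have a7 : (a 7 : ℝ) = 146689299490406400 := by
    simp only [Finset.sum_range_succ, Finset.sum_range_zero, Nat.cast_ofNat, Nat.cast_one] at k9
    rw [Pool.Agent.MPcdddd3.val9] at k9
    norm_num [Nat.choose, a15, a14, a13, a12, a11, a10, a9, a8] at k9
    linarith
  have k10 := key 10 (by norm_num)
  have a6 : (a 6 : ℝ) = 154554571254988800 := by
    simp only [Finset.sum_range_succ, Finset.sum_range_zero, Nat.cast_ofNat, Nat.cast_one] at k10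
    rw [Pool.Agent.MPcdddd3.val10] at k10
    norm_num [Nat.choose, a15, a14, a13, a12, a11, a10, a9, a8, a7] at k10
    linarith
  have k11 := key 11 (by norm_num)
  have a5 : (a 5 : ℝ) = 79659352571904000 := by
    simp only [Finset.sum_range_succ, Finset.sum_range_zero, Nat.cast_ofNat, Nat.cast_one] at k11
    rw [Pool.Agent.MPcdddd3.val11] at k11
    norm_num [Nat.choose, a15, a14, a13, a12, a11, a10, a9, a8, a7, a6] at k11
    linarith
  have k12 := key 12 (by norm_num)
  have a4 : (a 4 : ℝ) = 19314619527168000 := by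
    simp only [Finset.sum_range_succ, Finset.sum_range_zero, Nat.cast_ofNat, Nat.cast_one] at k12
    rw [Pool.Agent.MPcdddd3.val12] at k12
    norm_num [Nat.choose, a15, a14, a13, a12, a11, a10, a9, a8, a7, a6, a5] at k12
    linarith
  have k13 := key 13 (by norm_num)
  have a3 : (a 3 : ℝ) = 2004440894668800 := by
    simp only [Finset.sum_range_succ, Finset.sum_range_zero, Nat.cast_ofNat, Nat.cast_one] at k13
    rw [Pool.Agent.MPcdddd3.val13] at k13
    norm_num [Nat.choose, a15, a14, a13, a12, a11, a10, a9, a8, a7, a6, a5, a4] at k13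
    linarith
  have k14 := key 14 (by norm_num)
  have a2 : (a 2 : ℝ) = 73236035174400 := by
    simp only [Finset.sum_range_succ, Finset.sum_range_zero, Nat.cast_ofNat, Nat.cast_one] at k14
    rw [Pool.Agent.MPcdddd3.val14] at k14
    norm_num [Nat.choose, a15, a14, a13, a12, a11, a10, a9, a8, a7, a6, a5, a4, a3] at k14
    linarith
  have k15 := key 15 (by norm_num)
  have a1 : (a 1 : ℝ) = 597793996800 := by
    simp only [Finset.sum_range_succ, Finset.sum_range_zero, Nat.cast_ofNat, Nat.cast_one] at k15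
    rw [Pool.Agent.MPcdddd3.val15] at k15
    norm_num [Nat.choose, a15, a14, a13, a12, a11, a10, a9, a8, a7, a6, a5, a4, a3, a2] at k15
    linarith
  have k16 := key 16 (by norm_num)
  have a0 : (a 0 : ℝ) = 0 := by
    simp only [Finset.sum_range_succ, Finset.sum_range_zero, Nat.cast_ofNat, Nat.cast_one] at k16
    rw [Pool.Agent.MPcdddd3.val16] at k16
    norm_num [Nat.choose, a15, a14, a13, a12, a11, a10, a9, a8, a7, a6, a5, a4, a3, a2, a1] at k16
    linarith
  have n0 : a 0 = 0 := by exact_mod_cast a0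
  have n1 : a 1 = 597793996800 := by exact_mod_cast a1
  have n2 : a 2 = 73236035174400 := by exact_mod_cast a2
  have n3 : a 3 = 2004440894668800 := by exact_mod_cast a3
  have n4 : a 4 = 19314619527168000 := by exact_mod_cast a4
  have n5 : a 5 = 79659352571904000 := by exact_mod_cast a5
  have n6 : a 6 = 154554571254988800 := by exact_mod_cast a6
  have n7 : a 7 = 146689299490406400 := by exact_mod_cast a7
  have n8 : a 8 = 68260823569612800 := by exact_mod_cast a8
  have n9 : a 9 = 15222991343616000 := by exact_mod_cast a9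
  have n10 : a 10 = 1568059637760000 := by exact_mod_cast a10
  have n11 : a 11 = 68516388864000 := by exact_mod_cast a11
  have n12 : a 12 = 804722688000 := by exact_mod_cast a12
  have n13 : a 13 = 0 := by exact_mod_cast a13
  have n14 : a 14 = 0 := by exact_mod_cast a14
  have n15 : a 15 = 0 := by exact_mod_cast a15
  have hA' := hA ⟨1, by norm_num, by rw [n1]; norm_num⟩
  refine Pool.Agent.MPcdddd3.not_real_rooted fun z hz => hA' z ?_
  simp only [Finset.sum_range_succ, Finset.sum_range_zero, n0, n1, n2, n3, n4, n5, n6, n7, n8, n9,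
    n10, n11, n12, n13, n14, n15]
  push_cast
  linear_combination (2090188800 * z) * hz

end Pool.Agent.S11508
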