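import Pool.Statements.S11753
import Pool.Agent.Lib.MP_d89fb5_co.Conv

set_option autoImplicit false
open Pool Pool.MP_d89fb5_co

namespace Pool.Agent.S11753

/-- For all k ≥ 3 and even r ≥ 6, every finite simple graph with at least rk vertices and average degree at least rk−2 has k pairwise vertex-disjoint cycles, each of length at least r. -/
theorem result :
    ∀ (k r : ℕ), 3 ≤ k → 6 ≤ r → Even r →
    ∀ (V : Type) [Fintype V] [DecidableEq V] (G : SimpleGraph V) [DecidableRel G.Adj],
      r * k ≤ Fintype.card V →
      (r * k - 2) * Fintype.card V ≤ 2 * G.edgeFinset.card →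
      ∃ (u : Fin k → V) (c : ∀ i, G.Walk (u i) (u i)),
        (∀ i, (c i).IsCycle ∧ r ≤ (c i).length) ∧
        ∀ i j, i ≠ j → Disjoint (c i).support.toFinset (c j).support.toFinset := by
  intro k r hk hr hev V _ _ G _ hV hE
  exact Pool.Agent.MPd89fb5.final k r hk hr hev V G hV hE

end Pool.Agent.S11753
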