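import Pool.Statements.S12439
-- import your own Pool.Agent.* helpers here
import Pool.Agent.Lib.MP_f6404a_co.Ring

set_option autoImplicit false
open Pool Pool.MP_f6404a_co

namespace Pool.Agent.S12439

/-- There are connected vertex-transitive graphs of degree at most D with vertex counts tending to infinity, and radii d_n, such that the d_n-sphere has at least half the vertices, 99% of it has no neighbour at distance d_n+1, and diameter is at least 1.9 d_n. -/
theorem result :
    ∃ (D : ℕ) (N : ℕ → ℕ) (G : ∀ n, SimpleGraph (Fin (N n))) (d : ℕ → ℕ),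
      Filter.Tendsto N Filter.atTop Filter.atTop ∧
      ∀ n, (G n).Connected ∧
        (∀ u v : Fin (N n), ∃ φ : G n ≃g G n, φ u = v) ∧
        (∀ v : Fin (N n), ((G n).neighborSet v).ncard ≤ D) ∧
        ∃ v₀ : Fin (N n),
          N n ≤ 2 * {v : Fin (N n) | (G n).dist v₀ v = d n}.ncard ∧
          99 * {v : Fin (N n) | (G n).dist v₀ v = d n}.ncard ≤
            100 * {v : Fin (N n) | (G n).dist v₀ v = d n ∧
              ∀ w : Fin (N n), (G n).Adj v w → (G n).dist v₀ w ≠ d n + 1}.ncard ∧
          19 * d n ≤ 10 * (G n).diam := by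
  choose M d G hM hG using fun n : ℕ => Pool.Agent.MP_f6404a_co.exists_graph (n + 2) (by omega)
  refine ⟨27 * 1009 ^ 2, M, G, d, ?_, ?_⟩
  · apply Filter.tendsto_atTop_mono (f := fun n : ℕ => n) _ Filter.tendsto_id
    intro n
    have := hM n
    omega
  · intro n
    obtain ⟨h1, h2, h3, v₀, h4, h5, h6⟩ := hG n
    refine ⟨h1, h2, h3, v₀, ?_, h5, h6⟩
    rw [Nat.card_fin] at h4
    exact h4

end Pool.Agent.S12439
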