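import Pool.Statements.S13221
import Pool.Agent.Lib.MP_5a68e6_TOR.Fin

set_option autoImplicit false
open Pool Pool.MP_5a68e6_gt

namespace Pool.Agent.S13221

/-- Every non-separable, completely metrizable convex subset of a metrizable real topological vector space that is an absolute retract for metrizable spaces is homeomorphic to a Hilbert space ℓ²(ι) for some index set ι. -/
theorem result :
    ∀ (E : Type) [AddCommGroup E] [Module ℝ E] [TopologicalSpace E]
      [IsTopologicalAddGroup E] [ContinuousSMul ℝ E]
      [TopologicalSpace.MetrizableSpace E] (C : Set E),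
      Convex ℝ C →
      TopologicalSpace.IsCompletelyMetrizableSpace C →
      ¬ TopologicalSpace.SeparableSpace C →
      (∀ (Y : Type) [TopologicalSpace Y] [TopologicalSpace.MetrizableSpace Y]
          (A : Set Y), IsClosed A → ∀ f : A → C, Continuous f →
            ∃ g : Y → C, Continuous g ∧ ∀ a : A, g a = f a) →
      ∃ ι : Type, Nonempty (C ≃ₜ lp (fun _ : ι => ℝ) (2 : ENNReal)) := by
  exact Pool.Agent.TOR.final

end Pool.Agent.S13221
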