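import Pool.Statements.S13500
-- import your own Pool.Agent.* helpers here
import Pool.Agent.Lib.MP_8848fa_gt.Assembly
import Pool.Agent.Lib.MP_8848fa_gt.StepB

set_option autoImplicit false
open Pool Pool.MP_8848fa_gt

namespace Pool.Agent.S13500

/-- The negation of the preceding statement: Every separable metric space that is a countable union of finite-dimensional subspaces and has infinite large inductive dimension contains, for each natural n, a closed subspace of large inductive dimension exactly n. -/
theorem result :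
    ¬ (∀ (X : Type) [MetricSpace X] [TopologicalSpace.SeparableSpace X]
      (P : ℕ → Set X → Prop),
      (∀ B : Set X, P 0 B ↔ B = ∅) →
      (∀ (k : ℕ) (B : Set X), P (k + 1) B ↔
        ∀ C U : Set X, IsClosed C → IsOpen U → C ∩ B ⊆ U →
          ∃ V : Set X, IsOpen V ∧ C ∩ B ⊆ V ∧
            closure (V ∩ B) ∩ B ⊆ U ∧
            P k ((closure (V ∩ B) ∩ B) \ V)) →
      (∃ Z : ℕ → Set X, (∀ i, ∃ k, P k (Z i)) ∧ (⋃ i, Z i) = Set.univ) →
      (∀ k : ℕ, ¬ P k Set.univ) →
      ∀ n : ℕ, ∃ A : Set X, IsClosed A ∧ P (n + 1) A ∧ ¬ P n A) := by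
  obtain ⟨T, hT⟩ := Pool.Agent.ZD8848.exists_TSet
  exact Pool.Agent.ZD8848.final_of hT (Pool.Agent.ZD8848.not_dd hT)

end Pool.Agent.S13500
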