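-- Proof of the negation: a core compact T0 space that is not a Rudin space.
import Pool.Statements.S13782

set_option autoImplicit false
open Pool Pool.MP_b2bcdc_gt

namespace Pool.Agent.S13782

open Set

/-- A well-ordered set of type `omega_1`. -/
abbrev Z : Type := (Cardinal.aleph 1 : Cardinal.{0}).ord.ToType

theorem exists_inj : ∃ e : Z → ℝ, Function.Injective e := by
  have h : Cardinal.mk Z ≤ Cardinal.mk ℝ := by
    rw [Cardinal.mk_ord_toType, Cardinal.mk_real]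
    exact Cardinal.aleph_one_le_continuum
  obtain ⟨f⟩ := (Cardinal.le_def _ _).mp h
  exact ⟨f, f.injective⟩

/-- An injection of `omega_1` into the reals. -/
noncomputable def e : Z → ℝ := Classical.choose exists_inj

theorem e_inj : Function.Injective e := Classical.choose_spec exists_inj

theorem countable_Iio (i : Z) : (Set.Iio i).Countable := by
  have h : Cardinal.mk (Set.Iio i) < Cardinal.mk Z := Cardinal.mk_Iio_lt i (by simp)
  rw [← Cardinal.le_aleph0_iff_set_countable]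
  have h2 : Cardinal.mk (Set.Iio i) < Order.succ Cardinal.aleph0 := by
    rw [Cardinal.succ_aleph0]
    exact lt_of_lt_of_eq h (Cardinal.mk_ord_toType _)
  exact Order.lt_succ_iff.mp h2

theorem not_countable_univ : ¬ (Set.univ : Set Z).Countable := by
  intro h
  rw [← Cardinal.le_aleph0_iff_set_countable, Cardinal.mk_univ, Cardinal.mk_ord_toType] at h
  exact absurd h (not_le.mpr Cardinal.aleph0_lt_aleph_one)

/-- Every countable set of elements is strictly bounded. -/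
theorem exists_gt_all {s : Set Z} (hs : s.Countable) : ∃ b, ∀ x ∈ s, x < b := by
  by_contra h
  push Not at h
  apply not_countable_univ
  have hc : (⋃ x ∈ s, Set.Iic x).Countable := by
    refine hs.biUnion (fun x _ => ?_)
    have : Set.Iic x = insert x (Set.Iio x) := by
      ext y; simp [le_iff_eq_or_lt]
    rw [this]
    exact (countable_Iio x).insert x
  refine hc.mono ?_
  intro b _
  obtain ⟨x, hx, hbx⟩ := h b
  exact Set.mem_biUnion hx hbx

theorem exists_gt_seq (f : ℕ → Z) : ∃ b, ∀ n, f n < b := by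
  obtain ⟨b, hb⟩ := exists_gt_all (Set.countable_range f)
  exact ⟨b, fun n => hb _ ⟨n, rfl⟩⟩

theorem exists_gt_two (x y : Z) : ∃ b, x < b ∧ y < b := by
  obtain ⟨b, hb⟩ := exists_gt_all (s := {x, y}) (Set.toFinite _).countable
  exact ⟨b, hb x (by simp), hb y (by simp)⟩

/-- The underlying set of the counterexample. -/
def X : Type := Z × ℚ

/-- The real height of a point. -/
noncomputable def lev (x : X) : ℝ := e x.1 + (x.2 : ℝ)

/-- Basic neighbourhoods. -/
def Nb (a : WithBot Z) (g : Z) (r : ℝ) (z : Z) : Set X :=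
  {y | r < lev y ∧ ((a < (y.1 : WithBot Z) ∧ y.1 ≤ z) ∨ g < y.1)}

theorem Nb_mono {a a' : WithBot Z} {g g' : Z} {r r' : ℝ} {z z' : Z}
    (ha : a ≤ a') (hg : g ≤ g') (hr : r ≤ r') (hz : z' ≤ z) :
    Nb a' g' r' z' ⊆ Nb a g r z := by
  rintro y ⟨h1, h2⟩
  refine ⟨lt_of_le_of_lt hr h1, ?_⟩
  rcases h2 with ⟨h2, h3⟩ | h2
  · exact Or.inl ⟨lt_of_le_of_lt ha h2, h3.trans hz⟩
  · exact Or.inr (lt_of_le_of_lt hg h2)

instance : TopologicalSpace X where
  IsOpen W := ∀ x ∈ W, ∃ (a : WithBot Z) (g : Z) (r : ℝ), a < (x.1 : WithBot Z) ∧ r < lev x ∧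
    Nb a g r x.1 ⊆ W
  isOpen_univ := by
    intro x _
    exact ⟨⊥, x.1, lev x - 1, WithBot.bot_lt_coe _, by linarith, Set.subset_univ _⟩
  isOpen_inter := by
    intro U V hU hV x hx
    obtain ⟨a, g, r, h1, h2, h3⟩ := hU x hx.1
    obtain ⟨a', g', r', h1', h2', h3'⟩ := hV x hx.2
    refine ⟨max a a', max g g', max r r', max_lt h1 h1', max_lt h2 h2', ?_⟩
    exact Set.subset_inter
      ((Nb_mono (le_max_left _ _) (le_max_left _ _) (le_max_left _ _) le_rfl).trans h3)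
      ((Nb_mono (le_max_right _ _) (le_max_right _ _) (le_max_right _ _) le_rfl).trans h3')
  isOpen_sUnion := by
    intro S hS x hx
    obtain ⟨U, hU, hxU⟩ := hx
    obtain ⟨a, g, r, h1, h2, h3⟩ := hS U hU x hxU
    exact ⟨a, g, r, h1, h2, h3.trans (Set.subset_sUnion_of_mem hU)⟩

theorem isOpen_def (W : Set X) : IsOpen W ↔ ∀ x ∈ W, ∃ (a : WithBot Z) (g : Z) (r : ℝ),
    a < (x.1 : WithBot Z) ∧ r < lev x ∧ Nb a g r x.1 ⊆ W := Iff.rfl

theorem self_mem_Nb {a : WithBot Z} {g : Z} {r : ℝ} {x : X} (h1 : a < (x.1 : WithBot Z))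
    (h2 : r < lev x) : x ∈ Nb a g r x.1 := ⟨h2, Or.inl ⟨h1, le_rfl⟩⟩

/-- The basic neighbourhoods are open. -/
theorem isOpen_Nb (a : WithBot Z) (g : Z) (r : ℝ) (z : Z) : IsOpen (Nb a g r z) := by
  rw [isOpen_def]
  rintro x ⟨h1, h2⟩
  rcases h2 with ⟨h2, h3⟩ | h2
  · exact ⟨a, g, r, h2, h1, Nb_mono le_rfl le_rfl le_rfl h3⟩
  · refine ⟨(g : WithBot Z), g, r, by exact_mod_cast h2, h1, ?_⟩
    rintro y ⟨h4, h5⟩
    refine ⟨h4, Or.inr ?_⟩
    rcases h5 with ⟨h5, _⟩ | h5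
    · exact_mod_cast h5
    · exact h5

theorem isOpen_height (r : ℝ) : IsOpen {y : X | r < lev y} := by
  rw [isOpen_def]
  intro x hx
  exact ⟨⊥, x.1, r, WithBot.bot_lt_coe _, hx, fun y hy => hy.1⟩

theorem isOpen_ne (z : Z) : IsOpen {y : X | y.1 ≠ z} := by
  rw [isOpen_def]
  intro x hx
  rcases lt_or_gt_of_ne (show x.1 ≠ z from hx) with h | h
  · refine ⟨⊥, z, lev x - 1, WithBot.bot_lt_coe _, by linarith, ?_⟩
    rintro y ⟨_, h2⟩
    rcases h2 with ⟨_, h2⟩ | h2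
    · exact (lt_of_le_of_lt h2 h).ne
    · exact h2.ne'
  · refine ⟨(z : WithBot Z), z, lev x - 1, by exact_mod_cast h, by linarith, ?_⟩
    rintro y ⟨_, h2⟩
    rcases h2 with ⟨h2, _⟩ | h2
    · have : z < y.1 := by exact_mod_cast h2
      exact this.ne'
    · exact h2.ne'

theorem isClosed_le (g : Z) : IsClosed {y : X | y.1 ≤ g} := by
  rw [← isOpen_compl_iff, isOpen_def]
  intro x hx
  have hx' : g < x.1 := not_le.mp hx
  refine ⟨(g : WithBot Z), g, lev x - 1, by exact_mod_cast hx', by linarith, ?_⟩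
  rintro y ⟨_, h2⟩
  rcases h2 with ⟨h2, _⟩ | h2
  · have : g < y.1 := by exact_mod_cast h2
    exact not_le.mpr this
  · exact not_le.mpr h2

theorem isClosed_height (r : ℝ) : IsClosed {y : X | lev y ≤ r} := by
  rw [← isOpen_compl_iff]
  have : {y : X | lev y ≤ r}ᶜ = {y : X | r < lev y} := by
    ext y; simp
  rw [this]
  exact isOpen_height r

/-- Closed boxes. -/
theorem isClosed_box (b d : Z) (r : ℝ) : IsClosed {y : X | b < y.1 ∧ y.1 ≤ d ∧ lev y ≤ r} := by
  rw [← isOpen_compl_iff, isOpen_def]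
  intro x hx
  by_cases h1 : lev x ≤ r
  · by_cases h2 : x.1 ≤ b
    · refine ⟨⊥, d, lev x - 1, WithBot.bot_lt_coe _, by linarith, ?_⟩
      rintro y ⟨_, h3⟩ ⟨h4, h5, _⟩
      rcases h3 with ⟨_, h3⟩ | h3
      · exact absurd (h3.trans h2) (not_le.mpr h4)
      · exact absurd h5 (not_le.mpr h3)
    · have h3 : d < x.1 := by
        by_contra h4
        exact hx ⟨not_le.mp h2, not_lt.mp h4, h1⟩
      refine ⟨(d : WithBot Z), d, lev x - 1, by exact_mod_cast h3, by linarith, ?_⟩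
      rintro y ⟨_, h4⟩ ⟨_, h5, _⟩
      rcases h4 with ⟨h4, _⟩ | h4
      · have : d < y.1 := by exact_mod_cast h4
        exact absurd h5 (not_le.mpr this)
      · exact absurd h5 (not_le.mpr h4)
  · refine ⟨⊥, d, r, WithBot.bot_lt_coe _, not_le.mp h1, ?_⟩
    rintro y ⟨h3, _⟩ ⟨_, _, h5⟩
    exact absurd h5 (not_le.mpr h3)

instance : T0Space X := by
  rw [t0Space_iff_not_inseparable]
  intro x y hxy hins
  have key := inseparable_iff_forall_isOpen.mp hins
  by_cases h : x.1 = y.1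
  · have hlev : lev x ≠ lev y := by
      intro hl
      apply hxy
      have h2 : (x.2 : ℝ) = (y.2 : ℝ) := by
        unfold lev at hl
        rw [h] at hl
        linarith
      exact Prod.ext h (by exact_mod_cast h2)
    rcases lt_or_gt_of_ne hlev with h1 | h1
    · have h3 : lev x < lev x := (key _ (isOpen_height (lev x))).mpr h1
      exact lt_irrefl _ h3
    · have h3 : lev y < lev y := (key _ (isOpen_height (lev y))).mp h1
      exact lt_irrefl _ h3
  · exact (key _ (isOpen_ne y.1)).mp h rfl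

/-- The finite covering argument on the base, bounded part. -/
theorem cover_bounded (C : Set (Set X)) (r : ℝ) (a : WithBot Z) (z : Z)
    (h : ∀ w : Z, a < (w : WithBot Z) → w ≤ z → ∃ G ∈ C, ∃ (b : WithBot Z) (g : Z),
      b < (w : WithBot Z) ∧ Nb b g r w ⊆ G) :
    ∃ D ⊆ C, D.Finite ∧ {y : X | r < lev y ∧ a < (y.1 : WithBot Z) ∧ y.1 ≤ z} ⊆ ⋃₀ D := by
  induction z using WellFoundedLT.induction with
  | ind z ih =>
    by_cases haz : a < (z : WithBot Z)
    · obtain ⟨G, hG, b, g, hb, hsub⟩ := h z haz le_rfl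
      rcases le_or_gt b a with hba | hab
      · refine ⟨{G}, by simpa using hG, Set.finite_singleton _, ?_⟩
        rintro y ⟨h1, h2, h3⟩
        refine ⟨G, rfl, hsub ⟨h1, Or.inl ⟨lt_of_le_of_lt hba h2, h3⟩⟩⟩
      · obtain ⟨b', rfl⟩ : ∃ b' : Z, (b' : WithBot Z) = b := by
          have : b ≠ ⊥ := (lt_of_le_of_lt bot_le hab).ne'
          exact ⟨_, WithBot.coe_unbot _ this⟩
        have hb' : b' < z := by exact_mod_cast hb
        obtain ⟨D, hD, hDf, hDc⟩ := ih b' hb' (fun w hw hwb => h w hw (hwb.trans hb'.le))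
        refine ⟨insert G D, Set.insert_subset hG hD, hDf.insert G, ?_⟩
        rintro y ⟨h1, h2, h3⟩
        rcases le_or_gt y.1 b' with h4 | h4
        · obtain ⟨W, hW, hyW⟩ := hDc ⟨h1, h2, h4⟩
          exact ⟨W, Set.mem_insert_of_mem _ hW, hyW⟩
        · exact ⟨G, Set.mem_insert _ _, hsub ⟨h1, Or.inl ⟨by exact_mod_cast h4, h3⟩⟩⟩
    · refine ⟨∅, Set.empty_subset _, Set.finite_empty, ?_⟩
      rintro y ⟨_, h2, h3⟩
      exact absurd (lt_of_lt_of_le h2 (by exact_mod_cast h3)) haz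

/-- Core compactness of the space. -/
theorem core_compact : ∀ U : Set X, IsOpen U → ∀ x ∈ U, ∃ V : Set X, IsOpen V ∧ x ∈ V ∧ V ⊆ U ∧
        ∀ 𝒰 : Set (Set X), (∀ W ∈ 𝒰, IsOpen W) → U ⊆ ⋃₀ 𝒰 →
          ∃ 𝒱 ⊆ 𝒰, 𝒱.Finite ∧ V ⊆ ⋃₀ 𝒱 := by
  intro U hU x hx
  obtain ⟨a, g, r, ha, hr, hsub⟩ := (isOpen_def U).mp hU x hx
  obtain ⟨s, hrs, hs⟩ := exists_between hr
  refine ⟨Nb a g s x.1, isOpen_Nb _ _ _ _, self_mem_Nb ha hs,
    (Nb_mono le_rfl le_rfl hrs.le le_rfl).trans hsub, ?_⟩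
  intro C hC hUC
  -- each base point of the neighbourhood has a good member of the cover
  have key : ∀ w : Z, ((a < (w : WithBot Z) ∧ w ≤ x.1) ∨ g < w) → ∃ G ∈ C,
      ∃ (b : WithBot Z) (g' : Z), b < (w : WithBot Z) ∧ Nb b g' s w ⊆ G := by
    intro w hw
    obtain ⟨q, hq1, hq2⟩ := exists_rat_btwn (show r - e w < s - e w by linarith)
    have hy : ((w, q) : X) ∈ U := hsub ⟨by show r < e w + (q : ℝ); linarith, hw⟩
    obtain ⟨G, hG, hyG⟩ := hUC hy
    obtain ⟨b, g', t, hb, ht, hsubG⟩ := (isOpen_def G).mp (hC G hG) _ hyG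
    refine ⟨G, hG, b, g', hb, (Nb_mono le_rfl le_rfl ?_ le_rfl).trans hsubG⟩
    have : t < e w + (q : ℝ) := ht
    linarith
  obtain ⟨D1, hD1, hD1f, hD1c⟩ := cover_bounded C s a x.1 (fun w h1 h2 => key w (Or.inl ⟨h1, h2⟩))
  obtain ⟨G0, hG0, b0, g0, hb0, hG0s⟩ := key x.1 (Or.inl ⟨ha, le_rfl⟩)
  obtain ⟨D2, hD2, hD2f, hD2c⟩ := cover_bounded C s (g : WithBot Z) g0
    (fun w h1 _ => key w (Or.inr (by exact_mod_cast h1)))
  refine ⟨insert G0 (D1 ∪ D2), Set.insert_subset hG0 (Set.union_subset hD1 hD2),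
    (hD1f.union hD2f).insert G0, ?_⟩
  rintro y ⟨h1, h2⟩
  rcases h2 with ⟨h2, h3⟩ | h2
  · obtain ⟨W, hW, hyW⟩ := hD1c ⟨h1, h2, h3⟩
    exact ⟨W, Set.mem_insert_of_mem _ (Or.inl hW), hyW⟩
  · rcases le_or_gt y.1 g0 with h4 | h4
    · obtain ⟨W, hW, hyW⟩ := hD2c ⟨h1, by exact_mod_cast h2, h4⟩
      exact ⟨W, Set.mem_insert_of_mem _ (Or.inr hW), hyW⟩
    · exact ⟨G0, Set.mem_insert _ _, hG0s ⟨h1, Or.inr h4⟩⟩

/-- The whole space is irreducible. -/
theorem irreducible_univ : IsIrreducible (Set.univ : Set X) := by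
  obtain ⟨z0, -⟩ := exists_gt_all (s := (∅ : Set Z)) Set.countable_empty
  refine ⟨⟨(z0, 0), trivial⟩, ?_⟩
  rintro U V hU hV ⟨x, _, hx⟩ ⟨y, _, hy⟩
  obtain ⟨a, g, r, ha, hr, hsub⟩ := (isOpen_def U).mp hU x hx
  obtain ⟨a', g', r', ha', hr', hsub'⟩ := (isOpen_def V).mp hV y hy
  obtain ⟨w, hw, hw'⟩ := exists_gt_two g g'
  obtain ⟨q, hq⟩ := exists_rat_gt (max r r' - e w)
  have h1 : r < e w + (q : ℝ) := by
    have := le_max_left r r'
    linarith
  have h2 : r' < e w + (q : ℝ) := by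
    have := le_max_right r r'
    linarith
  exact ⟨(w, q), trivial, hsub ⟨h1, Or.inr hw⟩, hsub' ⟨h2, Or.inr hw'⟩⟩

/-- Main point: a compact subset has bounded projection to the base. -/
theorem compact_bounded (K : Set X) (hK : IsCompact K) : ∃ g : Z, ∀ y ∈ K, y.1 ≤ g := by
  by_contra hcon
  push Not at hcon
  -- `Unb r`: the part of `K` of height at most `r` is unbounded
  let Unb : ℝ → Prop := fun r => ∀ g : Z, ∃ y ∈ K, g < y.1 ∧ lev y ≤ r
  have hmono : ∀ r s : ℝ, r ≤ s → Unb r → Unb s := by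
    intro r s hrs h g
    obtain ⟨y, hy, h1, h2⟩ := h g
    exact ⟨y, hy, h1, h2.trans hrs⟩
  have hne : ∃ n : ℕ, Unb n := by
    by_contra h
    have h' : ∀ n : ℕ, ∃ g : Z, ∀ y ∈ K, g < y.1 → ¬ lev y ≤ n := by
      intro n
      by_contra h2
      apply h
      refine ⟨n, fun g => ?_⟩
      by_contra h3
      apply h2
      refine ⟨g, fun y hy h4 h5 => h3 ⟨y, hy, h4, h5⟩⟩
    choose f hf using h'
    obtain ⟨b, hb⟩ := exists_gt_seq f
    obtain ⟨y, hy, hby⟩ := hcon b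
    obtain ⟨n, hn⟩ := exists_nat_ge (lev y)
    exact hf n y hy ((hb n).trans hby) hn
  have hbelow : ∃ n : ℕ, ∀ y ∈ K, -(n : ℝ) < lev y := by
    by_contra h
    push Not at h
    have := hK.inter_iInter_nonempty (fun n : ℕ => {y : X | lev y ≤ -(n : ℝ)})
      (fun n => isClosed_height _) (by
        intro u
        obtain ⟨y, hy, hyn⟩ := h (u.sup id)
        refine ⟨y, hy, ?_⟩
        simp only [Set.mem_iInter]
        intro i hi
        have h1 : i ≤ u.sup id := Finset.le_sup (f := id) hi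
        have h2 : (i : ℝ) ≤ ((u.sup id : ℕ) : ℝ) := by exact_mod_cast h1
        show lev y ≤ -(i : ℝ)
        linarith)
    obtain ⟨y, _, hy⟩ := this
    obtain ⟨n, hn⟩ := exists_nat_gt (-(lev y))
    have h3 : lev y ≤ -(n : ℝ) := Set.mem_iInter.mp hy n
    linarith
  obtain ⟨n0, hn0⟩ := hne
  obtain ⟨n1, hn1⟩ := hbelow
  obtain ⟨z0, -⟩ := exists_gt_all (s := (∅ : Set Z)) Set.countable_empty
  -- the critical height
  let S : Set ℝ := {r | Unb r}
  have hSne : S.Nonempty := ⟨n0, hn0⟩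
  have hSbdd : BddBelow S := by
    refine ⟨-(n1 : ℝ), fun r hr => ?_⟩
    obtain ⟨y, hy, _, h2⟩ := hr z0
    exact (hn1 y hy).le.trans h2
  set c := sInf S with hc
  have habove : ∀ r, c < r → Unb r := by
    intro r hr
    obtain ⟨s, hs, hsr⟩ := exists_lt_of_csInf_lt hSne hr
    exact hmono s r hsr.le hs
  have hbelow' : ∀ q : ℚ, (q : ℝ) < c → ∃ g : Z, ∀ y ∈ K, g < y.1 → (q : ℝ) < lev y := by
    intro q hq
    by_contra h
    push Not at h
    have : (q : ℝ) ∈ S := fun g => by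
      obtain ⟨y, hy, h1, h2⟩ := h g
      exact ⟨y, hy, h1, h2⟩
    exact absurd (csInf_le hSbdd this) (not_le.mpr hq)
  -- a uniform bound below
  obtain ⟨g1, hg1⟩ : ∃ g1 : Z, ∀ y ∈ K, g1 < y.1 → c ≤ lev y := by
    have h' : ∀ q : ℚ, ∃ g : Z, (q : ℝ) < c → ∀ y ∈ K, g < y.1 → (q : ℝ) < lev y := by
      intro q
      by_cases hq : (q : ℝ) < c
      · obtain ⟨g, hg⟩ := hbelow' q hq
        exact ⟨g, fun _ => hg⟩
      · exact ⟨z0, fun h => absurd h hq⟩
    choose f hf using h'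
    obtain ⟨b, hb⟩ := exists_gt_all (Set.countable_range f)
    refine ⟨b, fun y hy hby => ?_⟩
    by_contra hlt
    push Not at hlt
    obtain ⟨q, hq1, hq2⟩ := exists_rat_btwn hlt
    have := hf q hq2 y hy ((hb _ ⟨q, rfl⟩).trans hby)
    linarith
  -- only countably many base points carry the critical height
  obtain ⟨g2, hg2⟩ : ∃ g2 : Z, ∀ y : X, lev y = c → y.1 < g2 := by
    have hcount : {z : Z | ∃ q : ℚ, e z = c - (q : ℝ)}.Countable := by
      have h1 : (Set.range (fun q : ℚ => c - (q : ℝ))).Countable := Set.countable_range _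
      refine (h1.preimage_of_injOn (f := e) e_inj.injOn).mono ?_
      rintro z ⟨q, hq⟩
      exact ⟨q, hq.symm⟩
    obtain ⟨b, hb⟩ := exists_gt_all hcount
    refine ⟨b, fun y hy => hb _ ⟨y.2, ?_⟩⟩
    unfold lev at hy
    linarith
  -- a strictly increasing sequence of points of `K` with heights tending to `c`
  have hstep : ∀ (n : ℕ) (g : Z), ∃ y ∈ K, g < y.1 ∧ lev y ≤ c + 1 / ((n : ℝ) + 1) := by
    intro n g
    exact habove _ (by have : (0 : ℝ) < 1 / ((n : ℝ) + 1) := by positivity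
                       linarith) g
  choose P hPK hPg hPl using hstep
  let g3 : Z := max g1 g2
  let s : ℕ → X := fun n => Nat.rec (P 0 g3) (fun n x => P (n + 1) x.1) n
  have hs0 : s 0 = P 0 g3 := rfl
  have hss : ∀ n, s (n + 1) = P (n + 1) (s n).1 := fun n => rfl
  have hsK : ∀ n, s n ∈ K := by
    intro n
    cases n with
    | zero => exact hPK _ _
    | succ n => exact hPK _ _
  have hsl : ∀ n, lev (s n) ≤ c + 1 / ((n : ℝ) + 1) := by
    intro n
    cases n with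
    | zero => exact hPl _ _
    | succ n => exact hPl _ _
  have hsmono : StrictMono (fun n => (s n).1) := strictMono_nat_of_lt_succ (fun n => hPg _ _)
  have hsg : g3 < (s 0).1 := hPg _ _
  -- its least upper bound
  obtain ⟨d, hd, hdmin⟩ : ∃ d : Z, (∀ n, (s n).1 < d) ∧ ∀ b, b < d → ∃ n, b < (s n).1 := by
    have hex : ({b : Z | ∀ n, (s n).1 < b}).Nonempty := exists_gt_seq _
    refine ⟨WellFounded.min wellFounded_lt _ hex, WellFounded.min_mem wellFounded_lt _ hex, ?_⟩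
    intro b hb
    by_contra h
    push Not at h
    have hb' : b ∈ {b : Z | ∀ n, (s n).1 < b} := fun n =>
      lt_of_lt_of_le (hsmono (Nat.lt_succ_self n)) (h (n + 1))
    exact WellFounded.not_lt_min wellFounded_lt _ hb' hb
  -- compactness gives a point over `d` of height at most `c`
  obtain ⟨y, hyK, hy⟩ := hK.inter_iInter_nonempty
    (fun i : Set.Iio d × ℕ => {y : X | i.1.1 < y.1 ∧ y.1 ≤ d ∧ lev y ≤ c + 1 / ((i.2 : ℝ) + 1)})
    (fun i => isClosed_box _ _ _) (by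
      intro u
      have : ∃ m : ℕ, ∀ i ∈ u, i.1.1 < (s m).1 ∧ i.2 ≤ m := by
        classical
        induction u using Finset.induction_on with
        | empty => exact ⟨0, by simp⟩
        | insert i u _ ih =>
          obtain ⟨m, hm⟩ := ih
          obtain ⟨k, hk⟩ := hdmin i.1.1 i.1.2
          refine ⟨max m (max k i.2), fun j hj => ?_⟩
          rcases Finset.mem_insert.mp hj with rfl | hj
          · exact ⟨lt_of_lt_of_le hk (hsmono.monotone ((le_max_left _ _).trans (le_max_right _ _))),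
              (le_max_right _ _).trans (le_max_right _ _)⟩
          · exact ⟨lt_of_lt_of_le (hm j hj).1 (hsmono.monotone (le_max_left _ _)),
              (hm j hj).2.trans (le_max_left _ _)⟩
      obtain ⟨m, hm⟩ := this
      refine ⟨s m, hsK m, ?_⟩
      simp only [Set.mem_iInter]
      intro i hi
      refine ⟨(hm i hi).1, (hd m).le, (hsl m).trans ?_⟩
      have h1 : (i.2 : ℝ) ≤ (m : ℝ) := by exact_mod_cast (hm i hi).2
      have h2 : (0 : ℝ) < (i.2 : ℝ) + 1 := by positivity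
      have h3 : 1 / ((m : ℝ) + 1) ≤ 1 / ((i.2 : ℝ) + 1) :=
        one_div_le_one_div_of_le h2 (by linarith)
      linarith)
  have hy' : ∀ i : Set.Iio d × ℕ, i.1.1 < y.1 ∧ y.1 ≤ d ∧ lev y ≤ c + 1 / ((i.2 : ℝ) + 1) :=
    fun i => Set.mem_iInter.mp hy i
  have hyd : y.1 = d := by
    refine le_antisymm (hy' ⟨⟨(s 0).1, hd 0⟩, 0⟩).2.1 ?_
    by_contra hlt
    exact lt_irrefl _ (hy' ⟨⟨y.1, not_le.mp hlt⟩, 0⟩).1
  have hyc : lev y ≤ c := by
    refine le_of_forall_pos_le_add (fun ε hε => ?_)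
    obtain ⟨n, hn⟩ := exists_nat_one_div_lt hε
    exact ((hy' ⟨⟨(s 0).1, hd 0⟩, n⟩).2.2).trans (by linarith)
  have hg3d : g3 < y.1 := by rw [hyd]; exact hsg.trans (hd 0)
  have hyeq : lev y = c := le_antisymm hyc (hg1 y hyK (lt_of_le_of_lt (le_max_left _ _) hg3d))
  exact absurd (hg2 y hyeq) (not_lt.mpr ((le_max_right _ _).trans hg3d.le))

/-- The negation of the preceding statement: In every core compact T0 space, each irreducible closed set A has a nonempty downward-directed family of compact saturated sets such that A meets all of them and no smaller closed subset of A meets all of them. -/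
theorem result :
    ¬ (∀ (X : Type) [TopologicalSpace X] [T0Space X],
      (∀ U : Set X, IsOpen U → ∀ x ∈ U, ∃ V : Set X, IsOpen V ∧ x ∈ V ∧ V ⊆ U ∧
        ∀ 𝒰 : Set (Set X), (∀ W ∈ 𝒰, IsOpen W) → U ⊆ ⋃₀ 𝒰 →
          ∃ 𝒱 ⊆ 𝒰, 𝒱.Finite ∧ V ⊆ ⋃₀ 𝒱) →
      ∀ A : Set X, IsClosed A → IsIrreducible A →
        ∃ 𝒦 : Set (Set X), 𝒦.Nonempty ∧
          (∀ K ∈ 𝒦, IsCompact K ∧
            ∀ x : X, (∀ U : Set X, IsOpen U → K ⊆ U → x ∈ U) → x ∈ K) ∧
          (∀ K₁ ∈ 𝒦, ∀ K₂ ∈ 𝒦, ∃ K₃ ∈ 𝒦, K₃ ⊆ K₁ ∩ K₂) ∧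
          (∀ K ∈ 𝒦, (A ∩ K).Nonempty) ∧
          ∀ B : Set X, IsClosed B → B ⊆ A → (∀ K ∈ 𝒦, (B ∩ K).Nonempty) → B = A) := by
  intro H
  obtain ⟨𝒦, ⟨K, hK⟩, hcs, hfil, hmeet, hmin⟩ :=
    H X core_compact Set.univ isClosed_univ irreducible_univ
  obtain ⟨g, hg⟩ := compact_bounded K (hcs K hK).1
  have hB := hmin {y : X | y.1 ≤ g} (isClosed_le g) (Set.subset_univ _) (by
    intro K' hK'
    obtain ⟨K'', hK'', hsub⟩ := hfil K hK K' hK'
    obtain ⟨y, _, hy⟩ := hmeet K'' hK''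
    exact ⟨y, hg y (hsub hy).1, (hsub hy).2⟩)
  obtain ⟨b, hb, _⟩ := exists_gt_two g g
  have : ((b, 0) : X) ∈ {y : X | y.1 ≤ g} := by rw [hB]; trivial
  exact absurd this (not_le.mpr hb)

end Pool.Agent.S13782
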