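import Pool.Statements.S13971
import Pool.Agent.Lib.MP_d01a95_gt.Core
import Pool.Agent.Lib.MP_d01a95_gt.Transport
import Pool.Agent.Lib.MP_d01a95_gt_H.Final
import Pool.Agent.Lib.MP_d01a95_gt_K.KFin
import Pool.Agent.Lib.MP_d01a95_gt_M.SecF

set_option autoImplicit false
open Matrix
open Pool Pool.MP_d01a95_gt

namespace Pool.Agent.S13971

/-- For m>1, no discrete cocompact subgroup of U(m,1) admits an injective homomorphism into O(2m,2) whose image is Zariski-dense (closure contains SO(2m,2)) and acts properly discontinuously on the quadric q=−1 of signature (2m,2). -/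
theorem result :
  ∀ m : ℕ, 1 < m →
  ∀ Γ : Subgroup (Matrix.GeneralLinearGroup (Fin (m+1)) ℂ),
    (∀ γ ∈ Γ, (γ : Matrix (Fin (m+1)) (Fin (m+1)) ℂ)ᴴ
        * Matrix.diagonal (fun i : Fin (m+1) => if (i : ℕ) < m then (1 : ℂ) else -1)
        * (γ : Matrix (Fin (m+1)) (Fin (m+1)) ℂ)
        = Matrix.diagonal (fun i : Fin (m+1) => if (i : ℕ) < m then (1 : ℂ) else -1)) →
    (∃ U : Set (Matrix (Fin (m+1)) (Fin (m+1)) ℂ), IsOpen U ∧
        (1 : Matrix (Fin (m+1)) (Fin (m+1)) ℂ) ∈ U ∧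
        ∀ γ ∈ Γ, (γ : Matrix (Fin (m+1)) (Fin (m+1)) ℂ) ∈ U → γ = 1) →
    (∃ K : Set (Matrix (Fin (m+1)) (Fin (m+1)) ℂ), IsCompact K ∧
        ∀ h : Matrix (Fin (m+1)) (Fin (m+1)) ℂ,
          hᴴ * Matrix.diagonal (fun i : Fin (m+1) => if (i : ℕ) < m then (1 : ℂ) else -1) * h
            = Matrix.diagonal (fun i : Fin (m+1) => if (i : ℕ) < m then (1 : ℂ) else -1) →
          ∃ k ∈ K, ∃ γ ∈ Γ, h = k * (γ : Matrix (Fin (m+1)) (Fin (m+1)) ℂ)) →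
    ¬ ∃ ρ : Γ →* Matrix.GeneralLinearGroup (Fin (2*m+2)) ℝ,
        Function.Injective ρ ∧
        (∀ γ : Γ, (ρ γ : Matrix (Fin (2*m+2)) (Fin (2*m+2)) ℝ)ᵀ
            * Matrix.diagonal (fun i : Fin (2*m+2) => if (i : ℕ) < 2*m then (1 : ℝ) else -1)
            * (ρ γ : Matrix (Fin (2*m+2)) (Fin (2*m+2)) ℝ)
            = Matrix.diagonal (fun i : Fin (2*m+2) => if (i : ℕ) < 2*m then (1 : ℝ) else -1)) ∧
        (∀ p : MvPolynomial (Fin (2*m+2) × Fin (2*m+2)) ℝ,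
            (∀ γ : Γ, MvPolynomial.eval
                (fun ij => (ρ γ : Matrix (Fin (2*m+2)) (Fin (2*m+2)) ℝ) ij.1 ij.2) p = 0) →
            ∀ g : Matrix (Fin (2*m+2)) (Fin (2*m+2)) ℝ,
              gᵀ * Matrix.diagonal (fun i : Fin (2*m+2) => if (i : ℕ) < 2*m then (1 : ℝ) else -1) * g
                = Matrix.diagonal (fun i : Fin (2*m+2) => if (i : ℕ) < 2*m then (1 : ℝ) else -1) →
              g.det = 1 →
              MvPolynomial.eval (fun ij => g ij.1 ij.2) p = 0) ∧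
        (∀ K : Set (Fin (2*m+2) → ℝ), IsCompact K →
            (∀ x ∈ K, x ⬝ᵥ (Matrix.diagonal
                (fun i : Fin (2*m+2) => if (i : ℕ) < 2*m then (1 : ℝ) else -1) *ᵥ x) = -1) →
            {γ : Γ | ∃ x ∈ K,
                (ρ γ : Matrix (Fin (2*m+2)) (Fin (2*m+2)) ℝ) *ᵥ x ∈ K}.Finite) := by
  rintro m hm Γ h1 h2 h3 ⟨ρ, -, h4, h5, h6⟩
  rcases Nat.lt_or_ge 2 m with hm2 | hm2
  · exact Pool.Agent.MPd01a95.main_false (ι := Fin (2*m)) (κ := Fin m)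
      (by simp; omega) (by simp) (Pool.Agent.MPd01a95.rhoHom m ρ)
      (Pool.Agent.MPd01a95.tr_pres m ρ h4) (Pool.Agent.MPd01a95.tr_prop m ρ h6)
      (Pool.Agent.MPd01a95.tr_dense m ρ h5) (Pool.Agent.MPd01a95.sigHom m Γ)
      (Pool.Agent.MPd01a95.tc_pres m Γ h1) (Pool.Agent.MPd01a95.tc_disc m Γ h2)
      (Pool.Agent.MPd01a95.tc_coc m Γ h3)
  · obtain rfl : m = 2 := by omega
    exact Pool.Agent.MPd01a95.KT.two_false Pool.Agent.MPd01a95.part_two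
      (Pool.Agent.MPd01a95.lat_lift (Pool.Agent.MPd01a95.sigHom 2 Γ)
        (Pool.Agent.MPd01a95.tc_pres 2 Γ h1) (Pool.Agent.MPd01a95.tc_disc 2 Γ h2)
        (Pool.Agent.MPd01a95.tc_coc 2 Γ h3)) (Pool.Agent.MPd01a95.rhoHom 2 ρ)
      (Pool.Agent.MPd01a95.tr_pres 2 ρ h4) (Pool.Agent.MPd01a95.tr_dense 2 ρ h5)
      (Pool.Agent.MPd01a95.tr_prop 2 ρ h6)

end Pool.Agent.S13971
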