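import Pool.Statements.S14098
import Pool.Agent.Lib.MP_decea1_gt_F.Main
import Pool.Agent.Lib.MP_decea1_gt_B.Wall
import Pool.Agent.Lib.MP_decea1_gt_D.Final
import Pool.Agent.Lib.MP_decea1_gt_E.FromC
import Pool.Agent.Lib.MP_decea1_gt_G.Moves

set_option autoImplicit false
open MeasureTheory Metric
open Pool Pool.MP_decea1_gt

namespace Pool.Agent.S14098

/-- The negation of the preceding statement: On the group of volume-preserving diffeomorphisms of the 3-sphere smoothly isotopic to the identity through such maps, there is a real function with bounded defect that stays at unbounded distance from every homomorphism to ℝ. -/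
theorem result :
    ¬ (∀ [Fact (Module.finrank ℝ (EuclideanSpace ℝ (Fin 4)) = 3 + 1)],
    ∀ P : Diffeomorph (modelWithCornersSelf ℝ (EuclideanSpace ℝ (Fin 3)))
        (modelWithCornersSelf ℝ (EuclideanSpace ℝ (Fin 3)))
        (sphere (0 : EuclideanSpace ℝ (Fin 4)) 1) (sphere (0 : EuclideanSpace ℝ (Fin 4)) 1)
        ((⊤ : ℕ∞) : WithTop ℕ∞) → Prop,
    (∀ f, P f ↔
      ∃ F : ℝ × sphere (0 : EuclideanSpace ℝ (Fin 4)) 1 → sphere (0 : EuclideanSpace ℝ (Fin 4)) 1,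
        ContMDiff ((modelWithCornersSelf ℝ ℝ).prod
            (modelWithCornersSelf ℝ (EuclideanSpace ℝ (Fin 3))))
          (modelWithCornersSelf ℝ (EuclideanSpace ℝ (Fin 3))) ((⊤ : ℕ∞) : WithTop ℕ∞) F ∧
        (∀ x, F (0, x) = x) ∧ (∀ x, F (1, x) = f x) ∧
        ∀ t : ℝ, ∃ g : Diffeomorph (modelWithCornersSelf ℝ (EuclideanSpace ℝ (Fin 3)))
            (modelWithCornersSelf ℝ (EuclideanSpace ℝ (Fin 3)))
            (sphere (0 : EuclideanSpace ℝ (Fin 4)) 1) (sphere (0 : EuclideanSpace ℝ (Fin 4)) 1)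
            ((⊤ : ℕ∞) : WithTop ℕ∞),
          (∀ x, g x = F (t, x)) ∧
          MeasurePreserving g (volume : Measure (EuclideanSpace ℝ (Fin 4))).toSphere
            (volume : Measure (EuclideanSpace ℝ (Fin 4))).toSphere) →
    ∃ φ : Diffeomorph (modelWithCornersSelf ℝ (EuclideanSpace ℝ (Fin 3)))
        (modelWithCornersSelf ℝ (EuclideanSpace ℝ (Fin 3)))
        (sphere (0 : EuclideanSpace ℝ (Fin 4)) 1) (sphere (0 : EuclideanSpace ℝ (Fin 4)) 1)
        ((⊤ : ℕ∞) : WithTop ℕ∞) → ℝ,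
      (∃ D : ℝ, ∀ f g, P f → P g → |φ (g.trans f) - φ f - φ g| ≤ D) ∧
      ∀ ψ : Diffeomorph (modelWithCornersSelf ℝ (EuclideanSpace ℝ (Fin 3)))
          (modelWithCornersSelf ℝ (EuclideanSpace ℝ (Fin 3)))
          (sphere (0 : EuclideanSpace ℝ (Fin 4)) 1) (sphere (0 : EuclideanSpace ℝ (Fin 4)) 1)
          ((⊤ : ℕ∞) : WithTop ℕ∞) → ℝ,
        (∀ f g, P f → P g → ψ (g.trans f) = ψ f + ψ g) →
        ¬ ∃ C : ℝ, ∀ f, P f → |φ f - ψ f| ≤ C) := by
  exact Pool.Agent.QM59.not_main_of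
    (fun _ _ _ hΓ hφ => Pool.Agent.QM59.EE.theoremM' hΓ hφ (Pool.Agent.QM59.D.dFin hΓ hφ))
    (fun _ _ _ hΓ hφ => Pool.Agent.QM59.wall hΓ hφ)
    Pool.Agent.QM59.G.moves

end Pool.Agent.S14098
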