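import Pool.Statements.S14583
import Pool.Agent.Lib.MP_394364_lc.Full

set_option autoImplicit false
open FirstOrder FirstOrder.Language
open Pool Pool.MP_394364_lc

namespace Pool.Agent.S14583

/-- If Th(M) is NIP, N realizes all types over M, and tp(a/N) is M-invariant, then for each formula φ(x;y) some finite set Δ' of formulas over M makes φ(a;b)↔φ(a;b') whenever b,b' in N have the same Δ'-type over M. -/
theorem result :
  ∀ (L : FirstOrder.Language.{0, 0}) (M : Type) [L.Structure M] [Nonempty M],
    (∀ (n m : ℕ) (φ : L.Formula (Fin n ⊕ Fin m)), ∃ K : ℕ, ∀ a : Fin K → Fin n → M,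
        ¬ ∀ J : Finset (Fin K), ∃ b : Fin m → M, ∀ i : Fin K,
          (φ.Realize (Sum.elim (a i) b) ↔ i ∈ J)) →
    ∀ (N : Type) [L.Structure N] (f : M ↪ₑ[L] N),
      (∀ (m : ℕ) (M' : Type) [L.Structure M'] (h : M ↪ₑ[L] M') (d : Fin m → M'),
        ∃ b : Fin m → N, ∀ (k : ℕ) (ψ : L.Formula (Fin m ⊕ Fin k)) (c : Fin k → M),
          (ψ.Realize (Sum.elim d (fun i => h (c i))) ↔
            ψ.Realize (Sum.elim b (fun i => f (c i))))) →
    ∀ (N' : Type) [L.Structure N'] (g : N ↪ₑ[L] N') (n : ℕ) (a : Fin n → N'),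
      (∀ (m : ℕ) (φ : L.Formula (Fin n ⊕ Fin m)) (b b' : Fin m → N),
        (∀ (k : ℕ) (ψ : L.Formula (Fin m ⊕ Fin k)) (c : Fin k → M),
          (ψ.Realize (Sum.elim b (fun i => f (c i))) ↔
            ψ.Realize (Sum.elim b' (fun i => f (c i))))) →
        (φ.Realize (Sum.elim a (fun i => g (b i))) ↔
          φ.Realize (Sum.elim a (fun i => g (b' i))))) →
    ∀ (m : ℕ) (φ : L.Formula (Fin n ⊕ Fin m)),
      ∃ (k : ℕ) (Δ' : Finset (L.Formula (Fin m ⊕ Fin k))),
        ∀ b b' : Fin m → N,
          (∀ ψ ∈ Δ', ∀ c : Fin k → M,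
            (ψ.Realize (Sum.elim b (fun i => f (c i))) ↔
              ψ.Realize (Sum.elim b' (fun i => f (c i))))) →
          (φ.Realize (Sum.elim a (fun i => g (b i))) ↔
            φ.Realize (Sum.elim a (fun i => g (b' i)))) := by
  classical
  intro L M _ _ hnip N _ f hN N' _ g n a hinv m φ
  let D : (Fin m → N) → Prop := fun b => φ.Realize (Sum.elim a (fun i => g (b i)))
  have hfld : FLD394364.FLD f D := by
    refine FLD394364.fld_of_nip (f := f) (β := Fin n) hnip hN ?_ φ ?_
    · -- invariance
      intro b b' h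
      refine hinv m φ b b' (fun k ψ c => ?_)
      have e : ∀ (ψ : L.Formula (Fin m ⊕ Fin k)) (y : Fin m → N),
          (ψ.relabel (Sum.map id c : Fin m ⊕ Fin k → Fin m ⊕ M)).Realize (Sum.elim y f) ↔
            ψ.Realize (Sum.elim y (fun i => f (c i))) := by
        intro ψ y
        rw [Formula.realize_relabel]
        have : Sum.elim y f ∘ (Sum.map id c : Fin m ⊕ Fin k → Fin m ⊕ M) =
            Sum.elim y (fun i => f (c i)) := by
          funext q; rcases q with i | i <;> rfl
        rw [this]
      constructor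
      · intro h1
        exact (e ψ b').1 (h _ ((e ψ b).2 h1))
      · intro h1
        by_contra h2
        have h3 := (e (∼ψ) b').1 (h _ ((e (∼ψ) b).2 (by rw [Formula.realize_not]; exact h2)))
        rw [Formula.realize_not] at h3
        exact h3 h1
    · -- the type of `a` is finitely satisfiable in `N`
      intro K y
      let P : (Fin K → Bool) := fun j => decide (D (fun i => y (j, i)))
      let Φ : L.Formula ((Fin K × Fin m) ⊕ N) :=
        Formula.iExs (Fin n) (Formula.iInf (fun j : Fin K => FLD394364.lit (P j)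
          (φ.relabel (Sum.elim Sum.inr (fun i => Sum.inl (Sum.inl (j, i)))))))
      have hΦ : ∀ {Q : Type} [L.Structure Q] (v : Fin K × Fin m → Q) (c : N → Q),
          Φ.Realize (Sum.elim v c) ↔ ∃ x : Fin n → Q, ∀ j,
            (φ.Realize (Sum.elim x (fun i => v (j, i))) ↔ P j = true) := by
        intro Q _ v c
        simp only [Φ]
        rw [Formula.realize_iExs]
        refine exists_congr (fun x => ?_)
        rw [Formula.realize_iInf]
        refine forall_congr' (fun j => ?_)
        rw [FLD394364.realize_lit, Formula.realize_relabel]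
        have : (fun a => Sum.elim (Sum.elim v c) x a) ∘ (Sum.elim Sum.inr
            (fun i => Sum.inl (Sum.inl (j, i))) : Fin n ⊕ Fin m → _) =
            Sum.elim x (fun i => v (j, i)) := by
          funext q; rcases q with i | i <;> rfl
        rw [show (Sum.elim (Sum.elim v c) x) = (fun a => Sum.elim (Sum.elim v c) x a) from rfl,
          this]
      have h1 : Φ.Realize (Sum.elim (fun q => g (y q)) g) := by
        rw [hΦ]
        refine ⟨a, fun j => ?_⟩
        simp only [P, decide_eq_true_eq]
        exact Iff.rfl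
      rw [FLD394364.realize_map g Φ y, hΦ] at h1
      obtain ⟨x, hx⟩ := h1
      refine ⟨x, fun j => ?_⟩
      rw [hx j]
      simp only [P, decide_eq_true_eq]
  obtain ⟨k, Δ', hΔ⟩ := hfld.frozen
  exact ⟨k, Δ', fun b b' hb => hΔ b b' hb⟩

end Pool.Agent.S14583
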