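import Pool.Statements.S15104
import Pool.Agent.Lib.MP_9a50b7_lc.NoFP.Final

set_option autoImplicit false
open Pool Pool.MP_9a50b7_lc

namespace Pool.Agent.S15104

/-- The negation of the preceding statement: It is decidable, uniformly over all dimensions, whether a finite set of integer (equivalently rational) square matrices has the finiteness property: some finite product of length k has spectral radius to the power 1/k equal to the joint spectral radius. -/
theorem result :
    ¬ (ComputablePred (fun p : ℕ × List (List (List ℤ)) =>
      ∃ w : List (List (List ℤ)), w ≠ [] ∧ (∀ x ∈ w, x ∈ p.2) ∧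
        ∃ z : ℂ,
          Polynomial.IsRoot
            (Matrix.charpoly
              (Matrix.map
                (w.map (fun L => Matrix.of
                  (fun i j : Fin p.1 => (L.getD (i : ℕ) []).getD (j : ℕ) 0))).prod
                (Int.cast : ℤ → ℂ))) z ∧
          ∀ ε : ℝ, 0 < ε → ∃ C : ℝ, ∀ u : List (List (List ℤ)), (∀ x ∈ u, x ∈ p.2) →
            ∀ i j : Fin p.1,
              |(((u.map (fun L => Matrix.of
                  (fun i j : Fin p.1 => (L.getD (i : ℕ) []).getD (j : ℕ) 0))).prod i j : ℤ) : ℝ)|
                ≤ C * (‖z‖ ^ ((1 : ℝ) / (w.length : ℝ)) + ε) ^ u.length)) :=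
  Pool.Agent.MP9a50b7.NoFP.not_computable_FP

end Pool.Agent.S15104
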