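import Pool.Statements.S15389
import Pool.Agent.Lib.MP_d11e37_lc.Main

set_option autoImplicit false
open scoped Classical
open Pool Pool.MP_d11e37_lc

namespace Pool.Agent.S15389

/-- For 0<δ<1 and p(n) eventually between n^(-δ) and 1/2, some C>0 makes the probability that G(n,p) is defined among finite graphs by a first-order sentence of quantifier depth at most C log n tend to 1. -/
theorem result :
    ∀ δ : ℝ, 0 < δ → δ < 1 →
    ∀ p : ℕ → ℝ, (∀ᶠ n : ℕ in Filter.atTop, (n : ℝ) ^ (-δ) ≤ p n ∧ p n ≤ 1 / 2) →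
    ∃ C : ℝ, 0 < C ∧
      Filter.Tendsto
        (fun n : ℕ =>
          ∑ G ∈ (Finset.univ.filter (fun G : SimpleGraph (Fin n) =>
              ∃ k : ℕ, (k : ℝ) ≤ C * Real.log n ∧
                ∃ φ : FirstOrder.Language.Sentence FirstOrder.Language.graph,
                  (∀ Q : (m : ℕ) → FirstOrder.Language.BoundedFormula FirstOrder.Language.graph Empty m → ℕ → Prop,
                    ((∀ (m k' : ℕ), Q m FirstOrder.Language.BoundedFormula.falsum k') ∧
                     (∀ (m k' : ℕ) (t₁ t₂ : FirstOrder.Language.Term FirstOrder.Language.graph (Empty ⊕ Fin m)),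
                        Q m (FirstOrder.Language.BoundedFormula.equal t₁ t₂) k') ∧
                     (∀ (m k' l : ℕ) (R : FirstOrder.Language.graph.Relations l)
                        (ts : Fin l → FirstOrder.Language.Term FirstOrder.Language.graph (Empty ⊕ Fin m)),
                        Q m (FirstOrder.Language.BoundedFormula.rel R ts) k') ∧
                     (∀ (m k' : ℕ) (ψ χ : FirstOrder.Language.BoundedFormula FirstOrder.Language.graph Empty m),
                        Q m ψ k' → Q m χ k' → Q m (FirstOrder.Language.BoundedFormula.imp ψ χ) k') ∧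
                     (∀ (m k' : ℕ) (ψ : FirstOrder.Language.BoundedFormula FirstOrder.Language.graph Empty (m + 1)),
                        Q (m + 1) ψ k' → Q m (FirstOrder.Language.BoundedFormula.all ψ) (k' + 1)))
                    → Q 0 φ k) ∧
                  ∀ (m : ℕ) (H : SimpleGraph (Fin m)),
                    (@FirstOrder.Language.Sentence.Realize FirstOrder.Language.graph (Fin m) H.structure φ
                      ↔ Nonempty (SimpleGraph.Iso G H)))),
            p n ^ G.edgeSet.ncard * (1 - p n) ^ (n.choose 2 - G.edgeSet.ncard))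
        Filter.atTop (nhds 1) := by
  intro δ _ hδ1 p hp
  obtain ⟨C, hC, h⟩ := Pool.Agent.MPd11e37lc.tendsto_main hδ1 p hp
  refine ⟨C, hC, h.congr' ?_⟩
  filter_upwards [] with n
  have e := Pool.Agent.MPd11e37lc.sum_graph_eq_Pr n (p n) (fun G : SimpleGraph (Fin n) =>
    ∃ m : ℕ, (m : ℝ) ≤ C * Real.log n ∧ Pool.Agent.MPd11e37lc.DefinedBy G m)
  refine e.symm.trans ?_
  refine Finset.sum_congr ?_ fun G _ => rfl
  ext G
  simp only [Finset.mem_filter, Finset.mem_univ, true_and]
  unfold Pool.Agent.MPd11e37lc.DefinedBy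
  constructor
  · rintro ⟨m, hm, φ, hφ, hiso⟩
    exact ⟨m, hm, φ, fun Q hQ =>
      Pool.Agent.MPd11e37lc.QD.closed Q hQ.1 hQ.2.1 hQ.2.2.1 hQ.2.2.2.1 hQ.2.2.2.2 hφ, hiso⟩
  · rintro ⟨m, hm, φ, hφ, hiso⟩
    refine ⟨m, hm, φ, hφ Pool.Agent.MPd11e37lc.QD ⟨?_, ?_, ?_, ?_, ?_⟩, hiso⟩
    · exact fun m k => Pool.Agent.MPd11e37lc.QD.falsum m k
    · exact fun m k t₁ t₂ => Pool.Agent.MPd11e37lc.QD.equal m k t₁ t₂
    · exact fun m k l R ts => Pool.Agent.MPd11e37lc.QD.rel m k l R ts
    · exact fun m k ψ χ h1 h2 => Pool.Agent.MPd11e37lc.QD.imp m k ψ χ h1 h2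
    · exact fun m k ψ h1 => Pool.Agent.MPd11e37lc.QD.all m k ψ h1

end Pool.Agent.S15389
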