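import Pool.Statements.S15498
import Pool.Agent.Lib.MP_e12961_lc.Final

set_option autoImplicit false
open Pool Pool.MP_e12961_lc

namespace Pool.Agent.S15498

open Pool.Agent.MP_e12961_lc in
theorem conv (Z : ℕ → Bool) (f : ℕ → ℕ) :
    TuringReducible (fun n => Part.some (f n)) (fun n => Part.some (Z n).toNat) ↔ TR Z f :=
  RecursiveIn.iff_nat

theorem limsup_bound (P : ℕ → Prop) [DecidablePred P] (c : ℝ)
    (h : ∃ m0, ∀ m ≥ m0, (((Finset.range m).filter P).card : ℝ) ≤ c * m) :
    Filter.limsup (fun n : ℕ => ((((Finset.range n).filter P).card : ℝ) / (n : ℝ)))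
      Filter.atTop ≤ c := by
  obtain ⟨m0, hm0⟩ := h
  apply Filter.limsup_le_of_le
  · apply Filter.IsBoundedUnder.isCoboundedUnder_le
    refine ⟨0, ?_⟩
    rw [Filter.eventually_map]
    exact Filter.Eventually.of_forall fun n => by positivity
  · rw [Filter.eventually_atTop]
    refine ⟨m0 + 1, fun m hm => ?_⟩
    have hpos : (0 : ℝ) < m := by
      have : 0 < m := by omega
      exact_mod_cast this
    rw [div_le_iff₀ hpos]
    exact hm0 m (by omega)


/-- The negation of the preceding statement: For every hyperimmune-free degree and every hyperimmune PA degree, the Hausdorff distance between them under the upper-density-of-disagreement pseudometric on Cantor space is 1. -/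
theorem result :
    ¬ (∀ X Y : ℕ → Bool,
      (∀ f : ℕ → ℕ,
          TuringReducible (fun n => Part.some (f n)) (fun n => Part.some (X n).toNat) →
          ∃ g : ℕ → ℕ, Computable g ∧ ∀ n, f n ≤ g n) →
      (¬ ∀ f : ℕ → ℕ,
          TuringReducible (fun n => Part.some (f n)) (fun n => Part.some (Y n).toNat) →
          ∃ g : ℕ → ℕ, Computable g ∧ ∀ n, f n ≤ g n) →
      (∃ f : ℕ → ℕ,
          TuringReducible (fun n => Part.some (f n)) (fun n => Part.some (Y n).toNat) ∧
          (∀ n, f n ≤ 1) ∧
          ∀ c : Nat.Partrec.Code, ∀ y : ℕ,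
            y ∈ c.eval (Encodable.encode c) → f (Encodable.encode c) ≠ y) →
      ((∀ ε : ℝ, 0 < ε → ∃ A : ℕ → Bool,
          (TuringReducible (fun n => Part.some (A n).toNat) (fun n => Part.some (X n).toNat) ∧
           TuringReducible (fun n => Part.some (X n).toNat) (fun n => Part.some (A n).toNat)) ∧
          ∀ B : ℕ → Bool,
            (TuringReducible (fun n => Part.some (B n).toNat) (fun n => Part.some (Y n).toNat) ∧
             TuringReducible (fun n => Part.some (Y n).toNat) (fun n => Part.some (B n).toNat)) →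
            1 - ε ≤ Filter.limsup
              (fun n : ℕ => ((((Finset.range n).filter (fun k => A k ≠ B k)).card : ℝ) / (n : ℝ)))
              Filter.atTop) ∨
       (∀ ε : ℝ, 0 < ε → ∃ B : ℕ → Bool,
          (TuringReducible (fun n => Part.some (B n).toNat) (fun n => Part.some (Y n).toNat) ∧
           TuringReducible (fun n => Part.some (Y n).toNat) (fun n => Part.some (B n).toNat)) ∧
          ∀ A : ℕ → Bool,
            (TuringReducible (fun n => Part.some (A n).toNat) (fun n => Part.some (X n).toNat) ∧
             TuringReducible (fun n => Part.some (X n).toNat) (fun n => Part.some (A n).toNat)) →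
            1 - ε ≤ Filter.limsup
              (fun n : ℕ => ((((Finset.range n).filter (fun k => A k ≠ B k)).card : ℝ) / (n : ℝ)))
              Filter.atTop))) := by
  intro h
  obtain ⟨X, Y, h1, h2, h3, h4, h5⟩ := Pool.Agent.MP_e12961_lc.main
  have key := h X Y (fun f hf => h1 f ((conv X f).1 hf)) (by
    intro hcon
    obtain ⟨f, hf, hno⟩ := h2
    exact hno (hcon f ((conv Y f).2 hf))) (by
    obtain ⟨f, hf, hle, hdnc⟩ := h3
    exact ⟨f, (conv Y f).2 hf, hle, hdnc⟩)
  rcases key with hA | hB
  · obtain ⟨A, hAX, hall⟩ := hA (1 / 16) (by norm_num)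
    have h6 := hall Y ⟨TuringReducible.refl _, TuringReducible.refl _⟩
    obtain ⟨m0, hm0⟩ := h4 A ((conv X _).1 hAX.1)
    have h7 := limsup_bound (fun k => A k ≠ Y k) (29 / 32) ⟨max m0 32, fun m hm => by
      have h8 := hm0 m ((le_max_left _ _).trans hm)
      have h9 : 32 ≤ m := (le_max_right _ _).trans hm
      have h10 : (8 : ℝ) * (((Finset.range m).filter fun i => A i ≠ Y i).card : ℝ) ≤ 7 * m + 8 := by
        exact_mod_cast h8
      have h11 : (32 : ℝ) ≤ m := by exact_mod_cast h9
      linarith⟩
    have h12 := h6.trans h7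
    norm_num at h12
  · obtain ⟨B, hBY, hall⟩ := hB (1 / 16) (by norm_num)
    have h6 := hall X ⟨TuringReducible.refl _, TuringReducible.refl _⟩
    obtain ⟨m0, hm0⟩ := h5 B ((conv Y _).1 hBY.1)
    have h7 := limsup_bound (fun k => X k ≠ B k) (3 / 4) ⟨m0, fun m hm => by
      have h8 := hm0 m hm
      have h10 : (4 : ℝ) * (((Finset.range m).filter fun i => X i ≠ B i).card : ℝ) ≤ 3 * m := by
        exact_mod_cast h8
      linarith⟩
    have h12 := h6.trans h7
    norm_num at h12

end Pool.Agent.S15498
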