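import Pool.Statements.S15524
-- import your own Pool.Agent.* helpers here
import Pool.Agent.MP_e47bfc_lc.Final

set_option autoImplicit false
open Pool Pool.MP_e47bfc_lc

namespace Pool.Agent.S15524

/-- The negation of the preceding statement: For every countable language and theory T, if isomorphism of T's models on ℕ is Borel reducible to a countable Borel equivalence relation on a standard Borel space, then it is Borel reducible to equality on Cantor space. -/
theorem result :
    ¬ (∀ (L : FirstOrder.Language.{0,0}), Countable L.Symbols → ∀ (T : L.Theory)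
    (m : MeasurableSpace (L.Structure ℕ)),
    m = MeasurableSpace.comap
      (fun S : L.Structure ℕ =>
        (((fun n (f : L.Functions n) =>
            FirstOrder.Language.Structure.funMap (L := L) (M := ℕ) f),
          (fun n (r : L.Relations n) =>
            FirstOrder.Language.Structure.RelMap (L := L) (M := ℕ) r)) :
          ((n : ℕ) → L.Functions n → (Fin n → ℕ) → ℕ) ×
          ((n : ℕ) → L.Relations n → (Fin n → ℕ) → Prop)))
      (inferInstance : MeasurableSpace
          (((n : ℕ) → L.Functions n → (Fin n → ℕ) → ℕ) ×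
          ((n : ℕ) → L.Relations n → (Fin n → ℕ) → Prop))) →
    (∃ (Y : Type) (mY : MeasurableSpace Y), StandardBorelSpace Y ∧
      ∃ (E : Y → Y → Prop), Equivalence E ∧
        MeasurableSet {p : Y × Y | E p.1 p.2} ∧
        (∀ y : Y, ({z : Y | E y z} : Set Y).Countable) ∧
        ∃ f : {S : L.Structure ℕ // ℕ ⊨ T} → Y, Measurable f ∧
          ∀ A B : {S : L.Structure ℕ // ℕ ⊨ T},
            (Nonempty (@FirstOrder.Language.Equiv L ℕ ℕ A.1 B.1) ↔ E (f A) (f B))) →
    ∃ g : {S : L.Structure ℕ // ℕ ⊨ T} → (ℕ → Bool), Measurable g ∧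
      ∀ A B : {S : L.Structure ℕ // ℕ ⊨ T},
        (Nonempty (@FirstOrder.Language.Equiv L ℕ ℕ A.1 B.1) ↔ g A = g B)) := by
  intro h
  exact Pool.Agent.HK.not_smooth (h Pool.Agent.HK.L inferInstance Pool.Agent.HK.T
    Pool.Agent.HK.mS rfl ⟨Pool.Agent.HK.Yt, inferInstance, inferInstance, Pool.Agent.HK.Et,
      Pool.Agent.HK.Et_equiv, Pool.Agent.HK.Et_meas, Pool.Agent.HK.Et_countable,
      Pool.Agent.HK.ft, Pool.Agent.HK.meas_ft, Pool.Agent.HK.ft_iff⟩)

end Pool.Agent.S15524
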