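import Pool.Statements.S15689
import Pool.Agent.Lib.MP_2801bd_mp.Final

set_option autoImplicit false
open scoped ContDiff
open Pool Pool.MP_2801bd_mp

namespace Pool.Agent.S15689

/-- For every smooth 2π-periodic unit-speed curve in 3-space with curvature κ, and every smooth 2π-periodic real φ, the integral of φ² over a period is at most the integral of φ'² + κ²φ², i.e. the principal eigenvalue is at least 1. -/
theorem result :
    ∀ γ : ℝ → EuclideanSpace ℝ (Fin 3),
      ContDiff ℝ ∞ γ →
      Function.Periodic γ (2 * Real.pi) →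
      (∀ s : ℝ, ‖deriv γ s‖ = 1) →
      ∀ φ : ℝ → ℝ,
        ContDiff ℝ ∞ φ →
        Function.Periodic φ (2 * Real.pi) →
        (∫ s in (0 : ℝ)..(2 * Real.pi), (φ s) ^ 2) ≤
          ∫ s in (0 : ℝ)..(2 * Real.pi),
            ((deriv φ s) ^ 2 + ‖deriv (deriv γ) s‖ ^ 2 * (φ s) ^ 2) := by
  exact Ovals2801.main

end Pool.Agent.S15689
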