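import Pool.Statements.S15734
import Pool.Agent.Lib.MP_64ae42_mp.Final

set_option autoImplicit false
open Pool Pool.MP_64ae42_mp

namespace Pool.Agent.S15734

/-- The negation of the preceding statement: Lift a Jacobi matrix (positive symmetric edge weights, potential b) on a finite connected graph to its universal cover tree; if the lifted operator on l2 of the tree has connected spectrum, then b is constant. -/
theorem result :
    ¬ (∀ (V D : Type) [Fintype V] [Fintype D] [DecidableEq D] (src : D → V) (rev : D → D),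
    (∀ d, rev (rev d) = d) → (∀ d, rev d ≠ d) →
    (SimpleGraph.fromRel (fun u v : V => ∃ d, src d = u ∧ src (rev d) = v)).Connected →
    ∀ (a : D → ℝ) (b : V → ℝ), (∀ d, 0 < a d) → (∀ d, a (rev d) = a d) →
    ∀ (v0 : V) (S : Set (List D)),
      (∀ l : List D, l ∈ S ↔ ((∀ d ∈ l.head?, src d = v0) ∧
         ∀ (i : ℕ) (d e : D), l[i]? = some d → l[i+1]? = some e →
           (src e = src (rev d) ∧ e ≠ rev d))) →
    ∀ H : lp (fun _ : S => ℂ) 2 →L[ℂ] lp (fun _ : S => ℂ) 2,
      (∀ (f : lp (fun _ : S => ℂ) 2) (x : S),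
        H f x = (b ((x.1.getLast?.map (fun d => src (rev d))).getD v0) : ℂ) * f x +
          ∑' y : S, (∑ d : D, if (y.1 = x.1 ++ [d] ∨ x.1 = y.1 ++ [d]) then (a d : ℂ) else 0) * f y) →
      IsPreconnected (spectrum ℂ H) → ∀ u v : V, b u = b v) := by
  intro hall
  have h := hall Pool.Agent.MP_64ae42_mp.VV Pool.Agent.MP_64ae42_mp.DD
    Pool.Agent.MP_64ae42_mp.esrc Pool.Agent.MP_64ae42_mp.erev
    Pool.Agent.MP_64ae42_mp.erev_erev Pool.Agent.MP_64ae42_mp.erev_ne
    Pool.Agent.MP_64ae42_mp.econn (fun _ => (1 : ℝ)) (Pool.Agent.MP_64ae42_mp.epot (1 / 4))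
    (fun _ => one_pos) (fun _ => rfl) (some false)
    (Pool.Agent.MP_64ae42_mp.paths Pool.Agent.MP_64ae42_mp.esrc Pool.Agent.MP_64ae42_mp.erev
      (some false))
    (fun _ => Iff.rfl) Pool.Agent.MP_64ae42_mp.EJ
    (fun f x => Pool.Agent.MP_64ae42_mp.Jac_formula Pool.Agent.MP_64ae42_mp.esrc
      Pool.Agent.MP_64ae42_mp.erev (some false) (fun _ => (1 : ℝ))
      (Pool.Agent.MP_64ae42_mp.epot (1 / 4)) f x)
    Pool.Agent.MP_64ae42_mp.EJ_preconnected none (some false)
  simp only [Pool.Agent.MP_64ae42_mp.epot] at h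
  norm_num at h

end Pool.Agent.S15734
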