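import Pool.Statements.S15775
-- import your own Pool.Agent.* helpers here
import Pool.Agent.Lib.MP_ac15a8_mp.Final

set_option autoImplicit false
open Pool Pool.MP_ac15a8_mp

namespace Pool.Agent.S15775

/-- For any unit vector ψ in C^a⊗C^b⊗C^c, with N(X)=sum of (∣λ∣−λ) over eigenvalues of a Hermitian X, N(Tr_B ρ^Γ)²+N(Tr_C ρ^Γ)² ≤ N(ρ^Γ)², where ρ^Γ is the partial transpose on A of ∣ψ⟩⟨ψ∣. -/
theorem result :
    ∀ (a b c : ℕ) (ψ : Fin a × Fin b × Fin c → ℂ), ∑ x, ‖ψ x‖ ^ 2 = 1 →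
    ∀ (hG : (Matrix.of fun (x y : Fin a × Fin b × Fin c) =>
              ψ (y.1, x.2.1, x.2.2) * star (ψ (x.1, y.2.1, y.2.2))).IsHermitian)
      (hB : (Matrix.of fun (x y : Fin a × Fin c) =>
              ∑ j : Fin b, ψ (y.1, j, x.2) * star (ψ (x.1, j, y.2))).IsHermitian)
      (hC : (Matrix.of fun (x y : Fin a × Fin b) =>
              ∑ k : Fin c, ψ (y.1, x.2, k) * star (ψ (x.1, y.2, k))).IsHermitian),
    (∑ i, (|hB.eigenvalues i| - hB.eigenvalues i)) ^ 2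
      + (∑ i, (|hC.eigenvalues i| - hC.eigenvalues i)) ^ 2
      ≤ (∑ i, (|hG.eigenvalues i| - hG.eigenvalues i)) ^ 2 := by
  intro a b c ψ _ hG hB hC
  have hG2 : (Matrix.of fun (x y : Fin a × Fin b × Fin c) =>
      ψ (y.1, x.2.1, x.2.2) * star (ψ (x.1, y.2.1, y.2.2))) =
      Pool.Agent.MP_ac15a8_mp.PT (fun (i : Fin a) (z : Fin b × Fin c) (_ : Unit) =>
        ψ (i, z.1, z.2)) := by
    ext x y
    rw [Pool.Agent.MP_ac15a8_mp.PT_apply]
    simp only [Matrix.of_apply, Finset.univ_unique, Finset.sum_singleton]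
  have hG' : (Pool.Agent.MP_ac15a8_mp.PT (fun (i : Fin a) (z : Fin b × Fin c) (_ : Unit) =>
        ψ (i, z.1, z.2))).IsHermitian := by
    rw [← hG2]; exact hG
  have key := Pool.Agent.MP_ac15a8_mp.monogamy (fun (i : Fin a) (x : Fin b) (y : Fin c) =>
    ψ (i, x, y)) hG' hC hB
  have hN : ∀ (M M' : Matrix (Fin a × Fin b × Fin c) (Fin a × Fin b × Fin c) ℂ)
      (h : M.IsHermitian) (h' : M'.IsHermitian), M = M' →
      ∑ i, (|h.eigenvalues i| - h.eigenvalues i) =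
        ∑ i, (|h'.eigenvalues i| - h'.eigenvalues i) := by
    intro M M' h h' hMM
    subst hMM
    rfl
  rw [hN _ _ hG hG' hG2, add_comm]
  exact key

end Pool.Agent.S15775
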