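import Pool.Statements.S16190
import Pool.Agent.Lib.MP_1ab58f_nt.Main

set_option autoImplicit false
open Pool Pool.MP_1ab58f_nt

namespace Pool.Agent.S16190

/-- The negation of the preceding statement: For every n at least 3 and every transcendental real ξ, the supremum of w such that, for all large H, some nonzero integer polynomial of degree at most n with coefficients bounded by H has absolute value at ξ at most H^(-w), equals n. -/
theorem result :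
    ¬ (∀ n : ℕ, 3 ≤ n → ∀ ξ : ℝ, Transcendental ℚ ξ →
      sSup {w : ℝ | ∃ H0 : ℝ, ∀ H : ℝ, H0 ≤ H →
        ∃ P : Polynomial ℤ, P ≠ 0 ∧ P.natDegree ≤ n ∧
          (∀ i : ℕ, |((P.coeff i : ℤ) : ℝ)| ≤ H) ∧
          |Polynomial.aeval ξ P| ≤ H ^ (-w)} = (n : ℝ)) := by
  intro h
  obtain ⟨ξ, htr, hξ⟩ := Pool.Agent.MP1ab58f.main
  have h4 := h 4 (by norm_num) ξ htr
  by_cases hb : BddAbove {w : ℝ | ∃ H0 : ℝ, ∀ H : ℝ, H0 ≤ H →
        ∃ P : Polynomial ℤ, P ≠ 0 ∧ P.natDegree ≤ 4 ∧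
          (∀ i : ℕ, |((P.coeff i : ℤ) : ℝ)| ≤ H) ∧
          |Polynomial.aeval ξ P| ≤ H ^ (-w)}
  · have h1 := le_csSup hb (show (17 / 4 : ℝ) ∈ {w : ℝ | ∃ H0 : ℝ, ∀ H : ℝ, H0 ≤ H →
        ∃ P : Polynomial ℤ, P ≠ 0 ∧ P.natDegree ≤ 4 ∧
          (∀ i : ℕ, |((P.coeff i : ℤ) : ℝ)| ≤ H) ∧
          |Polynomial.aeval ξ P| ≤ H ^ (-w)} from hξ)
    rw [h4] at h1
    norm_num at h1
  · rw [Real.sSup_of_not_bddAbove hb] at h4
    norm_num at h4

end Pool.Agent.S16190
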