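import Pool.Statements.S19053
import Pool.Agent.Lib.MP_fc0680_nt.Final

set_option autoImplicit false
open Pool Pool.MP_fc0680_nt

namespace Pool.Agent.S19053

/-- For multidegree (d_i) forms in blocks of n_i+1 variables over ℤ, with all d_i,n_i ≥ 1, some d_i ≤ n_i, and the two k=2 exceptions excluded: among forms of height ≤ H with real and p-adic zeros (all blocks nonzero), the share with rational zeros tends to 1. -/
theorem result :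
  ∀ (k : ℕ) (n d : Fin k → ℕ), 0 < k → (∀ i, 1 ≤ n i) → (∀ i, 1 ≤ d i) →
   (∃ i, d i < n i + 1) →
   ¬ (∃ i j : Fin k, i ≠ j ∧ k = 2 ∧ n i = 1 ∧ n j = 2 ∧ 2 ≤ d i ∧ d j = 2) →
   Filter.Tendsto (fun H : ℕ =>
     ((Set.ncard {f : MvPolynomial (Σ i : Fin k, Fin (n i + 1)) ℤ |
        (∀ s ∈ f.support, ∀ i : Fin k, ∑ j : Fin (n i + 1), s ⟨i, j⟩ = d i) ∧
        (∀ s, |f.coeff s| ≤ (H : ℤ)) ∧
        (∃ x : (Σ i : Fin k, Fin (n i + 1)) → ℝ,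
          (∀ i : Fin k, ∃ j : Fin (n i + 1), x ⟨i, j⟩ ≠ 0) ∧ MvPolynomial.aeval x f = 0) ∧
        (∀ p : ℕ, ∀ _ : Fact p.Prime, ∃ x : (Σ i : Fin k, Fin (n i + 1)) → Padic p,
          (∀ i : Fin k, ∃ j : Fin (n i + 1), x ⟨i, j⟩ ≠ 0) ∧ MvPolynomial.aeval x f = 0) ∧
        (∃ x : (Σ i : Fin k, Fin (n i + 1)) → ℚ,
          (∀ i : Fin k, ∃ j : Fin (n i + 1), x ⟨i, j⟩ ≠ 0) ∧ MvPolynomial.aeval x f = 0)} : ℕ) : ℝ) /
     ((Set.ncard {f : MvPolynomial (Σ i : Fin k, Fin (n i + 1)) ℤ |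
        (∀ s ∈ f.support, ∀ i : Fin k, ∑ j : Fin (n i + 1), s ⟨i, j⟩ = d i) ∧
        (∀ s, |f.coeff s| ≤ (H : ℤ)) ∧
        (∃ x : (Σ i : Fin k, Fin (n i + 1)) → ℝ,
          (∀ i : Fin k, ∃ j : Fin (n i + 1), x ⟨i, j⟩ ≠ 0) ∧ MvPolynomial.aeval x f = 0) ∧
        (∀ p : ℕ, ∀ _ : Fact p.Prime, ∃ x : (Σ i : Fin k, Fin (n i + 1)) → Padic p,
          (∀ i : Fin k, ∃ j : Fin (n i + 1), x ⟨i, j⟩ ≠ 0) ∧ MvPolynomial.aeval x f = 0)} : ℕ) : ℝ))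
     Filter.atTop (nhds 1) := by
  intro k n d _ hn hd hex _
  refine (Pool.Agent.HP.main_all n d hn hd hex).congr fun H => ?_
  rw [Pool.Agent.HP.ncard_glob n d H, Pool.Agent.HP.ncard_loc n d H]

end Pool.Agent.S19053
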