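import Pool.Statements.S19251
import Pool.Agent.Lib.MP_31386d_pr_RQ.FinalRQ
import Pool.Agent.Lib.MP_31386d_pr_REALQ.Compare
-- import your own Pool.Agent.* helpers here

set_option autoImplicit false
open scoped Classical
open Pool Pool.MP_31386d_pr

namespace Pool.Agent.S19251

/-- For d≥3, q≥1: the infimum of p at which free random-cluster measures on slabs of thickness L give 0↔x probability uniformly above some α>0 tends, as L→∞, to p_c(q), the infimum of p at which wired box measures keep 0↔boundary bounded below. -/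
theorem result :
    ∀ (d : ℕ), 3 ≤ d → ∀ (q : ℝ), 1 ≤ q →
    ∀ (E : Finset (Fin d → ℤ) → Finset (Sym2 (Fin d → ℤ))),
    (∀ B : Finset (Fin d → ℤ), E B =
        ((B ×ˢ B).filter (fun z : (Fin d → ℤ) × (Fin d → ℤ) =>
          (∑ i : Fin d, |z.1 i - z.2 i|) = 1)).image
            (fun z : (Fin d → ℤ) × (Fin d → ℤ) => s(z.1, z.2))) →
    ∀ (w : Finset (Fin d → ℤ) → Finset (Fin d → ℤ) → ℝ → Finset (Sym2 (Fin d → ℤ)) → ℝ),
    (∀ (B W : Finset (Fin d → ℤ)) (p : ℝ) (ω : Finset (Sym2 (Fin d → ℤ))),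
        w B W p ω = p ^ ω.card * (1 - p) ^ ((E B).card - ω.card) *
        q ^ ((SimpleGraph.fromEdgeSet (((ω : Set (Sym2 (Fin d → ℤ)))) ∪
              {e : Sym2 (Fin d → ℤ) | ∃ u ∈ W, ∃ v ∈ W, e = s(u, v)})).connectedComponentMk ''
              (B : Set (Fin d → ℤ))).ncard) →
    ∀ (Prob : Finset (Fin d → ℤ) → Finset (Fin d → ℤ) → ℝ → (Finset (Sym2 (Fin d → ℤ)) → Prop) → ℝ),
    (∀ (B W : Finset (Fin d → ℤ)) (p : ℝ) (A : Finset (Sym2 (Fin d → ℤ)) → Prop),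
        Prob B W p A =
        (∑ ω ∈ (E B).powerset.filter A, w B W p ω) / (∑ ω ∈ (E B).powerset, w B W p ω)) →
    ∀ (Box Bd : ℕ → Finset (Fin d → ℤ)),
    (∀ n : ℕ, Box n = Fintype.piFinset (fun _ : Fin d => Finset.Icc (-(n : ℤ)) (n : ℤ))) →
    (∀ n : ℕ, Bd n = (Box n).filter (fun x : Fin d → ℤ => ∃ i : Fin d, |x i| = (n : ℤ))) →
    ∀ (Slab : ℕ → ℕ → Finset (Fin d → ℤ)),
    (∀ L n : ℕ, Slab L n = Fintype.piFinset (fun i : Fin d =>
        if i.val = 0 then Finset.Icc (0 : ℤ) ((L : ℤ) - 1) else Finset.Icc (-(n : ℤ)) (n : ℤ))) →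
    Filter.Tendsto
      (fun L : ℕ => sInf {p : ℝ | p ∈ Set.Icc (0 : ℝ) 1 ∧ ∃ α : ℝ, 0 < α ∧
          ∀ n : ℕ, ∀ x ∈ Slab L n,
            α < Prob (Slab L n) ∅ p
              (fun ω : Finset (Sym2 (Fin d → ℤ)) =>
                (SimpleGraph.fromEdgeSet (ω : Set (Sym2 (Fin d → ℤ)))).Reachable 0 x)})
      Filter.atTop
      (nhds (sInf {p : ℝ | p ∈ Set.Icc (0 : ℝ) 1 ∧ ∃ c : ℝ, 0 < c ∧
          ∀ n : ℕ, c < Prob (Box n) (Bd n) p
            (fun ω : Finset (Sym2 (Fin d → ℤ)) => ∃ y ∈ Bd n,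
              (SimpleGraph.fromEdgeSet (ω : Set (Sym2 (Fin d → ℤ)))).Reachable 0 y)})) := by
  intro d hd q hq
  refine Pool.Agent.Lib.MP_31386d_pr_REALQ.frozen_of_slabQ ?_ d hd q hq
  intro d hd q hq u u' hu huu hθ
  obtain ⟨D, rfl⟩ : ∃ D, d = D + 1 := ⟨d - 1, by omega⟩
  exact Pool.Agent.Lib.MP_31386d_pr_RQ.slab_rq (by omega) hq hu huu hθ

end Pool.Agent.S19251
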