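import Pool.Statements.S19424
import Pool.Agent.Lib.MP_798553_pr.Prob

set_option autoImplicit false
open MeasureTheory Filter Topology
open Pool Pool.MP_798553_pr

namespace Pool.Agent.S19424

open scoped ENNReal
open Pool.Agent.MP798553

/-- The neighbourhood. -/
def nb : Finset (Fin 2 → ℤ) := {![0, 0], ![0, 1], ![1, 0], ![1, 1]}

lemma m00 : (![0, 0] : Fin 2 → ℤ) ∈ nb := by simp [nb]
lemma m01 : (![0, 1] : Fin 2 → ℤ) ∈ nb := by simp [nb]
lemma m10 : (![1, 0] : Fin 2 → ℤ) ∈ nb := by simp [nb]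
lemma m11 : (![1, 1] : Fin 2 → ℤ) ∈ nb := by simp [nb]

/-- The local rule. -/
def loc (y : nb → Fin 3) : Fin 3 :=
  if (y ⟨_, m00⟩ = 2 ∧ y ⟨_, m01⟩ = 2) ∨ (y ⟨_, m10⟩ = 2 ∧ y ⟨_, m11⟩ = 2) then 1 else 0

/-- The cellular automaton. -/
def FF (x : Cfg) (i : Site) : Fin 3 := loc (fun v => x (i + v.1))

lemma FF_eq (x : Cfg) (i : Site) : FF x i =
    if (x (i + ![0, 0]) = 2 ∧ x (i + ![0, 1]) = 2) ∨ (x (i + ![1, 0]) = 2 ∧ x (i + ![1, 1]) = 2)
    then 1 else 0 := rfl

lemma FF_ne_two (x : Cfg) (i : Site) : FF x i ≠ 2 := by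
  rw [FF_eq]; split_ifs <;> decide

lemma FF_nil (x : Cfg) : FF^[2] x = fun _ => 0 := by
  ext1 i
  change FF (FF x) i = 0
  rw [FF_eq, if_neg]
  simp [FF_ne_two]

lemma measurable_FF (i : Site) : Measurable (fun x => FF x i) := by
  unfold FF
  have h1 : Measurable loc := Measurable.of_discrete
  refine h1.comp ?_
  refine measurable_pi_iff.2 fun v => ?_
  exact measurable_pi_apply _

/-- The small parameter. -/
noncomputable def ep : ℝ≥0∞ := (1 / 32 : ℝ≥0∞) ^ 4

lemma ep_le : ep ≤ 1 / 32 := by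
  unfold ep
  refine (pow_le_pow_right_of_le_one' (m := 4) (n := 1) ?_ (by norm_num)).trans_eq (pow_one _)
  rw [ENNReal.div_le_iff (by norm_num) (by norm_num)]
  norm_num

lemma ep_lt_one : ep < 1 := by
  refine ep_le.trans_lt ?_
  rw [ENNReal.div_lt_iff (by norm_num) (by norm_num)]
  norm_num

lemma ep_ne_zero : ep ≠ 0 := by
  unfold ep
  refine pow_ne_zero _ ?_
  simp

/-- The law of the new symbol when the output is `1`. -/
noncomputable def th1 : PMF (Fin 3) :=
  PMF.ofFintype ![ep / 2, ep / 2, 1 - ep] (by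
    rw [Fin.sum_univ_three]
    simp only [Matrix.cons_val_zero, Matrix.cons_val_one, Matrix.cons_val]
    rw [ENNReal.add_halves, add_tsub_cancel_of_le ep_lt_one.le])

/-- The law of the new symbol when the output is `0`. -/
noncomputable def th0 : PMF (Fin 3) :=
  PMF.ofFintype ![(1 - ep) / 2, (1 - ep) / 2, ep] (by
    rw [Fin.sum_univ_three]
    simp only [Matrix.cons_val_zero, Matrix.cons_val_one, Matrix.cons_val]
    rw [ENNReal.add_halves, tsub_add_cancel_of_le ep_lt_one.le])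

/-- The noise. -/
noncomputable def th : Fin 3 → PMF (Fin 3) := ![th0, th1, th0]

lemma one_sub_ep_ne : (1 : ℝ≥0∞) - ep ≠ 0 := by
  rw [Ne, tsub_eq_zero_iff_le, not_le]; exact ep_lt_one

lemma th_pos (a b : Fin 3) : th a b ≠ 0 := by
  have h1 := ep_ne_zero
  have h2 := one_sub_ep_ne
  fin_cases a <;> fin_cases b <;>
    simp [th, th0, th1, PMF.ofFintype_apply, h1] <;> exact h2

lemma nu_A1 : nu th {g | g 1 ≠ 2} ≤ ep := by
  have h1 : nu th {g | g 1 ≠ 2} = ((nu th).map (fun g => g 1)) {c | c ≠ 2} := by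
    rw [Measure.map_apply (by fun_prop) MeasurableSet.of_discrete]; rfl
  rw [h1, nu_map]
  have : (th 1) = th1 := rfl
  rw [this, PMF.toMeasure_apply_fintype, Fin.sum_univ_three]
  simp [th1, PMF.ofFintype_apply, Set.indicator]

lemma nu_A0 : nu th {g | g 0 = 2} ≤ ep := by
  have h1 : nu th {g | g 0 = 2} = ((nu th).map (fun g => g 0)) {c | c = 2} := by
    rw [Measure.map_apply (by fun_prop) MeasurableSet.of_discrete]; rfl
  rw [h1, nu_map]
  have : (th 0) = th0 := rfl
  rw [this, PMF.toMeasure_apply_fintype, Fin.sum_univ_three]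
  simp [th0, PMF.ofFintype_apply, Set.indicator]

/-- The embedding of the coordinates, first orientation. -/
def e1 (p : ℤ × ℤ) : Site := ![p.1, p.2]

/-- The embedding of the coordinates, second orientation. -/
def e2 (p : ℤ × ℤ) : Site := ![p.2, p.1]

lemma e1_inj : Function.Injective e1 := by
  intro p q h
  have h0 := congrFun h 0
  have h1 := congrFun h 1
  simp only [e1, Matrix.cons_val_zero, Matrix.cons_val_one] at h0 h1
  exact Prod.ext h0 h1

lemma e2_inj : Function.Injective e2 := by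
  intro p q h
  have h0 := congrFun h 0
  have h1 := congrFun h 1
  simp only [e2, Matrix.cons_val_zero, Matrix.cons_val_one] at h0 h1
  exact Prod.ext h1 h0

lemma add00 (i j : ℤ) : (![i, j] : Site) + ![0, 0] = ![i, j] := by
  ext k; fin_cases k <;> simp
lemma add01 (i j : ℤ) : (![i, j] : Site) + ![0, 1] = ![i, j + 1] := by
  ext k; fin_cases k <;> simp
lemma add10 (i j : ℤ) : (![i, j] : Site) + ![1, 0] = ![i + 1, j] := by
  ext k; fin_cases k <;> simp
lemma add11 (i j : ℤ) : (![i, j] : Site) + ![1, 1] = ![i + 1, j + 1] := by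
  ext k; fin_cases k <;> simp

lemma FF_at (x : Cfg) (i j : ℤ) : FF x ![i, j] =
    if (x ![i, j] = 2 ∧ x ![i, j + 1] = 2) ∨ (x ![i + 1, j] = 2 ∧ x ![i + 1, j + 1] = 2)
    then 1 else 0 := by
  rw [FF_eq, add00, add01, add10, add11]

lemma bound_one (n : ℕ) :
    Pn th n {h | Xn FF (fun _ => 2) n h (e1 (0, 0)) ≠ 2} ≤ (1 / 32 : ℝ≥0∞) := by
  refine main_bound FF th (fun _ => 2) e1 e1_inj {g | g 1 ≠ 2} {c | c ≠ 2} (by simp) ?_ nu_A1 n 0 0
  intro x w i j h
  simp only [e1, FF_at, Set.mem_ofPred_eq] at h ⊢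
  split_ifs at h with hc
  · exact Or.inl h
  · right
    push Not at hc
    by_cases h1 : x ![i, j] = 2 <;> by_cases h2 : x ![i + 1, j] = 2 <;> simp_all

lemma bound_zero (n : ℕ) :
    Pn th n {h | Xn FF (fun _ => 0) n h (e2 (0, 0)) = 2} ≤ (1 / 32 : ℝ≥0∞) := by
  refine main_bound FF th (fun _ => 0) e2 e2_inj {g | g 0 = 2} {c | c = 2} (by simp) ?_ nu_A0 n 0 0
  intro x w i j h
  simp only [e2, FF_at, Set.mem_ofPred_eq] at h ⊢
  split_ifs at h with hc
  · right
    rcases hc with hc | hc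
    · exact ⟨Or.inl hc.1, Or.inl hc.2⟩
    · exact ⟨Or.inr hc.1, Or.inr hc.2⟩
  · exact Or.inl h

/-- The negation of the preceding statement: For every nilpotent cellular automaton on ℤ^d with finite alphabet and every positive cellwise noise matrix, the noisy dynamics (CA then independent noise) has a probability measure to which all initial measures converge weakly. -/
theorem result :
    ¬ (∀ (d q : ℕ) (N : Finset (Fin d → ℤ)) (f : (N → Fin q) → Fin q)
    (F : ((Fin d → ℤ) → Fin q) → ((Fin d → ℤ) → Fin q)),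
    (∀ x i, F x i = f (fun v => x (i + v.1))) →
    (∃ n : ℕ, ∃ a : Fin q, ∀ x, F^[n] x = fun _ => a) →
    ∀ θ : Fin q → PMF (Fin q), (∀ a b, θ a b ≠ 0) →
    ∃ ν : Measure ((Fin d → ℤ) → Fin q), IsProbabilityMeasure ν ∧
      ∀ μ : Measure ((Fin d → ℤ) → Fin q), IsProbabilityMeasure μ →
        ∀ (S : Finset (Fin d → ℤ)) (c : (Fin d → ℤ) → Fin q),
          Tendsto (fun n : ℕ =>
              ((fun m : Measure ((Fin d → ℤ) → Fin q) =>
                  m.bind (fun x => Measure.infinitePi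
                    (fun i : Fin d → ℤ => (θ (F x i)).toMeasure)))^[n] μ)
                {y | ∀ i ∈ S, y i = c i})
            atTop (𝓝 (ν {y | ∀ i ∈ S, y i = c i}))) := by
  intro H
  obtain ⟨ν, hν, hlim⟩ := H 2 3 nb loc FF (fun _ _ => rfl) ⟨2, 0, FF_nil⟩ th th_pos
  have h2 := hlim (Measure.dirac (fun _ => 2)) inferInstance {![0, 0]} (fun _ => 2)
  have h0 := hlim (Measure.dirac (fun _ => 0)) inferInstance {![0, 0]} (fun _ => 2)
  have hset : {y : Cfg | ∀ i ∈ ({![0, 0]} : Finset Site), y i = (fun _ => (2 : Fin 3)) i} =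
      {y | y ![0, 0] = 2} := by
    ext y; simp
  rw [hset] at h2 h0
  have hmeas : MeasurableSet {y : Cfg | y ![0, 0] = 2} := by
    have hm : Measurable (fun y : Cfg => y ![0, 0]) := measurable_pi_apply _
    exact hm (MeasurableSet.singleton (2 : Fin 3))
  have e : ∀ (x0 : Cfg) (n : ℕ),
      ((fun m : Measure Cfg => m.bind (fun x => Measure.infinitePi
        (fun i : Site => (th (FF x i)).toMeasure)))^[n] (Measure.dirac x0)) {y | y ![0, 0] = 2} =
      Pn th n {h | Xn FF x0 n h ![0, 0] = 2} := by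
    intro x0 n
    have := law_Xn FF measurable_FF th x0 n
    change ((fun m : Measure Cfg => m.bind (ker FF th))^[n] (Measure.dirac x0)) _ = _
    rw [this, Measure.map_apply (measurable_Xn FF measurable_FF x0 n) hmeas]
    rfl
  have hge : (1 : ℝ≥0∞) - 1 / 32 ≤ ν {y | y ![0, 0] = 2} := by
    refine ge_of_tendsto' h2 fun n => ?_
    rw [e]
    have h3 := bound_one n
    have h4 : {h | Xn FF (fun _ => 2) n h ![0, 0] = 2} =
        {h | Xn FF (fun _ => 2) n h (e1 (0, 0)) ≠ 2}ᶜ := by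
      ext h; simp [e1]
    rw [h4, prob_compl_eq_one_sub]
    · exact tsub_le_tsub_left h3 1
    · have : {h | Xn FF (fun _ => 2) n h (e1 (0, 0)) ≠ 2} =
          (Xn FF (fun _ => 2) n) ⁻¹' {y : Cfg | y ![0, 0] = 2}ᶜ := by
        ext h; simp [e1]
      rw [this]
      exact measurable_Xn FF measurable_FF _ n hmeas.compl
  have hle : ν {y | y ![0, 0] = 2} ≤ 1 / 32 := by
    refine le_of_tendsto' h0 fun n => ?_
    rw [e]
    exact bound_zero n
  have h5 := hge.trans hle
  rw [tsub_le_iff_right, ENNReal.div_add_div_same] at h5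
  have h6 : ((1 : ℝ≥0∞) + 1) / 32 < 1 := by
    rw [ENNReal.div_lt_iff (by norm_num) (by norm_num)]
    norm_num
  exact absurd h5 (not_le.2 h6)

end Pool.Agent.S19424
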