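import Pool.Statements.S19560

set_option autoImplicit false
open MeasureTheory ProbabilityTheory
open Pool Pool.MP_aa6114_pr

namespace Pool.Agent.S19560

/-- The fair coin on `Bool`. -/
noncomputable def coin : Measure Bool :=
  (2⁻¹ : ENNReal) • Measure.dirac true + (2⁻¹ : ENNReal) • Measure.dirac false

instance : IsProbabilityMeasure coin := by
  constructor
  simp [coin, ENNReal.inv_two_add_inv_two]

theorem coin_singleton (b : Bool) : coin {b} = 2⁻¹ := by
  cases b <;> simp [coin]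

/-- The values of the four variables, as natural numbers:
`X 0` is uniform on `{1, 4}`, `X 1 = 2`, `X 2` is uniform on `{0, 5}`, `X 3` is uniform on `{3, 6}`.
All possible values of different variables are distinct, so ties never occur. -/
def val (i : Fin 4) (b : Bool) : ℕ :=
  if i = 0 then (if b then 4 else 1)
  else if i = 1 then 2
  else if i = 2 then (if b then 5 else 0)
  else (if b then 6 else 3)

/-- The probability space: four independent fair coins. -/
noncomputable def mu : Measure (Fin 4 → Bool) := Measure.pi (fun _ => coin)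

instance : IsProbabilityMeasure mu := by unfold mu; infer_instance

/-- The four random variables. -/
noncomputable def XX (i : Fin 4) (w : Fin 4 → Bool) : ℝ := (val i (w i) : ℝ)

theorem mu_singleton (w : Fin 4 → Bool) : mu {w} = (16 : ENNReal)⁻¹ := by
  unfold mu
  rw [Measure.pi_singleton]
  simp only [coin_singleton]
  simp only [Finset.prod_const, Finset.card_univ, Fintype.card_fin]
  rw [← ENNReal.inv_pow]
  norm_num

theorem mu_filter (p : (Fin 4 → Bool) → Prop) [DecidablePred p] :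
    mu {w | p w} = ((Finset.univ.filter p).card : ENNReal) * (16 : ENNReal)⁻¹ := by
  have h : {w | p w} = ((Finset.univ.filter p : Finset (Fin 4 → Bool)) : Set (Fin 4 → Bool)) := by
    ext w; simp
  rw [h, ← sum_measure_singleton]
  simp [mu_singleton]

theorem XX_lt (i j : Fin 4) (w : Fin 4 → Bool) :
    XX i w < XX j w ↔ val i (w i) < val j (w j) := by
  simp [XX]

theorem XX_indep : iIndepFun XX mu := by
  have h := iIndepFun_pi (μ := fun _ : Fin 4 => coin)
    (X := fun (i : Fin 4) (b : Bool) => (val i b : ℝ))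
    (fun i => (measurable_from_top).aemeasurable)
  exact h

/-- The negation of the preceding statement: For independent real random variables and any finite set of pairwise strict or weak inequality constraints P, P(X_a<X_b given P) ≤ P(X_a<X_b given P and X_a<X_c) whenever the second conditioning event has positive probability. -/
theorem result :
    ¬ (∀ (Ω : Type) [MeasurableSpace Ω] (μ : Measure Ω) [IsProbabilityMeasure μ]
      (n : ℕ) (X : Fin n → Ω → ℝ),
      (∀ i, Measurable (X i)) →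
      iIndepFun X μ →
      ∀ (a b c : Fin n), a ≠ b → a ≠ c → b ≠ c →
      ∀ (S W : Finset (Fin n × Fin n)),
        μ ({ω | (∀ p ∈ S, X p.1 ω < X p.2 ω) ∧ (∀ p ∈ W, X p.1 ω ≤ X p.2 ω)}
            ∩ {ω | X a ω < X c ω}) ≠ 0 →
        ProbabilityTheory.cond μ
            {ω | (∀ p ∈ S, X p.1 ω < X p.2 ω) ∧ (∀ p ∈ W, X p.1 ω ≤ X p.2 ω)}
            {ω | X a ω < X b ω}
          ≤ ProbabilityTheory.cond μ
            ({ω | (∀ p ∈ S, X p.1 ω < X p.2 ω) ∧ (∀ p ∈ W, X p.1 ω ≤ X p.2 ω)}
              ∩ {ω | X a ω < X c ω})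
            {ω | X a ω < X b ω}) := by
  intro H
  have hP : {ω : Fin 4 → Bool | (∀ p ∈ ({((0 : Fin 4), (3 : Fin 4)), (2, 3)} : Finset (Fin 4 × Fin 4)),
      XX p.1 ω < XX p.2 ω) ∧ (∀ p ∈ (∅ : Finset (Fin 4 × Fin 4)), XX p.1 ω ≤ XX p.2 ω)} =
      {ω | val 0 (ω 0) < val 3 (ω 3) ∧ val 2 (ω 2) < val 3 (ω 3)} := by
    ext ω
    simp [XX_lt]
  have hac : {ω : Fin 4 → Bool | XX 0 ω < XX 2 ω} = {ω | val 0 (ω 0) < val 2 (ω 2)} := by
    ext ω; simp [XX_lt]
  have hab : {ω : Fin 4 → Bool | XX 0 ω < XX 1 ω} = {ω | val 0 (ω 0) < val 1 (ω 1)} := by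
    ext ω; simp [XX_lt]
  have h := H (Fin 4 → Bool) mu 4 XX
    (fun i => measurable_of_finite _) XX_indep 0 1 2 (by decide) (by decide) (by decide)
    {((0 : Fin 4), (3 : Fin 4)), (2, 3)} ∅
  rw [hP, hac, hab, cond_apply (Set.toFinite _).measurableSet,
    cond_apply (Set.toFinite _).measurableSet] at h
  simp only [← Set.ofPred_and] at h
  rw [mu_filter, mu_filter, mu_filter, mu_filter] at h
  have c1 : (Finset.univ.filter (fun ω : Fin 4 → Bool =>
      (val 0 (ω 0) < val 3 (ω 3) ∧ val 2 (ω 2) < val 3 (ω 3)) ∧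
        val 0 (ω 0) < val 2 (ω 2))).card = 4 := by decide
  have c2 : (Finset.univ.filter (fun ω : Fin 4 → Bool =>
      val 0 (ω 0) < val 3 (ω 3) ∧ val 2 (ω 2) < val 3 (ω 3))).card = 10 := by decide
  have c3 : (Finset.univ.filter (fun ω : Fin 4 → Bool =>
      (val 0 (ω 0) < val 3 (ω 3) ∧ val 2 (ω 2) < val 3 (ω 3)) ∧
        val 0 (ω 0) < val 1 (ω 1))).card = 6 := by decide
  have c4 : (Finset.univ.filter (fun ω : Fin 4 → Bool =>
      ((val 0 (ω 0) < val 3 (ω 3) ∧ val 2 (ω 2) < val 3 (ω 3)) ∧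
        val 0 (ω 0) < val 2 (ω 2)) ∧ val 0 (ω 0) < val 1 (ω 1))).card = 2 := by decide
  simp only [c1, c2, c3, c4] at h
  have h' := h (by
    rw [ne_eq, mul_eq_zero, not_or]
    constructor
    · norm_num
    · rw [ENNReal.inv_eq_zero]; norm_num)
  have e1 : ((((10 : ℕ) : ENNReal) * (16 : ENNReal)⁻¹)⁻¹ * (((6 : ℕ) : ENNReal) * (16 : ENNReal)⁻¹)).toReal
      = 3 / 5 := by
    simp only [ENNReal.toReal_mul, ENNReal.toReal_inv]
    norm_num
  have e2 : ((((4 : ℕ) : ENNReal) * (16 : ENNReal)⁻¹)⁻¹ * (((2 : ℕ) : ENNReal) * (16 : ENNReal)⁻¹)).toReal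
      = 1 / 2 := by
    simp only [ENNReal.toReal_mul, ENNReal.toReal_inv]
    norm_num
  have hfin : ((((4 : ℕ) : ENNReal) * (16 : ENNReal)⁻¹)⁻¹ * (((2 : ℕ) : ENNReal) * (16 : ENNReal)⁻¹)) ≠ ⊤ := by
    intro htop
    rw [htop] at e2
    norm_num at e2
  have h2 := ENNReal.toReal_mono hfin h'
  rw [e1, e2] at h2
  norm_num at h2

end Pool.Agent.S19560
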