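import Pool.Statements.S19627
import Pool.Agent.Lib.MP_c725eb_pr.Main

set_option autoImplicit false
open MeasureTheory ProbabilityTheory
open Pool Pool.MP_c725eb_pr

namespace Pool.Agent.S19627

/-- For i.i.d. nonnegative edge weights on the square lattice Z^2 with a.s. unique geodesics between all pairs, a.s. every vertex lies on the geodesic from (-n,0) to (n,0) for only finitely many n. -/
theorem result :
  ∀ G : SimpleGraph (ℤ × ℤ),
    G = SimpleGraph.boxProd (SimpleGraph.fromRel (fun a b : ℤ => b = a + 1))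
          (SimpleGraph.fromRel (fun a b : ℤ => b = a + 1)) →
  ∀ (Ω : Type) [MeasurableSpace Ω] (P : Measure Ω) [IsProbabilityMeasure P]
    (t : G.edgeSet → Ω → ℝ),
    (∀ e, Measurable (t e)) →
    iIndepFun t P →
    (∀ e e', IdentDistrib (t e) (t e') P P) →
    (∀ e, ∀ᵐ ω ∂P, 0 ≤ t e ω) →
    (∀ᵐ ω ∂P, ∀ x y : ℤ × ℤ, ∃! p : G.Walk x y, p.IsPath ∧
        ∀ q : G.Walk x y,
          (p.darts.map (fun d => t ⟨d.edge, d.edge_mem⟩ ω)).sum ≤
            (q.darts.map (fun d => t ⟨d.edge, d.edge_mem⟩ ω)).sum) →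
    ∀ᵐ ω ∂P, ∀ v : ℤ × ℤ,
      Set.Finite {n : ℕ | ∃ p : G.Walk (((-(n : ℤ)), (0 : ℤ)) : ℤ × ℤ) (((n : ℤ), (0 : ℤ)) : ℤ × ℤ),
        p.IsPath ∧
        (∀ q : G.Walk (((-(n : ℤ)), (0 : ℤ)) : ℤ × ℤ) (((n : ℤ), (0 : ℤ)) : ℤ × ℤ),
          (p.darts.map (fun d => t ⟨d.edge, d.edge_mem⟩ ω)).sum ≤
            (q.darts.map (fun d => t ⟨d.edge, d.edge_mem⟩ ω)).sum) ∧
        v ∈ p.support} := by
  exact C7.frozen_of_canonical (fun F _ hF0 hF => C7.canonical_main F hF0 hF)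

end Pool.Agent.S19627
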